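import Pool.Agent.Lib.MP_5de024_nt.Defs

/-!
# Roots of unity (piece Rt)
-/

set_option autoImplicit false
set_option linter.unusedSectionVars false

namespace Pool.Agent.AB

/-- `1 - ξ` is a unit for every `m`-th root of unity `ξ ≠ 1` if `m` is a unit -/
theorem isUnit_one_sub {A : Type} [CommRing A] [IsDomain A] (m : ℕ) (hm : IsUnit (m : A))
    (ξ : A) (h : ξ ^ m = 1) (h1 : ξ ≠ 1) : IsUnit (1 - ξ) := by
  have h0 : ∑ i ∈ Finset.range m, ξ ^ i = 0 := by
    have h2 : (ξ - 1) * ∑ i ∈ Finset.range m, ξ ^ i = 0 := by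
      rw [mul_geom_sum, h, sub_self]
    rcases mul_eq_zero.mp h2 with h3 | h3
    · exact absurd (sub_eq_zero.mp h3) h1
    · exact h3
  have hd : (1 - ξ) ∣ (m : A) := by
    have h4 : (m : A) = ∑ i ∈ Finset.range m, (1 - ξ ^ i) := by
      rw [Finset.sum_sub_distrib, h0, sub_zero, Finset.sum_const, Finset.card_range,
        nsmul_eq_mul, mul_one]
    rw [h4]
    refine Finset.dvd_sum fun i _ => ?_
    have h5 := sub_dvd_pow_sub_pow (1 : A) ξ i
    rwa [one_pow] at h5
  exact isUnit_of_dvd_unit hd hm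

variable (p : ℕ) [Fact p.Prime]

theorem natCast_isUnit (m : ℕ) (hm : m.Coprime p) (A : Type) [CommRing A] [Algebra (Rx p) A] :
    IsUnit (m : A) := by
  have h : IsUnit (m : ZMod p) := (ZMod.isUnit_iff_coprime m p).mpr hm
  have h2 := h.map (cst p A)
  rwa [map_natCast] at h2

theorem cst_pow (A : Type) [CommRing A] [Algebra (Rx p) A] (i : ZMod p) :
    cst p A i ^ p = cst p A i := by
  rw [← map_pow, ZMod.pow_card]

theorem charP_of (A : Type) [CommRing A] [Nontrivial A] [Algebra (Rx p) A] : CharP A p :=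
  charP_of_injective_ringHom (f := cst p A) (cst p A).injective p

/-- roots of `z ^ p = z` are constants -/
theorem cst_of_pow (A : Type) [CommRing A] [IsDomain A] [Algebra (Rx p) A] (z : A)
    (hz : z ^ p = z) : ∃ i : ZMod p, z = cst p A i := by
  classical
  have hp : 1 < p := (Fact.out : p.Prime).one_lt
  obtain ⟨g, hg⟩ : ∃ g : Polynomial A, g = Polynomial.X ^ p - Polynomial.X := ⟨_, rfl⟩
  have hdeg : g.natDegree = p := by
    rw [hg, Polynomial.natDegree_sub_eq_left_of_natDegree_lt, Polynomial.natDegree_X_pow]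
    rw [Polynomial.natDegree_X_pow, Polynomial.natDegree_X]
    exact hp
  have hne : g ≠ 0 := by
    intro h
    rw [h, Polynomial.natDegree_zero] at hdeg
    omega
  have hmem : ∀ w : A, w ∈ g.roots.toFinset ↔ w ^ p = w := by
    intro w
    rw [Multiset.mem_toFinset, Polynomial.mem_roots hne, Polynomial.IsRoot.def, hg,
      Polynomial.eval_sub, Polynomial.eval_pow, Polynomial.eval_X, sub_eq_zero]
  have hsub : (Finset.univ.image (cst p A)) ⊆ g.roots.toFinset := by
    intro w hw
    obtain ⟨i, -, rfl⟩ := Finset.mem_image.mp hw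
    exact (hmem _).mpr (cst_pow p A i)
  have hcard : (Finset.univ.image (cst p A)).card = p := by
    rw [Finset.card_image_of_injective _ (cst p A).injective, Finset.card_univ, ZMod.card]
  have hle : g.roots.toFinset.card ≤ p :=
    (Multiset.toFinset_card_le _).trans ((Polynomial.card_roots' g).trans hdeg.le)
  have heq : Finset.univ.image (cst p A) = g.roots.toFinset :=
    Finset.eq_of_subset_of_card_le hsub (by rw [hcard]; exact hle)
  have hz' : z ∈ Finset.univ.image (cst p A) := by
    rw [heq]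
    exact (hmem z).mpr hz
  obtain ⟨i, -, hi⟩ := Finset.mem_image.mp hz'
  exact ⟨i, hi.symm⟩

end Pool.Agent.AB
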