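import Pool.Agent.Lib.MP_5de024_nt.Gs
import Pool.Agent.Lib.MP_5de024_nt.Rt

/-!
# Cocycles with values in `F_p` (piece As1)
-/

set_option autoImplicit false
set_option linter.unusedSectionVars false

namespace Pool.Agent.AB

variable (p : ℕ) [Fact p.Prime] (K : Type) [Field K] [Algebra (Fx p) K] [Algebra (Rx p) K]
  [IsScalarTower (Rx p) (Fx p) K]

/-- every 2-cocycle with values in `F_p` is the coboundary of a cochain `b` of integers, and
`b ^ p - b` is the coboundary of an integer `a` -/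
theorem as_split [FiniteDimensional (Fx p) K] [IsGalois (Fx p) K] (hNI : NI p K)
    (c : Gl p K → Gl p K → ZMod p)
    (hc : ∀ σ τ ρ : Gl p K, c τ ρ - c (σ * τ) ρ + c σ (τ * ρ) - c σ τ = 0) :
    ∃ (b : Gl p K → Oc p K) (a : Oc p K),
      (∀ σ τ : Gl p K, act p K σ (b τ) - b (σ * τ) + b σ = cst p (Oc p K) (c σ τ)) ∧
      (∀ σ : Gl p K, act p K σ a = a - (b σ ^ p - b σ)) := by
  obtain ⟨θ, hθ⟩ := trace_one p K hNI
  have hreg : ∀ (σ : Gl p K) (f : Gl p K → Oc p K), ∑ τ, f (σ * τ) = ∑ τ, f τ := fun σ f =>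
    Fintype.sum_equiv (Equiv.mulLeft σ) _ _ fun _ => rfl
  have hθ' : ∀ σ : Gl p K, ∑ τ, act p K (σ * τ) θ = 1 := fun σ => by
    rw [hreg σ fun τ => act p K τ θ, hθ]
  obtain ⟨b, hb⟩ : ∃ b : Gl p K → Oc p K,
      ∀ σ, b σ = ∑ τ, cst p (Oc p K) (c σ τ) * act p K (σ * τ) θ := ⟨_, fun _ => rfl⟩
  have hcoc : ∀ σ τ : Gl p K, act p K σ (b τ) - b (σ * τ) + b σ = cst p (Oc p K) (c σ τ) := by
    intro σ τ
    have h1 : act p K σ (b τ) = ∑ ρ, cst p (Oc p K) (c τ ρ) * act p K (σ * τ * ρ) θ := by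
      rw [hb, map_sum]
      refine Finset.sum_congr rfl fun ρ _ => ?_
      rw [map_mul, act_cst, ← act_mul, mul_assoc]
    have h2 : b σ = ∑ ρ, cst p (Oc p K) (c σ (τ * ρ)) * act p K (σ * τ * ρ) θ := by
      rw [hb, ← hreg τ fun ρ => cst p (Oc p K) (c σ ρ) * act p K (σ * ρ) θ]
      refine Finset.sum_congr rfl fun ρ _ => ?_
      rw [mul_assoc]
    rw [h1, h2, hb (σ * τ), ← Finset.sum_sub_distrib, ← Finset.sum_add_distrib]
    have h3 : ∀ ρ, cst p (Oc p K) (c τ ρ) * act p K (σ * τ * ρ) θ -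
        cst p (Oc p K) (c (σ * τ) ρ) * act p K (σ * τ * ρ) θ +
        cst p (Oc p K) (c σ (τ * ρ)) * act p K (σ * τ * ρ) θ =
        cst p (Oc p K) (c σ τ) * act p K (σ * τ * ρ) θ := by
      intro ρ
      have h4 : c σ τ = c τ ρ - c (σ * τ) ρ + c σ (τ * ρ) :=
        (sub_eq_zero.1 (hc σ τ ρ)).symm
      rw [h4, map_add, map_sub]
      ring
    rw [Finset.sum_congr rfl fun ρ _ => h3 ρ, ← Finset.mul_sum, hθ', mul_one]
  have hCh : CharP (Oc p K) p := charP_of p (Oc p K)
  have hEx : ExpChar (Oc p K) p := ExpChar.prime Fact.out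
  refine ⟨b, ∑ τ, (b τ ^ p - b τ) * act p K τ θ, hcoc, fun σ => ?_⟩
  have hW : ∀ τ, act p K σ (b τ ^ p - b τ) = (b (σ * τ) ^ p - b (σ * τ)) - (b σ ^ p - b σ) := by
    intro τ
    have h1 : act p K σ (b τ) = cst p (Oc p K) (c σ τ) + b (σ * τ) - b σ := by
      rw [← hcoc σ τ]
      ring
    rw [map_sub, map_pow, h1, sub_pow_expChar, add_pow_expChar, cst_pow]
    ring
  rw [map_sum, ← hreg σ fun τ => (b τ ^ p - b τ) * act p K τ θ]
  have h5 : ∀ τ, act p K σ ((b τ ^ p - b τ) * act p K τ θ) =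
      (b (σ * τ) ^ p - b (σ * τ)) * act p K (σ * τ) θ -
        (b σ ^ p - b σ) * act p K (σ * τ) θ := by
    intro τ
    rw [map_mul, hW, ← act_mul]
    ring
  rw [Finset.sum_congr rfl fun τ _ => h5 τ, Finset.sum_sub_distrib, ← Finset.mul_sum, hθ', mul_one]

theorem as_deg (g : Rx p) (n : ℕ) (h : (g ^ p - g).natDegree = p * n + 1) : False := by
  have hp : 1 < p := (Fact.out : p.Prime).one_lt
  rcases Nat.eq_zero_or_pos g.natDegree with h0 | h0
  · have h1 : (g ^ p - g).natDegree ≤ 0 := by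
      refine (Polynomial.natDegree_sub_le _ _).trans ?_
      rw [Polynomial.natDegree_pow, h0, mul_zero, max_self]
    omega
  · have h1 : (g ^ p - g).natDegree = p * g.natDegree := by
      rw [Polynomial.natDegree_sub_eq_left_of_natDegree_lt, Polynomial.natDegree_pow]
      rw [Polynomial.natDegree_pow]
      nlinarith
    rw [h] at h1
    have h2 : p ∣ 1 := (Nat.dvd_add_right (Dvd.intro n rfl)).1 (Dvd.intro _ h1.symm)
    exact hp.ne' (Nat.dvd_one.1 h2)

theorem as_ne (g : Rx p) (i j : ℕ) (hij : i ≠ j)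
    (h : g ^ p - g = Polynomial.X ^ (p * i + 1) - Polynomial.X ^ (p * j + 1)) : False := by
  have hp : 0 < p := (Fact.out : p.Prime).pos
  rcases Nat.lt_or_gt_of_ne hij with h0 | h0
  · refine as_deg p g j ?_
    have h1 : p * i + 1 < p * j + 1 := Nat.add_lt_add_right (Nat.mul_lt_mul_of_pos_left h0 hp) 1
    rw [h, Polynomial.natDegree_sub_eq_right_of_natDegree_lt, Polynomial.natDegree_X_pow]
    rw [Polynomial.natDegree_X_pow, Polynomial.natDegree_X_pow]
    exact h1
  · refine as_deg p g i ?_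
    have h1 : p * j + 1 < p * i + 1 := Nat.add_lt_add_right (Nat.mul_lt_mul_of_pos_left h0 hp) 1
    rw [h, Polynomial.natDegree_sub_eq_left_of_natDegree_lt, Polynomial.natDegree_X_pow]
    rw [Polynomial.natDegree_X_pow, Polynomial.natDegree_X_pow]
    exact h1

/-- generic constants: `a + h(x)` is not of the form `y ^ p - y` for some polynomial `h` with
prescribed constant term -/
theorem as_gen [FiniteDimensional (Fx p) K] [IsGalois (Fx p) K] (a : Oc p K) (c0 : ZMod p) :
    ∃ h : Rx p, h.eval 0 = c0 ∧ ∀ y : K, y ^ p - y ≠ (a : K) + algebraMap (Rx p) K h := by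
  have hCh : CharP K p := charP_of p K
  have hEx : ExpChar K p := ExpChar.prime Fact.out
  by_contra hcon
  push Not at hcon
  have hex : ∀ j : ℕ, ∃ y : K, y ^ p - y = (a : K) +
      algebraMap (Rx p) K (Polynomial.C c0 + Polynomial.X ^ (p * j + 1)) := fun j =>
    hcon _ (by
      rw [Polynomial.eval_add, Polynomial.eval_C, Polynomial.eval_pow, Polynomial.eval_X,
        zero_pow (Nat.succ_ne_zero _), add_zero])
  choose w hw using hex
  have hχ : ∀ (j : ℕ) (σ : Gl p K), ∃ i : ZMod p, σ (w j - w 0) - (w j - w 0) = cst p K i := by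
    intro j σ
    apply cst_of_pow
    have h1 : (w j - w 0) ^ p - (w j - w 0) =
        algebraMap (Rx p) K (Polynomial.X ^ (p * j + 1) - Polynomial.X ^ (p * 0 + 1)) := by
      rw [sub_pow_expChar, map_sub]
      have h2 := hw j
      have h3 := hw 0
      rw [map_add] at h2 h3
      linear_combination h2 - h3
    have h2 : σ ((w j - w 0) ^ p - (w j - w 0)) = (w j - w 0) ^ p - (w j - w 0) := by
      rw [h1, IsScalarTower.algebraMap_apply (Rx p) (Fx p) K]
      exact σ.commutes _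
    rw [map_sub, map_pow] at h2
    rw [sub_pow_expChar]
    linear_combination h2
  choose χ hχ using hχ
  obtain ⟨i, j, hij, hχij⟩ := Finite.exists_ne_map_eq_of_infinite χ
  have hfix : ∀ σ : Gl p K, σ (w i - w j) = w i - w j := by
    intro σ
    have h1 := hχ i σ
    have h2 := hχ j σ
    rw [hχij] at h1
    have h3 : σ (w i - w 0) - (w i - w 0) = σ (w j - w 0) - (w j - w 0) := by rw [h1, h2]
    rw [map_sub, map_sub] at h3
    rw [map_sub]
    linear_combination h3
  have hrange : w i - w j ∈ Set.range (algebraMap (Fx p) K) :=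
    (IsGalois.mem_range_algebraMap_iff_fixed _).2 hfix
  obtain ⟨f, hf⟩ := hrange
  have hfeq : f ^ p - f =
      algebraMap (Rx p) (Fx p) (Polynomial.X ^ (p * i + 1) - Polynomial.X ^ (p * j + 1)) := by
    apply (algebraMap (Fx p) K).injective
    rw [map_sub, map_pow, hf, ← IsScalarTower.algebraMap_apply (Rx p) (Fx p) K, sub_pow_expChar,
      map_sub]
    have h2 := hw i
    have h3 := hw j
    rw [map_add] at h2 h3
    linear_combination h2 - h3
  have hint : IsIntegral (Rx p) f := by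
    refine ⟨Polynomial.X ^ p - (Polynomial.X + Polynomial.C
      (Polynomial.X ^ (p * i + 1) - Polynomial.X ^ (p * j + 1))), ?_, ?_⟩
    · refine Polynomial.monic_X_pow_sub ?_
      rw [Polynomial.degree_X_add_C]
      exact_mod_cast (Fact.out : p.Prime).one_lt
    · rw [Polynomial.eval₂_sub, Polynomial.eval₂_X_pow, Polynomial.eval₂_add, Polynomial.eval₂_X,
        Polynomial.eval₂_C, ← hfeq]
      ring
  obtain ⟨g, hg⟩ := IsIntegrallyClosed.algebraMap_eq_of_integral hint
  refine as_ne p g i j hij ?_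
  apply IsFractionRing.injective (Rx p) (Fx p)
  rw [map_sub, map_pow, hg, hfeq]

end Pool.Agent.AB
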