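import Pool.Agent.Lib.MP_5de024_nt.Rt

/-!
# The Artin - Schreier polynomial (piece As3)
-/

set_option autoImplicit false
set_option linter.unusedSectionVars false

namespace Pool.Agent.AB

open Polynomial

variable (p : ℕ) [Fact p.Prime] (K : Type) [Field K] [Algebra (Rx p) K]

/-- the polynomial `X ^ p - X - a` -/
noncomputable def asP (a : K) : Polynomial K := X ^ p - (X + C a)

theorem asP_lt (a : K) : (X + C a : Polynomial K).natDegree < (X ^ p : Polynomial K).natDegree := by
  rw [natDegree_X_add_C, natDegree_X_pow]
  exact (Fact.out : p.Prime).one_lt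

theorem asP_natDegree (a : K) : (asP p K a).natDegree = p := by
  rw [asP, natDegree_sub_eq_left_of_natDegree_lt (asP_lt p K a), natDegree_X_pow]

theorem asP_monic (a : K) : (asP p K a).Monic := by
  rw [asP]
  exact (monic_X_pow p).sub_of_left (degree_lt_degree (asP_lt p K a))

theorem asP_aeval {L : Type} [CommRing L] [Algebra K L] (a : K) (y : L) :
    aeval y (asP p K a) = y ^ p - (y + algebraMap K L a) := by
  rw [asP, map_sub, map_pow, map_add, aeval_X, aeval_C]

theorem asP_eval₂ {L : Type} [CommRing L] (φ : K →+* L) (a : K) (y : L) :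
    (asP p K a).eval₂ φ y = y ^ p - (y + φ a) := by
  rw [asP, eval₂_sub, eval₂_pow, eval₂_add, eval₂_X, eval₂_C]

theorem asP_irreducible (a : K) (h : ∀ y : K, y ^ p - y ≠ a) : Irreducible (asP p K a) := by
  have hp : p.Prime := Fact.out
  have hchar : CharP (AlgebraicClosure K) p := charP_of p (AlgebraicClosure K)
  obtain ⟨y, hy⟩ := IsAlgClosed.exists_aeval_eq_zero (AlgebraicClosure K) (asP p K a) (by
    rw [degree_eq_natDegree (asP_monic p K a).ne_zero, asP_natDegree]
    exact_mod_cast hp.ne_zero)
  have hint : IsIntegral K y := ⟨asP p K a, asP_monic p K a, hy⟩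
  have hdvd : minpoly K y ∣ asP p K a := minpoly.dvd K y hy
  rw [asP_aeval] at hy
  have hy' : y ^ p - y = algebraMap K _ a := by linear_combination hy
  have hm := minpoly.monic hint
  by_cases hd : (minpoly K y).natDegree = p
  · have h1 := eq_of_monic_of_dvd_of_natDegree_le hm (asP_monic p K a) hdvd (by
      rw [hd, asP_natDegree])
    rw [h1]
    exact minpoly.irreducible hint
  · exfalso
    have hlt : (minpoly K y).natDegree < p := by
      have h1 := natDegree_le_of_dvd hdvd (asP_monic p K a).ne_zero
      rw [asP_natDegree] at h1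
      omega
    have hpos : 0 < (minpoly K y).natDegree := minpoly.natDegree_pos hint
    obtain ⟨g, hg⟩ : ∃ g : Polynomial (AlgebraicClosure K), g = (minpoly K y).map
        (algebraMap K (AlgebraicClosure K)) := ⟨_, rfl⟩
    have hsp : g.Splits := IsAlgClosed.splits g
    have hgm : g.Monic := by
      rw [hg]
      exact hm.map _
    have hsum := hsp.nextCoeff_eq_neg_sum_roots_of_monic hgm
    have hcard := hsp.natDegree_eq_card_roots
    have hroot : ∀ r ∈ g.roots, ∃ i : ZMod p, r = y + cst p (AlgebraicClosure K) i := by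
      intro r hr
      rw [hg, mem_roots_map hm.ne_zero, ← aeval_def] at hr
      obtain ⟨q, hq⟩ := hdvd
      have h1 : aeval r (asP p K a) = 0 := by rw [hq, map_mul, hr, zero_mul]
      rw [asP_aeval] at h1
      obtain ⟨i, hi⟩ := cst_of_pow p (AlgebraicClosure K) (r - y) (by
        rw [sub_pow_expChar]
        linear_combination h1 - hy)
      exact ⟨i, by rw [← hi]; ring⟩
    choose! c hc using hroot
    have h2 : g.roots.sum = (g.roots.card : AlgebraicClosure K) * y +
        cst p (AlgebraicClosure K) (g.roots.map c).sum := by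
      have h4 : g.roots.map (fun r => r) =
          g.roots.map (fun r => y + cst p (AlgebraicClosure K) (c r)) :=
        Multiset.map_congr rfl fun r hr => hc r hr
      rw [Multiset.map_id'] at h4
      conv_lhs => rw [h4]
      rw [Multiset.sum_map_add, Multiset.map_const', Multiset.sum_replicate,
        nsmul_eq_mul, map_multiset_sum, Multiset.map_map]
      rfl
    have h3 : g.nextCoeff = algebraMap K _ (minpoly K y).nextCoeff := by
      rw [hg, nextCoeff_map_eq]
    rw [hsum, h2, ← hcard, hg, natDegree_map] at h3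
    obtain ⟨n, hn⟩ : ∃ n, n = (minpoly K y).natDegree := ⟨_, rfl⟩
    rw [← hn] at h3 hlt hpos
    have hnp : n.Coprime p :=
      (hp.coprime_iff_not_dvd.2 (Nat.not_dvd_of_pos_of_lt hpos hlt)).symm
    have hn0 : (n : K) ≠ 0 := (natCast_isUnit p n hnp K).ne_zero
    have hn0' : (n : AlgebraicClosure K) ≠ 0 :=
      (natCast_isUnit p n hnp (AlgebraicClosure K)).ne_zero
    obtain ⟨c0, hc0⟩ : ∃ c0, c0 = (g.roots.map c).sum := ⟨_, rfl⟩
    have h5 : cst p (AlgebraicClosure K) c0 = algebraMap K _ (cst p K c0) :=
      IsScalarTower.algebraMap_apply (Rx p) K (AlgebraicClosure K) _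
    rw [← hg, ← hc0, h5] at h3
    apply h (-((n : K)⁻¹ * ((minpoly K y).nextCoeff + cst p K c0)))
    apply (algebraMap K (AlgebraicClosure K)).injective
    have h6 : algebraMap K (AlgebraicClosure K)
        (-((n : K)⁻¹ * ((minpoly K y).nextCoeff + cst p K c0))) = y := by
      rw [map_neg, map_mul, map_inv₀, map_natCast, map_add]
      field_simp
      linear_combination h3
    rw [map_sub, map_pow, h6, hy']

end Pool.Agent.AB
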