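import Pool.Agent.Lib.MP_5de024_nt.Gs
import Pool.Agent.Lib.MP_5de024_nt.Rt
import Pool.Agent.Lib.MP_5de024_nt.As3A

/-!
# The Artin - Schreier extension of a Galois extension (piece As3)
-/

set_option autoImplicit false
set_option linter.unusedSectionVars false

namespace Pool.Agent.AB

variable (p : ℕ) [Fact p.Prime] (K : Type) [Field K] [Algebra (Fx p) K] [Algebra (Rx p) K]
  [IsScalarTower (Rx p) (Fx p) K]

/-- the extensions of the automorphisms -/
theorem as_hom (b : Gl p K → Oc p K) (a : Oc p K)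
    (ha : ∀ σ : Gl p K, act p K σ a = a - (b σ ^ p - b σ))
    (M : Type) [Field M] [Algebra (Fx p) M] [Algebra (Rx p) M] [IsScalarTower (Rx p) (Fx p) M]
    [FiniteDimensional (Fx p) M] (ι : K →ₐ[Fx p] M) (y : M) (hy : y ^ p - y = ι (a : K))
    (hlift : ∀ (φ : K →+* M) (z : M), z ^ p - z = φ (a : K) →
      ∃ ψ : M →+* M, (∀ s, ψ (ι s) = φ s) ∧ ψ y = z) (σ : Gl p K) (i : ZMod p) :
    ∃ e : Gl p M, (∀ s : K, e (ι s) = ι (σ s)) ∧ e y = y - ι (b σ : K) - cst p M i := by
  have hchar : CharP M p := charP_of p M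
  have h1 : σ (a : K) = (a : K) - ((b σ : K) ^ p - (b σ : K)) := by
    have h2 := congrArg (fun s : Oc p K => (s : K)) (ha σ)
    exact h2
  obtain ⟨ψ, hψ1, hψ2⟩ := hlift ((ι : K →+* M).comp (σ : K →+* K))
    (y - ι (b σ : K) - cst p M i) (by
      have h3 : ((ι : K →+* M).comp (σ : K →+* K)) (a : K) = ι (σ (a : K)) := rfl
      rw [h3, h1, sub_pow_expChar, sub_pow_expChar, cst_pow, map_sub, map_sub, map_pow, ← hy]
      ring)
  have hc : ∀ r : Fx p, ψ (algebraMap (Fx p) M r) = algebraMap (Fx p) M r := by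
    intro r
    rw [← ι.commutes r, hψ1]
    exact congrArg ι (σ.commutes r)
  obtain ⟨ψa, hψa⟩ : ∃ ψa : M →ₐ[Fx p] M, ∀ s, ψa s = ψ s := ⟨⟨ψ, hc⟩, fun s => rfl⟩
  refine ⟨AlgEquiv.ofBijective ψa ψa.bijective, fun s => ?_, ?_⟩
  · rw [AlgEquiv.coe_ofBijective, hψa, hψ1]
    rfl
  · rw [AlgEquiv.coe_ofBijective, hψa, hψ2]

theorem as_cst (M : Type) [Field M] [Algebra (Fx p) M] [Algebra (Rx p) M]
    [IsScalarTower (Rx p) (Fx p) M] (ι : K →ₐ[Fx p] M) (c : ZMod p) :
    ι (cst p K c) = cst p M c := (ι.restrictScalars (Rx p)).commutes _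

theorem as_int (M : Type) [Field M] [Algebra (Rx p) M] (y : M) (a : Oc p M)
    (hy : y ^ p - y = (a : M)) : IsIntegral (Rx p) y := by
  refine isIntegral_trans (A := Oc p M) y ⟨Polynomial.X ^ p - (Polynomial.X + Polynomial.C a),
    Polynomial.monic_X_pow_sub ?_, ?_⟩
  · rw [Polynomial.degree_X_add_C]
    exact_mod_cast (Fact.out : p.Prime).one_lt
  · rw [Polynomial.eval₂_sub, Polynomial.eval₂_pow, Polynomial.eval₂_add, Polynomial.eval₂_X,
      Polynomial.eval₂_C]
    have h1 : algebraMap (Oc p M) M a = (a : M) := rfl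
    rw [h1]
    linear_combination hy

/-- the field `M` -/
theorem as_field [FiniteDimensional (Fx p) K] (a : K) (hirr : ∀ y : K, y ^ p - y ≠ a) :
    ∃ (M : Type) (_ : Field M) (_ : Algebra (Fx p) M) (_ : Algebra (Rx p) M)
      (_ : IsScalarTower (Rx p) (Fx p) M) (ι : K →ₐ[Fx p] M) (y : M),
      FiniteDimensional (Fx p) M ∧ y ^ p - y = ι a ∧
      Module.finrank (Fx p) M = p * Module.finrank (Fx p) K ∧
      (∀ τ τ' : Gl p M, (∀ s : K, τ (ι s) = τ' (ι s)) → τ y = τ' y → τ = τ') ∧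
      ∀ (φ : K →+* M) (z : M), z ^ p - z = φ a →
        ∃ ψ : M →+* M, (∀ s, ψ (ι s) = φ s) ∧ ψ y = z := by
  have hf : Fact (Irreducible (asP p K a)) := ⟨asP_irreducible p K a hirr⟩
  have hm := asP_monic p K a
  have hfin : Module.Finite K (AdjoinRoot (asP p K a)) := hm.finite_adjoinRoot
  refine ⟨AdjoinRoot (asP p K a), inferInstance, inferInstance, inferInstance, inferInstance,
    IsScalarTower.toAlgHom (Fx p) K (AdjoinRoot (asP p K a)), AdjoinRoot.root (asP p K a),
    ?_, ?_, ?_, ?_, ?_⟩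
  · exact Module.Finite.trans K _
  · have h1 := AdjoinRoot.eval₂_root (asP p K a)
    rw [asP_eval₂] at h1
    have h2 : (IsScalarTower.toAlgHom (Fx p) K (AdjoinRoot (asP p K a))) a =
      AdjoinRoot.of (asP p K a) a := rfl
    rw [h2]
    linear_combination h1
  · rw [← Module.finrank_mul_finrank (Fx p) K (AdjoinRoot (asP p K a)),
      (AdjoinRoot.powerBasis' hm).finrank, AdjoinRoot.powerBasis'_dim, asP_natDegree, mul_comm]
  · intro τ τ' h1 h2
    have h3 : (τ : AdjoinRoot (asP p K a) →+* AdjoinRoot (asP p K a)) =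
        (τ' : AdjoinRoot (asP p K a) →+* AdjoinRoot (asP p K a)) :=
      AdjoinRoot.ringHom_ext (RingHom.ext h1) h2
    exact AlgEquiv.ext fun s => RingHom.congr_fun h3 s
  · intro φ z hz
    refine ⟨AdjoinRoot.lift φ z ?_, fun s => ?_, ?_⟩
    · rw [asP_eval₂]
      linear_combination hz
    · exact AdjoinRoot.lift_of _
    · exact AdjoinRoot.lift_root _

/-- the extension `M = K(y)`, `y ^ p - y = a`, its automorphisms and the absence of inertia -/
theorem as_ext [FiniteDimensional (Fx p) K] [IsGalois (Fx p) K] (hNI : NI p K)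
    (b : Gl p K → Oc p K) (a : Oc p K)
    (ha : ∀ σ : Gl p K, act p K σ a = a - (b σ ^ p - b σ))
    (hirr : ∀ y : K, y ^ p - y ≠ (a : K)) :
    ∃ (M : Type) (_ : Field M) (_ : Algebra (Fx p) M) (_ : Algebra (Rx p) M)
      (_ : IsScalarTower (Rx p) (Fx p) M) (ι : K →ₐ[Fx p] M) (y : M)
      (e : Gl p K → ZMod p → Gl p M),
      FiniteDimensional (Fx p) M ∧ IsGalois (Fx p) M ∧ NI p M ∧ y ^ p - y = ι (a : K) ∧
      (∀ (σ : Gl p K) (i : ZMod p) (s : K), e σ i (ι s) = ι (σ s)) ∧
      (∀ (σ : Gl p K) (i : ZMod p), e σ i y = y - ι (b σ : K) - cst p M i) ∧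
      (∀ τ : Gl p M, ∃ (σ : Gl p K) (i : ZMod p), τ = e σ i) ∧
      (∀ τ : Gl p M, (∀ s : K, τ (ι s) = ι s) → τ y = y → τ = 1) := by
  obtain ⟨M, iF, iA, iR, iT, ι, y, hfin, hy, hrank, hdet, hlift⟩ := as_field p K (a : K) hirr
  have he := as_hom p K b a ha M ι y hy hlift
  choose e he1 he2 using he
  have hinj : Function.Injective (fun x : Gl p K × ZMod p => e x.1 x.2) := by
    rintro ⟨σ, i⟩ ⟨σ', i'⟩ h
    dsimp only at h
    have h1 : σ = σ' := by
      refine AlgEquiv.ext fun s => ι.injective ?_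
      change ι (σ s) = ι (σ' s)
      rw [← he1 σ i, ← he1 σ' i', h]
    subst h1
    have h2 := he2 σ i
    rw [h, he2] at h2
    have h3 : cst p M i' = cst p M i := by linear_combination -h2
    rw [(cst p M).injective h3]
  have hcard : Nat.card (Gl p K × ZMod p) = Module.finrank (Fx p) M := by
    rw [Nat.card_prod, Nat.card_zmod, hrank, mul_comm]
    congr 1
    exact IsGalois.card_aut_eq_finrank (Fx p) K
  have hle : Nat.card (Gl p M) ≤ Module.finrank (Fx p) M := by
    rw [Nat.card_eq_fintype_card]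
    exact AlgEquiv.card_le
  have hle2 : Nat.card (Gl p K × ZMod p) ≤ Nat.card (Gl p M) :=
    Nat.card_le_card_of_injective _ hinj
  have hcard2 : Nat.card (Gl p M) = Module.finrank (Fx p) M := by omega
  have hgal : IsGalois (Fx p) M := IsGalois.of_card_aut_eq_finrank (Fx p) M hcard2
  have hsurj : Function.Surjective (fun x : Gl p K × ZMod p => e x.1 x.2) :=
    ((Nat.bijective_iff_injective_and_card _).2 ⟨hinj, by omega⟩).2
  have hdet1 : ∀ τ : Gl p M, (∀ s : K, τ (ι s) = ι s) → τ y = y → τ = 1 := fun τ h1 h2 =>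
    hdet τ 1 h1 h2
  refine ⟨M, iF, iA, iR, iT, ι, y, e, hfin, hgal, ?_, hy, he1, he2, fun τ => ?_, hdet1⟩
  · intro τ hτ P hP
    obtain ⟨⟨σ, i⟩, hx⟩ := hsurj τ
    dsimp only at hx
    subst hx
    by_cases hσ : σ = 1
    · subst hσ
      obtain ⟨c, hc⟩ := cst_of_pow p (Oc p K) (b 1) (by
        have h1 := ha 1
        rw [act_one] at h1
        linear_combination h1)
      have hci : c + i ≠ 0 := by
        intro h0
        apply hτ
        refine hdet1 _ (fun s => he1 1 i s) ?_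
        rw [he2, hc]
        have h1 : ι ((cst p (Oc p K) c : Oc p K) : K) = cst p M c := by
          rw [cst_coe]
          exact as_cst p K M ι c
        rw [h1, sub_sub, ← map_add, h0, map_zero, sub_zero]
      refine ⟨⟨y, as_int p M y (omap p K M ι a) hy⟩, fun hmem => ?_⟩
      have h2 : act p M (e 1 i) ⟨y, as_int p M y (omap p K M ι a) hy⟩ -
          ⟨y, as_int p M y (omap p K M ι a) hy⟩ = cst p (Oc p M) (-(c + i)) := by
        apply Subtype.ext
        change e 1 i y - y = cst p M (-(c + i))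
        have h1 : ι ((cst p (Oc p K) c : Oc p K) : K) = cst p M c := by
          rw [cst_coe]
          exact as_cst p K M ι c
        rw [he2, hc, h1, map_neg, map_add]
        ring
      rw [h2] at hmem
      have hu : IsUnit (cst p (Oc p M) (-(c + i))) :=
        (isUnit_iff_ne_zero.2 (neg_ne_zero.2 hci)).map (cst p (Oc p M))
      exact hP.ne_top (Ideal.eq_top_of_isUnit_mem P hmem hu)
    · obtain ⟨n, a', b', h1, h2⟩ := gs_of_ni p K hNI
      by_contra hcon
      push Not at hcon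
      apply hP.ne_top
      rw [Ideal.eq_top_iff_one]
      have h3 : (1 : Oc p M) = -∑ j, omap p K M ι (a' j) *
          (act p M (e σ i) (omap p K M ι (b' j)) - omap p K M ι (b' j)) := by
        have h4 : ∀ j, act p M (e σ i) (omap p K M ι (b' j)) =
            omap p K M ι (act p K σ (b' j)) := fun j => Subtype.ext (he1 σ i _)
        simp only [h4, mul_sub, Finset.sum_sub_distrib, ← map_mul]
        rw [← map_sum, ← map_sum, h1, h2 σ hσ, map_zero, map_one]
        ring
      rw [h3]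
      exact P.neg_mem (P.sum_mem fun j _ => P.mul_mem_left _ (hcon _))
  · obtain ⟨⟨σ, i⟩, hx⟩ := hsurj τ
    exact ⟨σ, i, hx.symm⟩

end Pool.Agent.AB
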