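import Pool.Agent.Lib.MP_5de024_nt.Fro
import Pool.Agent.Lib.MP_5de024_nt.Rt

/-!
# The base change `x = x' ^ m`, construction of the field (piece Bc1)
-/

set_option autoImplicit false
set_option linter.unusedSectionVars false

namespace Pool.Agent.AB

variable (p : ℕ) [Fact p.Prime] (K : Type) [Field K] [Algebra (Fx p) K] [Algebra (Rx p) K]
  [IsScalarTower (Rx p) (Fx p) K]

/-- elements of `q * q` are divisible by `x ^ 2` near `q` -/
theorem bc1_sq [FiniteDimensional (Fx p) K] [IsGalois (Fx p) K] (hNI : NI p K)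
    (q : Ideal (Oc p K)) (hq : q.IsPrime) (hx : xo p K ∈ q) (z : Oc p K) (hz : z ∈ q * q) :
    ∃ b c : Oc p K, b ∉ q ∧ z * b = xo p K ^ 2 * c := by
  induction hz using Submodule.mul_induction_on' with
  | mem_mul_mem a ha a' ha' =>
    obtain ⟨b, c, hb, h1⟩ := unif p K hNI q hq hx a ha
    obtain ⟨b', c', hb', h2⟩ := unif p K hNI q hq hx a' ha'
    refine ⟨b * b', c * c', fun h => (hq.mem_or_mem h).elim hb hb', ?_⟩
    calc a * a' * (b * b') = (a * b) * (a' * b') := by ring
      _ = _ := by rw [h1, h2]; ring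
  | add z _ z' _ h h' =>
    obtain ⟨b, c, hb, h1⟩ := h
    obtain ⟨b', c', hb', h2⟩ := h'
    refine ⟨b * b', c * b' + c' * b, fun h => (hq.mem_or_mem h).elim hb hb', ?_⟩
    calc (z + z') * (b * b') = (z * b) * b' + (z' * b') * b := by ring
      _ = _ := by rw [h1, h2]; ring

/-- `x` is not in the square of a place over `x = 0` -/
theorem bc1_notMem [FiniteDimensional (Fx p) K] [IsGalois (Fx p) K] (hNI : NI p K)
    (q : Ideal (Oc p K)) (hq : q.IsPrime) (hx : xo p K ∈ q) : xo p K ∉ q ^ 2 := by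
  intro h
  rw [pow_two] at h
  obtain ⟨b, c, hb, h1⟩ := bc1_sq p K hNI q hq hx _ h
  have hx0 : xo p K ≠ 0 := by
    intro h0
    apply xk_ne_zero p K
    rw [← xo_coe, h0]
    rfl
  apply hb
  have h2 : b = xo p K * c := by
    apply mul_left_cancel₀ hx0
    rw [h1]
    ring
  rw [h2]
  exact q.mul_mem_right _ hx

/-- `X ^ m - x` is irreducible over `K` -/
theorem irr_base [FiniteDimensional (Fx p) K] [IsGalois (Fx p) K] (hNI : NI p K) (m : ℕ)
    (hm0 : 0 < m) :
    Irreducible (Polynomial.X ^ m - Polynomial.C (xk p K) : Polynomial K) := by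
  obtain ⟨q, hqm, hx⟩ := exists_place p K
  have hq : q.IsPrime := hqm.isPrime
  have hmon : (Polynomial.X ^ m - Polynomial.C (xo p K) : Polynomial (Oc p K)).Monic :=
    Polynomial.monic_X_pow_sub_C _ hm0.ne'
  have hdeg : (Polynomial.X ^ m - Polynomial.C (xo p K) : Polynomial (Oc p K)).natDegree = m :=
    Polynomial.natDegree_X_pow_sub_C
  have hE : (Polynomial.X ^ m - Polynomial.C (xo p K) : Polynomial (Oc p K)).IsEisensteinAt q := by
    refine ⟨?_, ?_, ?_⟩
    · rw [hmon.leadingCoeff]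
      exact (Ideal.ne_top_iff_one q).mp hqm.ne_top
    · intro n hn
      rw [hdeg] at hn
      rw [Polynomial.coeff_sub, Polynomial.coeff_X_pow, if_neg hn.ne, zero_sub,
        Polynomial.coeff_C]
      split_ifs
      · exact q.neg_mem hx
      · rw [neg_zero]
        exact q.zero_mem
    · rw [Polynomial.coeff_sub, Polynomial.coeff_X_pow, if_neg hm0.ne, zero_sub,
        Polynomial.coeff_C, if_pos rfl]
      intro h
      exact bc1_notMem p K hNI q hq hx (by simpa using (q ^ 2).neg_mem h)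
  have hirr : Irreducible (Polynomial.X ^ m - Polynomial.C (xo p K) : Polynomial (Oc p K)) :=
    hE.irreducible hq hmon.isPrimitive (by rw [hdeg]; exact hm0)
  have : IsFractionRing (Oc p K) K :=
    integralClosure.isFractionRing_of_finite_extension (A := Rx p) (Fx p) K
  have : IsIntegrallyClosed (Oc p K) :=
    integralClosure.isIntegrallyClosedOfFiniteExtension (R := Rx p) (Fx p) (L := K)
  have h2 := (Polynomial.Monic.irreducible_iff_irreducible_map_fraction_map (K := K) hmon).mp hirr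
  rw [Polynomial.map_sub, Polynomial.map_pow, Polynomial.map_X, Polynomial.map_C] at h2
  have h3 : algebraMap (Oc p K) K (xo p K) = xk p K := xo_coe p K
  rwa [h3] at h2

section abs

variable (m : ℕ) (hm0 : 0 < m) (K' : Type) [Field K'] (ι : K →+* K') (x' : K')

/-- the map `F_p[x] → K'`, `x ↦ x'` -/
noncomputable def bc1phi : Rx p →+* K' := Polynomial.eval₂RingHom (ι.comp (cst p K)) x'

/-- the map `r ↦ r (x ^ m)` -/
noncomputable def bc1theta : Rx p →+* Rx p := Polynomial.eval₂RingHom Polynomial.C (Polynomial.X ^ m)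

theorem bc1_algebraMap (r : Rx p) :
    algebraMap (Rx p) K r = Polynomial.eval₂ (cst p K) (xk p K) r := by
  have h : algebraMap (Rx p) K = Polynomial.eval₂RingHom (cst p K) (xk p K) := by
    refine Polynomial.ringHom_ext (fun a => ?_) ?_
    · rw [Polynomial.coe_eval₂RingHom, Polynomial.eval₂_C]
      rfl
    · rw [Polynomial.coe_eval₂RingHom, Polynomial.eval₂_X, ← xo_coe]
      rfl
  rw [h]
  rfl

theorem bc1_inj (hx : ι (xk p K) = x' ^ m) : Function.Injective (bc1phi p K K' ι x') := by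
  rw [injective_iff_map_eq_zero]
  intro r hr
  by_contra hr0
  let _ : Algebra (ZMod p) K' := (ι.comp (cst p K)).toAlgebra
  have h1 : IsAlgebraic (ZMod p) x' := ⟨r, hr0, hr⟩
  obtain ⟨s, hs0, hs⟩ := h1.pow m
  rw [← hx] at hs
  have h2 : ι (Polynomial.eval₂ (cst p K) (xk p K) s) = 0 := by
    rw [Polynomial.hom_eval₂]
    exact hs
  rw [map_eq_zero, ← bc1_algebraMap] at h2
  apply hs0
  have h3 : Function.Injective (algebraMap (Rx p) K) := by
    rw [IsScalarTower.algebraMap_eq (Rx p) (Fx p) K]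
    exact (algebraMap (Fx p) K).injective.comp (IsFractionRing.injective (Rx p) (Fx p))
  apply h3
  rw [h2, map_zero]

theorem bc1_theta (hx : ι (xk p K) = x' ^ m) (r : Rx p) :
    ι (algebraMap (Rx p) K r) = bc1phi p K K' ι x' (bc1theta p m r) := by
  have h : ι.comp (algebraMap (Rx p) K) = (bc1phi p K K' ι x').comp (bc1theta p m) := by
    refine Polynomial.ringHom_ext (fun a => ?_) ?_
    · simp [bc1phi, bc1theta, cst]
    · simp only [bc1phi, bc1theta, RingHom.comp_apply, Polynomial.coe_eval₂RingHom,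
        Polynomial.eval₂_X, Polynomial.eval₂_pow]
      rw [← hx, ← xo_coe]
      rfl
  exact congrArg (fun g : Rx p →+* K' => g r) h

theorem bc_abs (hx : ι (xk p K) = x' ^ m)
    (hτ : ∀ σ : K ≃+* K, σ (xk p K) = xk p K →
      ∃ τ : K' ≃+* K', (∀ s, τ (ι s) = ι (σ s)) ∧ τ x' = x') :
    ∃ (_ : Algebra (Fx p) K') (_ : Algebra (Rx p) K') (_ : IsScalarTower (Rx p) (Fx p) K'),
      xk p K' = x' ∧
      (∀ r : Fx p, ∃ r' : Fx p, ι (algebraMap (Fx p) K r) = algebraMap (Fx p) K' r') ∧
      (∀ s : K, IsIntegral (Rx p) s → IsIntegral (Rx p) (ι s)) ∧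
      (∀ σ : Gl p K, ∃ τ : Gl p K', ∀ s : K, τ (ι s) = ι (σ s)) := by
  have hinj := bc1_inj p K m K' ι x' hx
  let a1 : Algebra (Fx p) K' := (IsFractionRing.lift hinj : Fx p →+* K').toAlgebra
  let a2 : Algebra (Rx p) K' := (bc1phi p K K' ι x').toAlgebra
  have hlift : ∀ r : Rx p, algebraMap (Fx p) K' (algebraMap (Rx p) (Fx p) r) =
      bc1phi p K K' ι x' r := fun r => IsFractionRing.lift_algebraMap hinj r
  have a3 : IsScalarTower (Rx p) (Fx p) K' :=
    IsScalarTower.of_algebraMap_eq fun r => (hlift r).symm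
  refine ⟨a1, a2, a3, ?_, ?_, ?_, ?_⟩
  · rw [xk, ← RatFunc.algebraMap_X, hlift]
    simp [bc1phi]
  · intro r
    obtain ⟨a, b, hb, rfl⟩ := IsFractionRing.div_surjective (A := Rx p) r
    refine ⟨algebraMap (Rx p) (Fx p) (bc1theta p m a) / algebraMap (Rx p) (Fx p) (bc1theta p m b),
      ?_⟩
    rw [map_div₀, map_div₀, map_div₀, hlift, hlift, ← bc1_theta p K m K' ι x' hx,
      ← bc1_theta p K m K' ι x' hx, IsScalarTower.algebraMap_apply (Rx p) (Fx p) K,
      IsScalarTower.algebraMap_apply (Rx p) (Fx p) K]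
  · rintro s ⟨P, hP, hs⟩
    refine ⟨P.map (bc1theta p m), hP.map _, ?_⟩
    have h1 : (algebraMap (Rx p) K').comp (bc1theta p m) = ι.comp (algebraMap (Rx p) K) := by
      exact RingHom.ext fun r => (bc1_theta p K m K' ι x' hx r).symm
    rw [Polynomial.eval₂_map, h1, ← Polynomial.hom_eval₂, hs, map_zero]
  · intro σ
    obtain ⟨τ, h1, h2⟩ := hτ σ.toRingEquiv (gl_xk p K σ)
    have h3 : (τ : K' →+* K').comp (algebraMap (Fx p) K') = algebraMap (Fx p) K' := by
      refine IsLocalization.ringHom_ext (nonZeroDivisors (Rx p)) ?_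
      refine Polynomial.ringHom_ext (fun a => ?_) ?_
      · simp only [RingHom.comp_apply, hlift]
        have h4 : bc1phi p K K' ι x' (Polynomial.C a) = ι (cst p K a) := by
          simp [bc1phi]
        rw [h4]
        have h5 := h1 (cst p K a)
        have h6 : σ.toRingEquiv (cst p K a) = cst p K a := (σ.restrictScalars (Rx p)).commutes _
        rw [h6] at h5
        exact h5
      · simp only [RingHom.comp_apply, hlift]
        have h4 : bc1phi p K K' ι x' Polynomial.X = x' := by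
          simp [bc1phi]
        rw [h4]
        exact h2
    refine ⟨AlgEquiv.ofRingEquiv (f := τ) fun r => ?_, h1⟩
    exact congrArg (fun g : Fx p →+* K' => g r) h3

end abs

/-- the field `K' = K[X] / (X ^ m - x)` over `F_p(x')`, `x'` the class of `X` -/
theorem bc_field [FiniteDimensional (Fx p) K] (m : ℕ) (hm0 : 0 < m)
    (hirr : Irreducible (Polynomial.X ^ m - Polynomial.C (xk p K) : Polynomial K)) :
    ∃ (K' : Type) (_ : Field K') (_ : Algebra (Fx p) K') (_ : Algebra (Rx p) K')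
      (_ : IsScalarTower (Rx p) (Fx p) K') (ι : K →+* K'),
      ι (xk p K) = xk p K' ^ m ∧
      (∀ r : Fx p, ∃ r' : Fx p, ι (algebraMap (Fx p) K r) = algebraMap (Fx p) K' r') ∧
      (∀ s : K, IsIntegral (Rx p) s → IsIntegral (Rx p) (ι s)) ∧
      (∀ z : K', ∃ c : Fin m → K, z = ∑ i, ι (c i) * xk p K' ^ (i : ℕ)) ∧
      (∀ c : Fin m → K, ∑ i, ι (c i) * xk p K' ^ (i : ℕ) = 0 → ∀ i, c i = 0) ∧
      (∀ σ : Gl p K, ∃ τ : Gl p K', ∀ s : K, τ (ι s) = ι (σ s)) ∧
      (∀ ξ : K, ξ ^ m = 1 → ∃ δ : K' →+* K', (∀ s : K, δ (ι s) = ι s) ∧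
        δ (xk p K') = ι ξ * xk p K') := by
  obtain ⟨f, hf⟩ : ∃ f : Polynomial K, f = Polynomial.X ^ m - Polynomial.C (xk p K) := ⟨_, rfl⟩
  rw [← hf] at hirr
  have : Fact (Irreducible f) := ⟨hirr⟩
  have hmon : f.Monic := by
    rw [hf]
    exact Polynomial.monic_X_pow_sub_C _ hm0.ne'
  have hdeg : f.natDegree = m := by
    rw [hf]
    exact Polynomial.natDegree_X_pow_sub_C
  have hroot : AdjoinRoot.of f (xk p K) = AdjoinRoot.root f ^ m := by
    have h1 := AdjoinRoot.eval₂_root f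
    conv at h1 => lhs; arg 3; rw [hf]
    rw [Polynomial.eval₂_sub, Polynomial.eval₂_pow, Polynomial.eval₂_X, Polynomial.eval₂_C] at h1
    exact (sub_eq_zero.mp h1).symm
  have hmk : ∀ c : Fin m → K, AdjoinRoot.mk f (∑ i, Polynomial.C (c i) * Polynomial.X ^ (i : ℕ)) =
      ∑ i, AdjoinRoot.of f (c i) * AdjoinRoot.root f ^ (i : ℕ) := by
    intro c
    rw [map_sum]
    refine Finset.sum_congr rfl fun i _ => ?_
    rw [map_mul, map_pow, AdjoinRoot.mk_C, AdjoinRoot.mk_X]
  have hspan : ∀ z : AdjoinRoot f, ∃ c : Fin m → K,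
      z = ∑ i, AdjoinRoot.of f (c i) * AdjoinRoot.root f ^ (i : ℕ) := by
    intro z
    obtain ⟨g, rfl⟩ := AdjoinRoot.mk_surjective z
    have h1 : AdjoinRoot.mk f g = AdjoinRoot.mk f (g %ₘ f) := by
      rw [AdjoinRoot.mk_eq_mk]
      exact ⟨g /ₘ f, by
        have h2 := Polynomial.modByMonic_add_div g f
        linear_combination -h2⟩
    have h2 : (g %ₘ f).natDegree < m := by
      rw [← hdeg]
      exact Polynomial.natDegree_modByMonic_lt g hmon (fun h => by
        rw [h, Polynomial.natDegree_one] at hdeg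
        omega)
    refine ⟨fun i => (g %ₘ f).coeff i, ?_⟩
    rw [h1, ← hmk]
    congr 1
    conv_lhs => rw [(g %ₘ f).as_sum_range' m h2]
    rw [← Fin.sum_univ_eq_sum_range (fun i => Polynomial.monomial i ((g %ₘ f).coeff i)) m]
    refine Finset.sum_congr rfl fun i _ => ?_
    rw [Polynomial.C_mul_X_pow_eq_monomial]
  have hind : ∀ c : Fin m → K,
      ∑ i, AdjoinRoot.of f (c i) * AdjoinRoot.root f ^ (i : ℕ) = 0 → ∀ i, c i = 0 := by
    intro c hc
    rw [← hmk, AdjoinRoot.mk_eq_zero] at hc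
    have h1 : (∑ i, Polynomial.C (c i) * Polynomial.X ^ (i : ℕ)).degree < f.degree := by
      rw [Polynomial.degree_eq_natDegree hmon.ne_zero, hdeg]
      refine (Polynomial.degree_sum_le _ _).trans_lt ?_
      rw [Finset.sup_lt_iff (by exact WithBot.bot_lt_coe m)]
      intro i _
      refine (Polynomial.degree_C_mul_X_pow_le _ _).trans_lt ?_
      exact_mod_cast i.2
    have h2 := Polynomial.eq_zero_of_dvd_of_degree_lt hc h1
    intro i
    have h3 := congrArg (fun P => Polynomial.coeff P (i : ℕ)) h2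
    simp only [Polynomial.finsetSum_coeff, Polynomial.coeff_C_mul_X_pow, Polynomial.coeff_zero] at h3
    rw [Finset.sum_eq_single i] at h3
    · simpa using h3
    · intro j _ hj
      rw [if_neg]
      intro h4
      exact hj (Fin.ext h4.symm)
    · intro h4
      exact absurd (Finset.mem_univ i) h4
  have hτ : ∀ σ : K ≃+* K, σ (xk p K) = xk p K → ∃ τ : AdjoinRoot f ≃+* AdjoinRoot f,
      (∀ s, τ (AdjoinRoot.of f s) = AdjoinRoot.of f (σ s)) ∧
        τ (AdjoinRoot.root f) = AdjoinRoot.root f := by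
    intro σ hσ
    have h0 : Polynomial.eval₂ ((AdjoinRoot.of f).comp (σ : K →+* K)) (AdjoinRoot.root f) f = 0 := by
      conv => lhs; arg 3; rw [hf]
      rw [Polynomial.eval₂_sub, Polynomial.eval₂_pow, Polynomial.eval₂_X, Polynomial.eval₂_C,
        RingHom.comp_apply]
      have h1 : (σ : K →+* K) (xk p K) = xk p K := hσ
      rw [h1, hroot, sub_self]
    let t : AdjoinRoot f →+* AdjoinRoot f :=
      AdjoinRoot.lift ((AdjoinRoot.of f).comp (σ : K →+* K)) (AdjoinRoot.root f) h0
    have ht1 : ∀ s, t (AdjoinRoot.of f s) = AdjoinRoot.of f (σ s) := fun s =>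
      AdjoinRoot.lift_of h0
    have ht2 : t (AdjoinRoot.root f) = AdjoinRoot.root f := AdjoinRoot.lift_root h0
    have hbij : Function.Bijective t := by
      refine ⟨t.injective, fun z => ?_⟩
      obtain ⟨c, rfl⟩ := hspan z
      refine ⟨∑ i, AdjoinRoot.of f (σ.symm (c i)) * AdjoinRoot.root f ^ (i : ℕ), ?_⟩
      rw [map_sum]
      refine Finset.sum_congr rfl fun i _ => ?_
      rw [map_mul, map_pow, ht1, ht2, RingEquiv.apply_symm_apply]
    exact ⟨RingEquiv.ofBijective t hbij, ht1, ht2⟩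
  obtain ⟨a1, a2, a3, h1, h2, h3, h4⟩ := bc_abs p K m (AdjoinRoot f) (AdjoinRoot.of f)
    (AdjoinRoot.root f) hroot hτ
  refine ⟨AdjoinRoot f, inferInstance, a1, a2, a3, AdjoinRoot.of f, ?_, h2, h3, ?_, ?_, h4, ?_⟩
  · rw [h1]
    exact hroot
  · rw [h1]
    exact hspan
  · rw [h1]
    exact hind
  · intro ξ hξ
    have h0 : Polynomial.eval₂ (AdjoinRoot.of f) (AdjoinRoot.of f ξ * AdjoinRoot.root f) f = 0 := by
      conv => lhs; arg 3; rw [hf]
      rw [Polynomial.eval₂_sub, Polynomial.eval₂_pow, Polynomial.eval₂_X, Polynomial.eval₂_C,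
        mul_pow, ← map_pow, hξ, map_one, one_mul, hroot, sub_self]
    refine ⟨AdjoinRoot.lift (AdjoinRoot.of f) _ h0, fun s => AdjoinRoot.lift_of h0, ?_⟩
    rw [h1]
    exact AdjoinRoot.lift_root h0

end Pool.Agent.AB
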