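import Pool.Agent.Lib.MP_5de024_nt.Defs

/-!
# Separability data from the absence of inertia (piece Gs)
-/

set_option autoImplicit false
set_option linter.unusedSectionVars false

namespace Pool.Agent.AB

variable (p : ℕ) [Fact p.Prime] (K : Type) [Field K] [Algebra (Fx p) K] [Algebra (Rx p) K]
  [IsScalarTower (Rx p) (Fx p) K]

/-- the ring homomorphism `b ↦ (t ↦ t b)` -/
noncomputable def GsPhi : Oc p K →+* (Gl p K → Oc p K) :=
  RingHom.pi fun t => ((act p K t : Oc p K ≃ₐ[Rx p] Oc p K) : Oc p K →+* Oc p K)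

theorem GsPhi_apply (b : Oc p K) (t : Gl p K) : GsPhi p K b t = act p K t b := rfl

/-- the functions of the form `t ↦ ∑ i, a i * t (b i)` -/
noncomputable def GsT : Subalgebra (Oc p K) (Gl p K → Oc p K) :=
  Algebra.adjoin (Oc p K) (MonoidHom.mrange (GsPhi p K : Oc p K →* (Gl p K → Oc p K)) :
    Set (Gl p K → Oc p K))

theorem GsPhi_mem (b : Oc p K) : GsPhi p K b ∈ GsT p K :=
  Algebra.subset_adjoin ⟨b, rfl⟩

theorem GsT_sum {f : Gl p K → Oc p K} (hf : f ∈ GsT p K) :
    ∃ (n : ℕ) (a b : Fin n → Oc p K), ∀ t, f t = ∑ i, a i * act p K t (b i) := by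
  have h1 : f ∈ Subalgebra.toSubmodule (GsT p K) := hf
  rw [GsT, Algebra.adjoin_eq_span, Submonoid.closure_eq, Submodule.mem_span_set'] at h1
  obtain ⟨n, a, g, hg⟩ := h1
  have h2 : ∀ i, ∃ b, GsPhi p K b = (g i : Gl p K → Oc p K) := fun i => (g i).2
  choose b hb using h2
  refine ⟨n, a, b, fun t => ?_⟩
  rw [← hg, Finset.sum_apply]
  refine Finset.sum_congr rfl fun i _ => ?_
  rw [Pi.smul_apply, smul_eq_mul, ← hb i, GsPhi_apply]

/-- a function with value `1` at `1` and `0` at `s` -/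
theorem Gs_sep (h : NI p K) (s : Gl p K) (hs : s ≠ 1) :
    ∃ f ∈ GsT p K, f 1 = 1 ∧ f s = 0 := by
  have htop : Ideal.span (Set.range fun c : Oc p K => act p K s c - c) = ⊤ := by
    by_contra hne
    obtain ⟨P, hP, hle⟩ := Ideal.exists_le_maximal _ hne
    obtain ⟨c, hc⟩ := h s hs P hP
    exact hc (hle (Ideal.subset_span ⟨c, rfl⟩))
  have h1 : (1 : Oc p K) ∈ Ideal.span (Set.range fun c : Oc p K => act p K s c - c) := by
    rw [htop]
    exact Submodule.mem_top
  rw [Ideal.span, Submodule.mem_span_set'] at h1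
  obtain ⟨n, a, g, hg⟩ := h1
  have h2 : ∀ i, ∃ c, act p K s c - c = (g i : Oc p K) := fun i => (g i).2
  choose c hc using h2
  refine ⟨∑ i, ((a i * act p K s (c i)) • (1 : Gl p K → Oc p K) - a i • GsPhi p K (c i)),
    ?_, ?_, ?_⟩
  · refine Subalgebra.sum_mem _ fun i _ => Subalgebra.sub_mem _ ?_ ?_
    · exact Subalgebra.smul_mem _ (Subalgebra.one_mem _) _
    · exact Subalgebra.smul_mem _ (GsPhi_mem p K _) _
  · rw [Finset.sum_apply, ← hg]
    refine Finset.sum_congr rfl fun i _ => ?_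
    rw [Pi.sub_apply, Pi.smul_apply, Pi.smul_apply, Pi.one_apply, GsPhi_apply, smul_eq_mul,
      smul_eq_mul, smul_eq_mul, act_one, ← hc i]
    ring
  · rw [Finset.sum_apply]
    refine Finset.sum_eq_zero fun i _ => ?_
    rw [Pi.sub_apply, Pi.smul_apply, Pi.smul_apply, Pi.one_apply, GsPhi_apply, smul_eq_mul,
      smul_eq_mul]
    ring

/-- the sum form of the absence of inertia -/
theorem gs_of_ni [FiniteDimensional (Fx p) K] (h : NI p K) :
    ∃ (n : ℕ) (a b : Fin n → Oc p K), (∑ i, a i * b i = 1) ∧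
      ∀ σ : Gl p K, σ ≠ 1 → ∑ i, a i * act p K σ (b i) = 0 := by
  classical
  have key : ∀ s : Gl p K, ∃ f ∈ GsT p K, f 1 = 1 ∧ (s ≠ 1 → f s = 0) := by
    intro s
    by_cases hs : s = 1
    · exact ⟨1, Subalgebra.one_mem _, rfl, fun h1 => absurd hs h1⟩
    · obtain ⟨f, hf, h1, h2⟩ := Gs_sep p K h s hs
      exact ⟨f, hf, h1, fun _ => h2⟩
  choose f hf h1 h2 using key
  obtain ⟨n, a, b, hab⟩ := GsT_sum p K (f := ∏ s : Gl p K, f s)
    (Subalgebra.prod_mem _ fun s _ => hf s)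
  refine ⟨n, a, b, ?_, fun σ hσ => ?_⟩
  · have h3 := hab 1
    rw [Finset.prod_apply, Finset.prod_congr rfl fun s _ => h1 s, Finset.prod_const_one] at h3
    rw [h3]
    exact Finset.sum_congr rfl fun i _ => by rw [act_one]
  · rw [← hab σ, Finset.prod_apply]
    exact Finset.prod_eq_zero (Finset.mem_univ σ) (h2 σ hσ)

/-- elements of the ring of integers fixed by the group come from `F_p[x]` -/
theorem fixed_oc [FiniteDimensional (Fx p) K] [IsGalois (Fx p) K] (s : Oc p K)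
    (hs : ∀ σ : Gl p K, act p K σ s = s) : ∃ r : Rx p, s = algebraMap (Rx p) (Oc p K) r := by
  have h1 : ∀ σ : Gl p K, σ (s : K) = (s : K) := fun σ => by
    rw [← act_coe, hs σ]
  have h2 : (s : K) ∈ Set.range (algebraMap (Fx p) K) :=
    (IsGalois.mem_range_algebraMap_iff_fixed (F := Fx p) (E := K) (s : K)).2 h1
  obtain ⟨f, hf⟩ := h2
  have h3 : IsIntegral (Rx p) (s : K) := s.2
  rw [← hf] at h3
  have h4 : IsIntegral (Rx p) f :=
    (isIntegral_algebraMap_iff (algebraMap (Fx p) K).injective).1 h3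
  obtain ⟨r, hr⟩ := IsIntegrallyClosed.isIntegral_iff.1 h4
  refine ⟨r, Subtype.ext ?_⟩
  rw [← hf, ← hr]
  exact (IsScalarTower.algebraMap_apply (Rx p) (Fx p) K r).symm

/-- the trace -/
noncomputable def GsTr [FiniteDimensional (Fx p) K] (z : Oc p K) : Oc p K :=
  ∑ σ : Gl p K, act p K σ z

theorem GsTr_fixed [FiniteDimensional (Fx p) K] (z : Oc p K) (τ : Gl p K) :
    act p K τ (GsTr p K z) = GsTr p K z := by
  rw [GsTr, map_sum]
  refine Fintype.sum_equiv (Equiv.mulLeft τ) _ _ fun σ => ?_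
  rw [Equiv.coe_mulLeft, act_mul]

theorem GsTr_mem [FiniteDimensional (Fx p) K] [IsGalois (Fx p) K] (z : Oc p K) :
    ∃ r : Rx p, GsTr p K z = algebraMap (Rx p) (Oc p K) r :=
  fixed_oc p K _ (GsTr_fixed p K z)

/-- the dual basis formula -/
theorem Gs_dual [FiniteDimensional (Fx p) K] {n : ℕ} {a b : Fin n → Oc p K}
    (h1 : ∑ i, a i * b i = 1)
    (h2 : ∀ σ : Gl p K, σ ≠ 1 → ∑ i, a i * act p K σ (b i) = 0) (z : Oc p K) :
    z = ∑ i, a i * GsTr p K (b i * z) := by
  have e1 : ∑ i, a i * GsTr p K (b i * z) =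
      ∑ σ : Gl p K, (∑ i, a i * act p K σ (b i)) * act p K σ z := by
    simp only [GsTr, Finset.mul_sum, Finset.sum_mul]
    rw [Finset.sum_comm]
    refine Finset.sum_congr rfl fun σ _ => Finset.sum_congr rfl fun i _ => ?_
    rw [map_mul, mul_assoc]
  rw [e1, Finset.sum_eq_single 1]
  · simp only [act_one]
    rw [h1, one_mul]
  · intro σ _ hσ
    rw [h2 σ hσ, zero_mul]
  · intro h3
    exact absurd (Finset.mem_univ _) h3

theorem Gs_inj : Function.Injective (algebraMap (Rx p) (Oc p K)) := by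
  intro r s hrs
  have h1 : algebraMap (Rx p) K r = algebraMap (Rx p) K s :=
    congrArg (fun z : Oc p K => (z : K)) hrs
  rw [IsScalarTower.algebraMap_apply (Rx p) (Fx p) K,
    IsScalarTower.algebraMap_apply (Rx p) (Fx p) K] at h1
  exact IsFractionRing.injective (Rx p) (Fx p) ((algebraMap (Fx p) K).injective h1)

/-- an integer of trace one -/
theorem trace_one [FiniteDimensional (Fx p) K] [IsGalois (Fx p) K] (h : NI p K) :
    ∃ θ : Oc p K, ∑ σ : Gl p K, act p K σ θ = 1 := by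
  obtain ⟨n, a, b, h1, h2⟩ := gs_of_ni p K h
  let J : Ideal (Rx p) :=
    { carrier := {r | ∃ z : Oc p K, GsTr p K z = algebraMap (Rx p) (Oc p K) r}
      add_mem' := by
        rintro r s ⟨z, hz⟩ ⟨w, hw⟩
        refine ⟨z + w, ?_⟩
        rw [map_add, ← hz, ← hw, GsTr, GsTr, GsTr, ← Finset.sum_add_distrib]
        exact Finset.sum_congr rfl fun σ _ => map_add _ _ _
      zero_mem' := by
        refine ⟨0, ?_⟩
        rw [map_zero, GsTr]
        exact Finset.sum_eq_zero fun σ _ => map_zero _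
      smul_mem' := by
        rintro c r ⟨z, hz⟩
        refine ⟨algebraMap (Rx p) (Oc p K) c * z, ?_⟩
        rw [smul_eq_mul, map_mul, ← hz, GsTr, GsTr, Finset.mul_sum]
        refine Finset.sum_congr rfl fun σ _ => ?_
        rw [map_mul, AlgEquiv.commutes] }
  obtain ⟨d, hd⟩ : ∃ d, J = Ideal.span {d} :=
    ⟨_, (Ideal.span_singleton_generator J).symm⟩
  have hmem : ∀ i, ∃ q : Rx p, GsTr p K (b i * 1) =
      algebraMap (Rx p) (Oc p K) d * algebraMap (Rx p) (Oc p K) q := by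
    intro i
    obtain ⟨r, hr⟩ := GsTr_mem p K (b i * 1)
    have h3 : r ∈ J := ⟨_, hr⟩
    rw [hd, Ideal.mem_span_singleton] at h3
    obtain ⟨q, hq⟩ := h3
    exact ⟨q, by rw [hr, hq, map_mul]⟩
  choose q hq using hmem
  obtain ⟨u, hu⟩ : ∃ u, algebraMap (Rx p) (Oc p K) d * u = 1 := by
    refine ⟨∑ i, a i * algebraMap (Rx p) (Oc p K) (q i), ?_⟩
    rw [Gs_dual p K h1 h2 1, Finset.mul_sum]
    refine Finset.sum_congr rfl fun i _ => ?_
    rw [hq i]
    ring
  have hufix : ∀ σ : Gl p K, act p K σ u = u := by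
    intro σ
    have h3 : algebraMap (Rx p) (Oc p K) d * act p K σ u = 1 := by
      rw [← (act p K σ).commutes d, ← map_mul, hu, map_one]
    calc act p K σ u = act p K σ u * (algebraMap (Rx p) (Oc p K) d * u) := by rw [hu, mul_one]
      _ = (algebraMap (Rx p) (Oc p K) d * act p K σ u) * u := by ring
      _ = u := by rw [h3, one_mul]
  obtain ⟨r, hr⟩ := fixed_oc p K u hufix
  have h4 : d * r = 1 := by
    apply Gs_inj p K
    rw [map_mul, ← hr, hu, map_one]
  have h5 : (1 : Rx p) ∈ J := by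
    rw [hd, Ideal.mem_span_singleton]
    exact ⟨r, h4.symm⟩
  obtain ⟨θ, hθ⟩ := h5
  exact ⟨θ, by rw [map_one] at hθ; exact hθ⟩

/-- `x` is a uniformiser at every prime over `x = 0` -/
theorem unif [FiniteDimensional (Fx p) K] [IsGalois (Fx p) K] (h : NI p K)
    (P : Ideal (Oc p K)) (hP : P.IsPrime) (hx : xo p K ∈ P) (a : Oc p K) (ha : a ∈ P) :
    ∃ b c : Oc p K, b ∉ P ∧ a * b = xo p K * c := by
  classical
  -- the trace of `P` on `F_p[x]`
  have hX : (Ideal.span {(Polynomial.X : Rx p)}).IsMaximal :=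
    PrincipalIdealRing.isMaximal_of_irreducible Polynomial.irreducible_X
  have hcomap : P.comap (algebraMap (Rx p) (Oc p K)) = Ideal.span {(Polynomial.X : Rx p)} := by
    have h1 : Ideal.span {(Polynomial.X : Rx p)} ≤ P.comap (algebraMap (Rx p) (Oc p K)) := by
      rw [Ideal.span_singleton_le_iff_mem, Ideal.mem_comap]
      exact hx
    exact (hX.eq_of_le (Ideal.IsPrime.ne_top (Ideal.comap_isPrime _ P)) h1).symm
  have hint : Algebra.IsIntegral (Rx p) (Oc p K) := inferInstance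
  have hPmax : ∀ Q : Ideal (Oc p K), Q.IsPrime → xo p K ∈ Q → Q.IsMaximal := by
    intro Q hQ hxQ
    have h1 : Q.comap (algebraMap (Rx p) (Oc p K)) = Ideal.span {(Polynomial.X : Rx p)} := by
      have h1 : Ideal.span {(Polynomial.X : Rx p)} ≤ Q.comap (algebraMap (Rx p) (Oc p K)) := by
        rw [Ideal.span_singleton_le_iff_mem, Ideal.mem_comap]
        exact hxQ
      exact (hX.eq_of_le (Ideal.IsPrime.ne_top (Ideal.comap_isPrime _ Q)) h1).symm
    exact Ideal.isMaximal_of_isIntegral_of_isMaximal_comap Q (by rw [h1]; exact hX)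
  -- the conjugates of `P`
  obtain ⟨Pc, hPc⟩ : ∃ Pc : Gl p K → Ideal (Oc p K), ∀ t, Pc t =
      P.comap ((act p K t : Oc p K ≃ₐ[Rx p] Oc p K) : Oc p K →+* Oc p K) := ⟨_, fun t => rfl⟩
  have hPcm : ∀ t z, z ∈ Pc t ↔ act p K t z ∈ P := by
    intro t z
    rw [hPc, Ideal.mem_comap]
    rfl
  have hPcp : ∀ t, (Pc t).IsPrime := by
    intro t
    rw [hPc]
    exact Ideal.comap_isPrime _ P
  have hPcM : ∀ t, (Pc t).IsMaximal := by
    intro t
    refine hPmax _ (hPcp t) ?_
    rw [hPcm, act_xo]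
    exact hx
  obtain ⟨b, hb1, hb2⟩ : ∃ b, b ∉ P ∧ ∀ t, Pc t ≠ P → b ∈ Pc t := by
    by_contra hcon
    push Not at hcon
    have h1 : (Finset.univ.filter fun t => Pc t ≠ P).inf Pc ≤ P := by
      intro z hz
      by_contra hzP
      obtain ⟨t, ht, hzt⟩ := hcon z hzP
      apply hzt
      have h2 := Finset.inf_le (f := Pc) (s := Finset.univ.filter fun t => Pc t ≠ P)
        (Finset.mem_filter.2 ⟨Finset.mem_univ t, ht⟩)
      exact h2 hz
    obtain ⟨t, ht, hle⟩ := (Ideal.IsPrime.inf_le' hP).1 h1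
    exact (Finset.mem_filter.1 ht).2 ((hPcM t).eq_of_le hP.ne_top hle)
  have hab : ∀ (t : Gl p K) (z : Oc p K), act p K t (z * (a * b)) ∈ P := by
    intro t z
    rw [← hPcm]
    refine Ideal.mul_mem_left _ _ ?_
    by_cases ht : Pc t = P
    · rw [ht]
      exact Ideal.mul_mem_right _ _ ha
    · exact Ideal.mul_mem_left _ _ (hb2 t ht)
  obtain ⟨n, α, β, h1, h2⟩ := gs_of_ni p K h
  have hq : ∀ i, ∃ q : Rx p, GsTr p K (β i * (a * b)) =
      xo p K * algebraMap (Rx p) (Oc p K) q := by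
    intro i
    obtain ⟨r, hr⟩ := GsTr_mem p K (β i * (a * b))
    have h3 : GsTr p K (β i * (a * b)) ∈ P := by
      rw [GsTr]
      exact Ideal.sum_mem _ fun σ _ => hab σ _
    rw [hr] at h3
    have h4 : r ∈ Ideal.span {(Polynomial.X : Rx p)} := by
      rw [← hcomap]
      exact h3
    rw [Ideal.mem_span_singleton] at h4
    obtain ⟨q, hq⟩ := h4
    exact ⟨q, by rw [hr, hq, map_mul]; rfl⟩
  choose q hq using hq
  refine ⟨b, ∑ i, α i * algebraMap (Rx p) (Oc p K) (q i), hb1, ?_⟩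
  rw [Gs_dual p K h1 h2 (a * b), Finset.mul_sum]
  refine Finset.sum_congr rfl fun i _ => ?_
  rw [hq i]
  ring

end Pool.Agent.AB
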