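import Pool.Agent.Lib.MP_5de024_nt.Bc1
import Pool.Agent.Lib.MP_5de024_nt.Gs

/-!
# The base change `x = x' ^ m`, Galois group, inertia and Kummer descent (piece Bc2)
-/

set_option autoImplicit false
set_option linter.unusedSectionVars false

namespace Pool.Agent.AB

section aux

variable {p : ℕ} [Fact p.Prime] {K : Type} [Field K] [Algebra (Fx p) K]
  {K' : Type} [Field K'] [Algebra (Fx p) K']

theorem bc_span {m : ℕ} (ι : K →+* K')
    (h2 : ∀ r : Fx p, ∃ r' : Fx p, ι (algebraMap (Fx p) K r) = algebraMap (Fx p) K' r')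
    (h4 : ∀ z : K', ∃ c : Fin m → K, z = ∑ i, ι (c i) * xk p K' ^ (i : ℕ))
    {n : ℕ} (b : Module.Basis (Fin n) (Fx p) K) :
    Submodule.span (Fx p) (Set.range fun j => ι (b j)) = ⊤ := by
  rw [eq_top_iff]
  intro z _
  have hK : ∀ s : K, ι s ∈ Submodule.span (Fx p) (Set.range fun j => ι (b j)) := by
    intro s
    rw [← b.sum_repr s, map_sum]
    refine Submodule.sum_mem _ fun j _ => ?_
    obtain ⟨r', hr'⟩ := h2 (b.repr s j)
    rw [Algebra.smul_def, map_mul, hr', ← Algebra.smul_def]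
    exact Submodule.smul_mem _ _ (Submodule.subset_span ⟨j, rfl⟩)
  obtain ⟨c, rfl⟩ := h4 z
  refine Submodule.sum_mem _ fun i _ => ?_
  have e : ι (c i) * xk p K' ^ (i : ℕ) = (RatFunc.X ^ (i : ℕ) : Fx p) • ι (c i) := by
    rw [Algebra.smul_def, map_pow, mul_comm]
    rfl
  rw [e]
  exact Submodule.smul_mem _ _ (hK _)

theorem bc_ext {m : ℕ} (ι : K →+* K')
    (h4 : ∀ z : K', ∃ c : Fin m → K, z = ∑ i, ι (c i) * xk p K' ^ (i : ℕ))
    (τ τ' : Gl p K') (h : ∀ s : K, τ (ι s) = τ' (ι s)) : τ = τ' := by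
  apply AlgEquiv.ext
  intro z
  obtain ⟨c, rfl⟩ := h4 z
  rw [map_sum, map_sum]
  refine Finset.sum_congr rfl fun i _ => ?_
  rw [map_mul, map_mul, map_pow, map_pow, gl_xk, gl_xk, h]

theorem bc_kummer {m : ℕ} (hm0 : 0 < m) (ζ : K) (hζ : IsPrimitiveRoot ζ m) (ι : K →+* K')
    (h1 : ι (xk p K) = xk p K' ^ m)
    (h4 : ∀ z : K', ∃ c : Fin m → K, z = ∑ i, ι (c i) * xk p K' ^ (i : ℕ))
    (h5 : ∀ c : Fin m → K, ∑ i, ι (c i) * xk p K' ^ (i : ℕ) = 0 → ∀ i, c i = 0)
    (h7 : ∀ ξ : K, ξ ^ m = 1 → ∃ δ : K' →+* K', (∀ s : K, δ (ι s) = ι s) ∧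
        δ (xk p K') = ι ξ * xk p K')
    (u : K) (z : K') (hz : ι u = z ^ m) : ∃ (j : ℤ) (w : K), u = xk p K ^ j * w ^ m := by
  by_cases hz0 : z = 0
  · refine ⟨0, 0, ?_⟩
    rw [hz0, zero_pow hm0.ne'] at hz
    have hu : u = 0 := by
      apply ι.injective
      rw [hz, map_zero]
    rw [hu, zero_pow hm0.ne', mul_zero]
  · obtain ⟨δ, hδ1, hδ2⟩ := h7 ζ hζ.pow_eq_one
    have hx : xk p K' ≠ 0 := xk_ne_zero p K'
    have hζ' : IsPrimitiveRoot (ι ζ) m := hζ.map_of_injective ι.injective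
    have hδz : δ z ≠ 0 := by
      rw [Ne, map_eq_zero]
      exact hz0
    haveI : NeZero m := ⟨hm0.ne'⟩
    obtain ⟨j, -, hj⟩ := hζ'.eq_pow_of_pow_eq_one (ξ := δ z / z) (by
      rw [div_pow, ← map_pow, ← hz, hδ1, hz, div_self (pow_ne_zero _ hz0)])
    have hδj : δ z = ι ζ ^ j * z := by
      rw [hj, div_mul_cancel₀ _ hz0]
    obtain ⟨y, hy⟩ : ∃ y, y = z / xk p K' ^ j := ⟨_, rfl⟩
    have hζ0 : ι ζ ≠ 0 := by
      rw [Ne, map_eq_zero]
      exact hζ.ne_zero hm0.ne'
    have hδy : δ y = y := by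
      rw [hy, map_div₀, map_pow, hδ2, hδj, mul_pow]
      exact mul_div_mul_left _ _ (pow_ne_zero _ hζ0)
    obtain ⟨c, hc⟩ := h4 y
    have hc2 : ∑ i, ι (c i * (ζ ^ (i : ℕ) - 1)) * xk p K' ^ (i : ℕ) = 0 := by
      have e1 : δ y = ∑ i, ι (c i) * (ι ζ * xk p K') ^ (i : ℕ) := by
        rw [hc, map_sum]
        refine Finset.sum_congr rfl fun i _ => ?_
        rw [map_mul, map_pow, hδ1, hδ2]
      have e2 : ∑ i, ι (c i * (ζ ^ (i : ℕ) - 1)) * xk p K' ^ (i : ℕ) = δ y - y := by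
        rw [e1, hc, ← Finset.sum_sub_distrib]
        refine Finset.sum_congr rfl fun i _ => ?_
        rw [map_mul, map_sub, map_pow, map_one, mul_pow]
        ring
      rw [e2, hδy, sub_self]
    have hc3 : ∀ i : Fin m, (i : ℕ) ≠ 0 → c i = 0 := by
      intro i hi
      have h8 := h5 _ hc2 i
      rcases mul_eq_zero.mp h8 with h9 | h9
      · exact h9
      · exfalso
        exact hζ.pow_ne_one_of_pos_of_lt hi i.2 (sub_eq_zero.mp h9)
    have hy2 : y = ι (c ⟨0, hm0⟩) := by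
      rw [hc, Finset.sum_eq_single (⟨0, hm0⟩ : Fin m)]
      · rw [pow_zero, mul_one]
      · intro i _ hi
        rw [hc3 i (fun h => hi (Fin.ext h)), map_zero, zero_mul]
      · intro h
        exact absurd (Finset.mem_univ _) h
    refine ⟨j, c ⟨0, hm0⟩, ?_⟩
    apply ι.injective
    rw [hz, zpow_natCast, map_mul, map_pow, map_pow, h1, ← hy2, hy, div_pow, ← pow_mul, ← pow_mul,
      mul_comm m j, mul_div_cancel₀]
    exact pow_ne_zero _ hx

end aux

variable (p : ℕ) [Fact p.Prime] (K : Type) [Field K] [Algebra (Fx p) K] [Algebra (Rx p) K]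
  [IsScalarTower (Rx p) (Fx p) K]

/-- the base change of a Galois extension without inertia along `x = x' ^ m` -/
theorem bc_all [FiniteDimensional (Fx p) K] [IsGalois (Fx p) K] (hNI : NI p K) (m : ℕ)
    (hm0 : 0 < m) (ζ : K) (hζ : IsPrimitiveRoot ζ m) :
    ∃ (K' : Type) (_ : Field K') (_ : Algebra (Fx p) K') (_ : Algebra (Rx p) K')
      (_ : IsScalarTower (Rx p) (Fx p) K') (ι : K →+* K') (β : Gl p K ≃* Gl p K'),
      FiniteDimensional (Fx p) K' ∧ IsGalois (Fx p) K' ∧ NI p K' ∧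
      ι (xk p K) = xk p K' ^ m ∧
      (∀ s : K, IsIntegral (Rx p) s → IsIntegral (Rx p) (ι s)) ∧
      (∀ (σ : Gl p K) (s : K), β σ (ι s) = ι (σ s)) ∧
      (∀ (u : K) (z : K'), ι u = z ^ m → ∃ (j : ℤ) (w : K), u = xk p K ^ j * w ^ m) := by
  obtain ⟨K', _, _, _, _, ι, h1, h2, h3, h4, h5, h6, h7⟩ :=
    bc_field p K m hm0 (irr_base p K hNI m hm0)
  have hspan := bc_span ι h2 h4 (Module.finBasis (Fx p) K)
  have hfd : FiniteDimensional (Fx p) K' :=
    ⟨⟨(Set.finite_range fun j => ι ((Module.finBasis (Fx p) K) j)).toFinset, by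
      rw [Set.Finite.coe_toFinset]
      exact hspan⟩⟩
  have hle : Module.finrank (Fx p) K' ≤ Module.finrank (Fx p) K := by
    have h8 := finrank_range_le_card (R := Fx p)
      (fun j => ι ((Module.finBasis (Fx p) K) j))
    rw [Set.finrank, hspan, finrank_top, Fintype.card_fin] at h8
    exact h8
  choose τ hτ using h6
  let β0 : Gl p K →* Gl p K' :=
    { toFun := τ
      map_one' := bc_ext ι h4 _ _ fun s => by
        rw [hτ]
        rfl
      map_mul' := fun a b => bc_ext ι h4 _ _ fun s => by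
        rw [hτ]
        change ι (a (b s)) = τ a (τ b (ι s))
        rw [hτ, hτ] }
  have hβ0 : Function.Injective β0 := by
    intro a b hab
    apply AlgEquiv.ext
    intro s
    apply ι.injective
    rw [← hτ, ← hτ]
    exact congrArg (fun t : Gl p K' => t (ι s)) hab
  have hc1 : Nat.card (Gl p K) = Module.finrank (Fx p) K := IsGalois.card_aut_eq_finrank (Fx p) K
  have hc2 : Nat.card (Gl p K') ≤ Module.finrank (Fx p) K' := by
    have h8 := AlgEquiv.card_le (F := Fx p) (K := K')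
    simpa [Nat.card_eq_fintype_card] using h8
  have hfin : Finite (Gl p K') := inferInstance
  have hc3 : Nat.card (Gl p K) ≤ Nat.card (Gl p K') := Nat.card_le_card_of_injective _ hβ0
  have hbij : Function.Bijective β0 :=
    (Nat.bijective_iff_injective_and_card _).2 ⟨hβ0, by omega⟩
  have hc4 : Nat.card (Gl p K') = Module.finrank (Fx p) K' := by omega
  have hgal : IsGalois (Fx p) K' := IsGalois.of_card_aut_eq_finrank (Fx p) K' hc4
  refine ⟨K', inferInstance, inferInstance, inferInstance, inferInstance, ι,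
    MulEquiv.ofBijective β0 hbij, hfd, hgal, ?_, h1, h3, hτ,
    fun u z => bc_kummer hm0 ζ hζ ι h1 h4 h5 h7 u z⟩
  -- inertia
  obtain ⟨n, a, b, hab, hab0⟩ := gs_of_ni p K hNI
  intro σ' hσ' P hP
  obtain ⟨σ, rfl⟩ := hbij.2 σ'
  have hσ : σ ≠ 1 := fun h => hσ' (by rw [h, map_one])
  by_contra hcon
  push Not at hcon
  let A : Fin n → Oc p K' := fun i => ⟨ι (a i : K), h3 _ (a i).2⟩
  let B : Fin n → Oc p K' := fun i => ⟨ι (b i : K), h3 _ (b i).2⟩
  have hsum : ∑ i, A i * (B i - act p K' (β0 σ) (B i)) = 1 := by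
    apply Subtype.ext
    have e1 : ∑ i, (a i : K) * ((b i : K) - σ (b i : K)) = 1 := by
      have f1 : ∑ i, (a i : K) * (b i : K) = 1 := by
        have := congrArg (fun s : Oc p K => (s : K)) hab
        simpa using this
      have f2 : ∑ i, (a i : K) * σ (b i : K) = 0 := by
        have := congrArg (fun s : Oc p K => (s : K)) (hab0 σ hσ)
        simpa using this
      simp only [mul_sub, Finset.sum_sub_distrib]
      rw [f1, f2, sub_zero]
    have e2 := congrArg ι e1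
    rw [map_sum, map_one] at e2
    have e3 : ((∑ i, A i * (B i - act p K' (β0 σ) (B i)) : Oc p K') : K') =
        ∑ i, ι (a i : K) * (ι (b i : K) - τ σ (ι (b i : K))) := by
      rw [AddSubmonoidClass.coe_finsetSum]
      rfl
    rw [e3]
    change _ = (1 : K')
    rw [← e2]
    refine Finset.sum_congr rfl fun i _ => ?_
    rw [hτ, map_mul, map_sub]
  apply hP.ne_top
  rw [Ideal.eq_top_iff_one, ← hsum]
  refine Ideal.sum_mem _ fun i _ => Ideal.mul_mem_left _ _ ?_
  rw [← neg_sub]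
  exact P.neg_mem (hcon (B i))

end Pool.Agent.AB
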