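import Pool.Agent.Lib.MP_5de024_nt.Fro

/-!
# Valuations over `x = 0` (piece Val)
-/

set_option autoImplicit false
set_option linter.unusedSectionVars false

namespace Pool.Agent.AB

variable (p : ℕ) [Fact p.Prime] (K : Type) [Field K] [Algebra (Fx p) K] [Algebra (Rx p) K]
  [IsScalarTower (Rx p) (Fx p) K]

/-- `k` is the valuation of `u` at the prime `P` over `x = 0` -/
def IsVl (P : Ideal (Oc p K)) (u : K) (k : ℤ) : Prop :=
  ∃ a b : Oc p K, a ∉ P ∧ b ∉ P ∧ u * (b : K) = xk p K ^ k * (a : K)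

/-- elements of the ring of integers outside `P` are nonzero in `K` -/
theorem coe_ne_zero_of_notMem (P : Ideal (Oc p K)) (a : Oc p K) (ha : a ∉ P) :
    (a : K) ≠ 0 := by
  intro h
  apply ha
  have h2 : a = 0 := Subtype.ext h
  rw [h2]
  exact P.zero_mem

/-- the ring of integers is a Dedekind domain -/
theorem oc_dedekind [FiniteDimensional (Fx p) K] [IsGalois (Fx p) K] :
    IsDedekindDomain (Oc p K) :=
  integralClosure.isDedekindDomain (Rx p) (Fx p) K

/-- the valuation of a nonzero integer exists -/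
theorem exists_vl_nat [FiniteDimensional (Fx p) K] [IsGalois (Fx p) K] (hNI : NI p K)
    (P : Ideal (Oc p K)) (hP : P.IsPrime) (hx : xo p K ∈ P) (a : Oc p K) (ha : a ≠ 0) :
    ∃ (k : ℕ) (b c : Oc p K), b ∉ P ∧ c ∉ P ∧ a * b = xo p K ^ k * c := by
  classical
  haveI := oc_dedekind p K
  haveI := hP
  have h1 : ∃ n : ℕ, a ∉ P ^ n := by
    by_contra hcon
    push Not at hcon
    have h2 : a ∈ (⨅ i : ℕ, P ^ i : Ideal (Oc p K)) := by
      rw [Ideal.mem_iInf]
      exact hcon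
    rw [Ideal.iInf_pow_eq_bot_of_isDomain P hP.ne_top] at h2
    exact ha h2
  obtain ⟨n, hn⟩ := h1
  have hbd : ∀ (k : ℕ) (b c : Oc p K), b ∉ P → a * b = xo p K ^ k * c → k < n := by
    intro k b c hb hab
    by_contra hk
    push Not at hk
    have h3 : a * b ∈ P ^ n := by
      rw [hab]
      exact Ideal.mul_mem_right _ _ (Ideal.pow_le_pow_right hk (Ideal.pow_mem_pow hx k))
    rcases Ideal.IsPrime.mul_mem_pow P (a := b) (b := a) (n := n) (by rwa [mul_comm]) with h4 | h4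
    · exact hb h4
    · exact hn h4
  have hS : ∃ k : ℕ, k ≤ n ∧ (∃ b c : Oc p K, b ∉ P ∧ a * b = xo p K ^ k * c) ∧
      ∀ j : ℕ, (∃ b c : Oc p K, b ∉ P ∧ a * b = xo p K ^ j * c) → j ≤ k := by
    have h0 : ∃ b c : Oc p K, b ∉ P ∧ a * b = xo p K ^ 0 * c :=
      ⟨1, a, fun h => hP.ne_top ((Ideal.eq_top_iff_one P).mpr h), by
        rw [mul_one, pow_zero, one_mul]⟩
    refine ⟨Nat.findGreatest (fun k => ∃ b c : Oc p K, b ∉ P ∧ a * b = xo p K ^ k * c) n,
      Nat.findGreatest_le n, ?_, ?_⟩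
    · exact Nat.findGreatest_spec (P := fun k => ∃ b c : Oc p K, b ∉ P ∧
        a * b = xo p K ^ k * c) (Nat.zero_le n) h0
    · intro j hj
      obtain ⟨b, c, hb, hbc⟩ := hj
      exact Nat.le_findGreatest (hbd j b c hb hbc).le ⟨b, c, hb, hbc⟩
  obtain ⟨k, -, ⟨b, c, hb, hbc⟩, hmax⟩ := hS
  refine ⟨k, b, c, hb, ?_, hbc⟩
  intro hc
  obtain ⟨b', c', hb', hbc'⟩ := unif p K hNI P hP hx c hc
  have h5 := hmax (k + 1) ⟨b * b', c', fun h => (hP.mem_or_mem h).elim hb hb', by
    rw [← mul_assoc, hbc, mul_assoc, hbc', pow_succ, mul_assoc]⟩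
  omega

/-- the valuation exists -/
theorem exists_vl [FiniteDimensional (Fx p) K] [IsGalois (Fx p) K] (hNI : NI p K)
    (P : Ideal (Oc p K)) (hP : P.IsPrime) (hx : xo p K ∈ P) (u : K) (hu : u ≠ 0) :
    ∃ k : ℤ, IsVl p K P u k := by
  haveI : IsFractionRing (Oc p K) K :=
    integralClosure.isFractionRing_of_finite_extension (Fx p) K
  obtain ⟨a, b, hb, hab⟩ := IsFractionRing.div_surjective (A := Oc p K) u
  have hb0 : b ≠ 0 := nonZeroDivisors.ne_zero hb
  have hbK : (b : K) ≠ 0 := fun h => hb0 (Subtype.ext h)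
  have hab' : (a : K) / (b : K) = u := hab
  have ha0 : a ≠ 0 := by
    rintro rfl
    apply hu
    rw [← hab', ZeroMemClass.coe_zero, zero_div]
  obtain ⟨k, b1, a1, hb1, ha1, h1⟩ := exists_vl_nat p K hNI P hP hx a ha0
  obtain ⟨l, b2, a2, hb2, ha2, h2⟩ := exists_vl_nat p K hNI P hP hx b hb0
  have hxk := xk_ne_zero p K
  have e1 : (a : K) * (b1 : K) = xk p K ^ k * (a1 : K) := by
    have := congrArg (fun z : Oc p K => (z : K)) h1
    simpa [xo_coe] using this
  have e2 : (b : K) * (b2 : K) = xk p K ^ l * (a2 : K) := by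
    have := congrArg (fun z : Oc p K => (z : K)) h2
    simpa [xo_coe] using this
  refine ⟨(k : ℤ) - l, a1 * b2, a2 * b1, fun h => (hP.mem_or_mem h).elim ha1 hb2,
    fun h => (hP.mem_or_mem h).elim ha2 hb1, ?_⟩
  have e3 : u * (b : K) = a := by rw [← hab', div_mul_cancel₀ _ hbK]
  have e4 : u * ((a2 : K) * b1) * xk p K ^ l = xk p K ^ k * ((a1 : K) * b2) := by
    calc u * ((a2 : K) * b1) * xk p K ^ l = u * (xk p K ^ l * (a2 : K)) * b1 := by ring
      _ = (u * (b : K)) * b1 * b2 := by rw [← e2]; ring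
      _ = xk p K ^ k * ((a1 : K) * b2) := by rw [e3, e1]; ring
  have e5 : xk p K ^ l ≠ 0 := pow_ne_zero _ hxk
  rw [zpow_sub₀ hxk, zpow_natCast, zpow_natCast]
  push_cast
  field_simp
  linear_combination e4

/-- the valuation is unique -/
theorem vl_unique (P : Ideal (Oc p K)) (hP : P.IsPrime) (hx : xo p K ∈ P) (u : K)
    (k k' : ℤ) (h : IsVl p K P u k) (h' : IsVl p K P u k') : k = k' := by
  have key : ∀ (k k' : ℤ), IsVl p K P u k → IsVl p K P u k' → ¬ k < k' := by
    intro k k' h h' hlt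
    obtain ⟨a, b, ha, hb, hab⟩ := h
    obtain ⟨a', b', ha', hb', hab'⟩ := h'
    obtain ⟨n, hn⟩ : ∃ n : ℕ, k' = k + (n + 1 : ℕ) := ⟨(k' - k - 1).toNat, by omega⟩
    have hxk := xk_ne_zero p K
    have e1 : xk p K ^ k * ((a : K) * b') = xk p K ^ k * (xk p K ^ (n + 1) * ((a' : K) * b)) := by
      calc xk p K ^ k * ((a : K) * b') = (u * b) * b' := by rw [hab]; ring
        _ = (u * b') * b := by ring
        _ = xk p K ^ k' * (a' : K) * b := by rw [hab']
        _ = xk p K ^ k * (xk p K ^ (n + 1) * ((a' : K) * b)) := by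
            rw [hn, zpow_add₀ hxk, zpow_natCast]; ring
    have e2 : (a : K) * b' = xk p K ^ (n + 1) * ((a' : K) * b) :=
      mul_left_cancel₀ (zpow_ne_zero k hxk) e1
    have e3 : a * b' = xo p K ^ (n + 1) * (a' * b) := by
      apply Subtype.ext
      push_cast
      rw [xo_coe]
      exact e2
    have e4 : a * b' ∈ P := by
      rw [e3, pow_succ', mul_assoc]
      exact Ideal.mul_mem_right _ _ hx
    exact (hP.mem_or_mem e4).elim ha hb'
  have h1 := key k k' h h'
  have h2 := key k' k h' h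
  omega

theorem vl_mul (P : Ideal (Oc p K)) (hP : P.IsPrime) (u u' : K) (k k' : ℤ)
    (h : IsVl p K P u k) (h' : IsVl p K P u' k') : IsVl p K P (u * u') (k + k') := by
  obtain ⟨a, b, ha, hb, hab⟩ := h
  obtain ⟨a', b', ha', hb', hab'⟩ := h'
  refine ⟨a * a', b * b', fun h => (hP.mem_or_mem h).elim ha ha',
    fun h => (hP.mem_or_mem h).elim hb hb', ?_⟩
  rw [zpow_add₀ (xk_ne_zero p K)]
  push_cast
  calc u * u' * ((b : K) * b') = (u * b) * (u' * b') := by ring
    _ = xk p K ^ k * xk p K ^ k' * ((a : K) * a') := by rw [hab, hab']; ring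

theorem vl_inv (P : Ideal (Oc p K)) (u : K) (k : ℤ) (h : IsVl p K P u k) :
    IsVl p K P u⁻¹ (-k) := by
  obtain ⟨a, b, ha, hb, hab⟩ := h
  have hxk := xk_ne_zero p K
  have ha0 := coe_ne_zero_of_notMem p K P a ha
  have hu : u ≠ 0 := by
    rintro rfl
    rw [zero_mul] at hab
    exact (mul_ne_zero (zpow_ne_zero k hxk) ha0) hab.symm
  refine ⟨b, a, hb, ha, ?_⟩
  have e1 : (b : K) = u⁻¹ * (xk p K ^ k * (a : K)) := by
    rw [← hab, inv_mul_cancel_left₀ hu]
  rw [e1, zpow_neg]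
  have e2 := zpow_ne_zero k hxk
  field_simp

theorem vl_unit' (P : Ideal (Oc p K)) (hP : P.IsPrime) (a : Oc p K) (ha : a ∉ P) :
    IsVl p K P (a : K) 0 := by
  refine ⟨a, 1, ha, fun h => hP.ne_top ((Ideal.eq_top_iff_one P).mpr h), ?_⟩
  rw [zpow_zero, one_mul]
  push_cast
  rw [mul_one]

theorem vl_xk (P : Ideal (Oc p K)) (hP : P.IsPrime) (j : ℤ) :
    IsVl p K P (xk p K ^ j) j :=
  ⟨1, 1, fun h => hP.ne_top ((Ideal.eq_top_iff_one P).mpr h),
    fun h => hP.ne_top ((Ideal.eq_top_iff_one P).mpr h), rfl⟩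

theorem vl_zpow (P : Ideal (Oc p K)) (hP : P.IsPrime) (u : K) (k e : ℤ)
    (h : IsVl p K P u k) : IsVl p K P (u ^ e) (e * k) := by
  have hnat : ∀ n : ℕ, IsVl p K P (u ^ n) (n * k) := by
    intro n
    induction n with
    | zero =>
      have h0 := vl_xk p K P hP 0
      simpa using h0
    | succ n ih =>
      have h1 := vl_mul p K P hP _ _ _ _ ih h
      rw [pow_succ]
      have h2 : ((n + 1 : ℕ) : ℤ) * k = n * k + k := by push_cast; ring
      rw [h2]
      exact h1
  obtain ⟨n, hn | hn⟩ := e.eq_nat_or_neg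
  · rw [hn, zpow_natCast]
    exact hnat n
  · rw [hn, zpow_neg, zpow_natCast, neg_mul]
    exact vl_inv p K P _ _ (hnat n)

theorem vl_prod (P : Ideal (Oc p K)) (hP : P.IsPrime) {J : Type} (s : Finset J) (u : J → K)
    (k : J → ℤ) (h : ∀ j ∈ s, IsVl p K P (u j) (k j)) :
    IsVl p K P (∏ j ∈ s, u j) (∑ j ∈ s, k j) := by
  classical
  induction s using Finset.induction_on with
  | empty =>
    have h0 := vl_xk p K P hP 0
    simpa using h0
  | insert j s hj ih =>
    rw [Finset.prod_insert hj, Finset.sum_insert hj]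
    exact vl_mul p K P hP _ _ _ _ (h j (Finset.mem_insert_self j s))
      (ih fun i hi => h i (Finset.mem_insert_of_mem hi))

/-- the valuation of an element of the ring of integers outside `P` is zero -/
theorem vl_unit (P : Ideal (Oc p K)) (hP : P.IsPrime) (a : Oc p K) (ha : a ∉ P) :
    IsVl p K P (a : K) 0 :=
  vl_unit' p K P hP a ha

/-- the Frobenius element preserves the valuation of its place -/
theorem vl_frob (q : Ideal (Oc p K)) (γ : Gl p K) (hq : Pl p K q γ) (u : K) (k : ℤ)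
    (h : IsVl p K q u k) : IsVl p K q (γ u) k := by
  obtain ⟨a, b, ha, hb, hab⟩ := h
  refine ⟨act p K γ a, act p K γ b, fun h => ha ((frob_mem p K q γ hq a).mp h),
    fun h => hb ((frob_mem p K q γ hq b).mp h), ?_⟩
  rw [act_coe, act_coe, ← map_mul, hab, map_mul, map_zpow₀, gl_xk]

end Pool.Agent.AB
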