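import Pool.Agent.Lib.MP_5de024_nt.Fro
import Pool.Agent.Lib.MP_5de024_nt.As1
import Pool.Agent.Lib.MP_5de024_nt.As3

/-!
# The step of the induction: central extensions by a group of order `p` (piece PcStep)
-/

set_option autoImplicit false
set_option linter.unusedSectionVars false

namespace Pool.Agent.AB

/-- coordinates on a central subgroup of order `p` -/
theorem pcs_zp (p : ℕ) [Fact p.Prime] (G : Type) [Group G] (C : Subgroup G)
    (hC : C ≤ Subgroup.center G) (hc : Nat.card C = p) :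
    ∃ zp : ZMod p → G, (∀ i j, zp (i + j) = zp i * zp j) ∧ (∀ i g, zp i * g = g * zp i) ∧
      (∀ i, zp i = 1 → i = 0) ∧ (∀ i, zp i ∈ C) ∧ (∀ g ∈ C, ∃ i, zp i = g) := by
  have h1 : Nat.card (Multiplicative (ZMod p)) = p := by
    rw [Nat.card_congr Multiplicative.toAdd, Nat.card_zmod]
  obtain ⟨φ⟩ : Nonempty (Multiplicative (ZMod p) ≃* C) := ⟨mulEquivOfPrimeCardEq h1 hc⟩
  refine ⟨fun i => (φ (Multiplicative.ofAdd i) : G), ?_, ?_, ?_, ?_, ?_⟩
  · intro i j
    change ((φ (Multiplicative.ofAdd (i + j)) : C) : G) = _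
    rw [ofAdd_add, map_mul, Subgroup.coe_mul]
  · intro i g
    exact ((Subgroup.mem_center_iff.mp (hC (φ (Multiplicative.ofAdd i)).2)) g).symm
  · intro i hi
    have h2 : φ (Multiplicative.ofAdd i) = 1 := Subtype.ext hi
    have h3 : Multiplicative.ofAdd i = 1 := (map_eq_one_iff φ φ.injective).mp h2
    exact h3
  · intro i
    exact (φ (Multiplicative.ofAdd i)).2
  · intro g hg
    refine ⟨Multiplicative.toAdd (φ.symm ⟨g, hg⟩), ?_⟩
    change ((φ (Multiplicative.ofAdd (Multiplicative.toAdd (φ.symm ⟨g, hg⟩))) : C) : G) = g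
    rw [ofAdd_toAdd, MulEquiv.apply_symm_apply]

/-- the cocycle of a section of `G → G / C` -/
theorem pcs_cocycle (p : ℕ) [Fact p.Prime] (G : Type) [Group G] (C : Subgroup G) [C.Normal]
    (hC : C ≤ Subgroup.center G) (hc : Nat.card C = p) :
    ∃ (zp : ZMod p → G) (s : G ⧸ C → G) (c : G ⧸ C → G ⧸ C → ZMod p),
      (∀ i j, zp (i + j) = zp i * zp j) ∧ (∀ i g, zp i * g = g * zp i) ∧
      (∀ i, zp i = 1 → i = 0) ∧ (∀ i, (QuotientGroup.mk (zp i) : G ⧸ C) = 1) ∧
      (∀ u, (QuotientGroup.mk (s u) : G ⧸ C) = u) ∧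
      (∀ g : G, ∃ i, g = zp i * s (QuotientGroup.mk g)) ∧
      (∀ u v, s u * s v = zp (c u v) * s (u * v)) ∧
      (∀ u v w, c v w - c (u * v) w + c u (v * w) - c u v = 0) := by
  obtain ⟨zp, hadd, hcomm, hone, hmem, hsur⟩ := pcs_zp p G C hC hc
  have hs : ∀ u : G ⧸ C, ∃ g : G, (QuotientGroup.mk g : G ⧸ C) = u := fun u =>
    QuotientGroup.mk_surjective u
  choose s hs using hs
  have hg : ∀ g : G, ∃ i, g = zp i * s (QuotientGroup.mk g) := by
    intro g
    have h1 : g * (s (QuotientGroup.mk g))⁻¹ ∈ C := by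
      rw [← QuotientGroup.eq_one_iff, QuotientGroup.mk_mul, QuotientGroup.mk_inv, hs,
        mul_inv_cancel]
    obtain ⟨i, hi⟩ := hsur _ h1
    exact ⟨i, by rw [hi, inv_mul_cancel_right]⟩
  have hc2 : ∀ u v : G ⧸ C, ∃ i, s u * s v = zp i * s (u * v) := by
    intro u v
    obtain ⟨i, hi⟩ := hg (s u * s v)
    refine ⟨i, ?_⟩
    rwa [QuotientGroup.mk_mul, hs, hs] at hi
  choose c hc2 using hc2
  refine ⟨zp, s, c, hadd, hcomm, hone, fun i => ?_, hs, hg, hc2, ?_⟩
  · rw [QuotientGroup.eq_one_iff]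
    exact hmem i
  · intro u v w
    have h1 : s u * s v * s w = zp (c u v + c (u * v) w) * s (u * v * w) := by
      rw [hc2, mul_assoc, hc2, hadd]
      simp only [mul_assoc]
    have h2 : s u * s v * s w = zp (c v w + c u (v * w)) * s (u * v * w) := by
      rw [mul_assoc, hc2, ← mul_assoc, ← hcomm, mul_assoc, hc2, hadd]
      simp only [mul_assoc]
    have h3 : zp (c u v + c (u * v) w) = zp (c v w + c u (v * w)) := by
      rw [h1] at h2
      exact mul_right_cancel h2
    have h0 : zp 0 = 1 := by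
      have h4 := hadd 0 0
      rw [add_zero] at h4
      exact (mul_eq_left.mp h4.symm)
    have h5 : zp (c v w + c u (v * w) - (c u v + c (u * v) w)) = 1 := by
      have h6 := hadd (c v w + c u (v * w) - (c u v + c (u * v) w)) (c u v + c (u * v) w)
      rw [sub_add_cancel, ← h3] at h6
      exact mul_eq_right.mp h6.symm
    have h7 := hone _ h5
    linear_combination h7

section field

variable (p : ℕ) [Fact p.Prime] (K : Type) [Field K] [Algebra (Fx p) K] [Algebra (Rx p) K]
  [IsScalarTower (Rx p) (Fx p) K]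

/-- constants are units or zero, so a constant in a proper ideal vanishes -/
theorem pcs_cst_mem (q : Ideal (Oc p K)) (hq : q ≠ ⊤) (i : ZMod p)
    (hi : cst p (Oc p K) i ∈ q) : i = 0 := by
  by_contra h
  have hu : IsUnit (cst p (Oc p K) i) := (IsUnit.mk0 i h).map (cst p (Oc p K))
  exact hq (Ideal.eq_top_of_isUnit_mem q hi hu)

/-- a polynomial in `x` is congruent to its constant term modulo a place over `x = 0` -/
theorem pcs_poly (q : Ideal (Oc p K)) (hx : xo p K ∈ q) (h : Rx p) :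
    algebraMap (Rx p) (Oc p K) h - cst p (Oc p K) (h.eval 0) ∈ q := by
  have h1 : (Polynomial.X : Rx p) ∣ h - Polynomial.C (h.eval 0) := by
    rw [Polynomial.X_dvd_iff, Polynomial.coeff_sub, Polynomial.coeff_C_zero,
      Polynomial.coeff_zero_eq_eval_zero, sub_self]
  obtain ⟨k, hk⟩ := h1
  have h2 : algebraMap (Rx p) (Oc p K) h - cst p (Oc p K) (h.eval 0) =
      xo p K * algebraMap (Rx p) (Oc p K) k := by
    have h3 : cst p (Oc p K) (h.eval 0) =
      algebraMap (Rx p) (Oc p K) (Polynomial.C (h.eval 0)) := rfl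
    rw [h3, ← map_sub, hk, map_mul]
    rfl
  rw [h2]
  exact Ideal.mul_mem_right _ _ hx

/-- the constant of `a + b_γ` modulo the place -/
theorem pcs_const (q : Ideal (Oc p K)) (γ : Gl p K) (hq : Pl p K q γ) (a b : Oc p K)
    (ha : act p K γ a = a - (b ^ p - b)) :
    ∃ κ : ZMod p, a + b - cst p (Oc p K) κ ∈ q := by
  have hqp : (q : Ideal (Oc p K)).IsPrime := hq.1.isPrime
  have hch : CharP (Oc p K) p := charP_of p (Oc p K)
  have h1 : (Ideal.Quotient.mk q (a + b)) ^ p = Ideal.Quotient.mk q (a + b) := by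
    rw [← map_pow, Ideal.Quotient.eq, add_pow_char]
    have h3 := hq.2.2 a
    rw [ha] at h3
    have h4 := q.neg_mem h3
    have h5 : a ^ p + b ^ p - (a + b) = -(a - (b ^ p - b) - a ^ p) := by ring
    rw [h5]
    exact h4
  obtain ⟨κ, hκ⟩ := cst_of_pow p (Oc p K ⧸ q) _ h1
  refine ⟨κ, ?_⟩
  rw [← Ideal.Quotient.eq]
  rw [hκ]
  rfl

end field

/-- `PC` passes from `G / C` to `G` for a central subgroup `C` of order `p` -/
theorem pc_step (p : ℕ) [Fact p.Prime] (m : ℕ) (G : Type) [Group G] [Finite G]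
    (C : Subgroup G) [C.Normal] (hC : C ≤ Subgroup.center G) (hc : Nat.card C = p) (g0 : G)
    (h : PC p m (G ⧸ C) (QuotientGroup.mk g0)) : PC p m G g0 := by
  obtain ⟨zp, s, c, hadd, hcomm, hone, hzm, hs, hg, hss, hcoc⟩ := pcs_cocycle p G C hC hc
  obtain ⟨K, _, _, _, _, ζ, π, q, γ, hfd, hgal, hNI, hζ, hPl, hπγ, hinj, hsur, hpow⟩ := h
  obtain ⟨b, a, hb, ha⟩ := as_split p K hNI (fun σ τ => c (π σ) (π τ)) (by
    intro σ τ ρ
    simp only [map_mul]
    exact hcoc _ _ _)
  obtain ⟨κ, hκ⟩ := pcs_const p K q γ hPl a (b γ) (ha γ)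
  obtain ⟨j0, hj0⟩ := hg g0
  obtain ⟨h, hh0, hhirr⟩ := as_gen p K a (-j0 - κ)
  obtain ⟨a1, ha1⟩ : ∃ a1 : Oc p K, a1 = a + algebraMap (Rx p) (Oc p K) h := ⟨_, rfl⟩
  have ha1' : ∀ σ : Gl p K, act p K σ a1 = a1 - (b σ ^ p - b σ) := by
    intro σ
    rw [ha1, map_add, ha, AlgEquiv.commutes]
    ring
  have hirr : ∀ y : K, y ^ p - y ≠ (a1 : K) := by
    intro y hy
    apply hhirr y
    rw [hy, ha1]
    rfl
  obtain ⟨M, _, _, _, _, ι, y, e, hfdM, hgalM, hNIM, hy, heι, hey, hesur, heone⟩ :=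
    as_ext p K hNI b a1 ha1' hirr
  have hιinj : Function.Injective ι := ι.toRingHom.injective
  have hιcst : ∀ i : ZMod p, ι (cst p K i) = cst p M i := by
    intro i
    exact (ι.restrictScalars (Rx p)).commutes _
  have hbσ : ∀ σ ρ : Gl p K, σ (b ρ : K) - (b (σ * ρ) : K) + (b σ : K) =
      cst p K (c (π σ) (π ρ)) := by
    intro σ ρ
    have h1 := congrArg (fun t : Oc p K => (t : K)) (hb σ ρ)
    exact h1
  have hext : ∀ τ τ' : Gl p M, (∀ s : K, τ (ι s) = τ' (ι s)) → τ y = τ' y → τ = τ' := by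
    intro τ τ' h1 h2
    have h3 : τ'⁻¹ * τ = 1 := by
      refine heone _ (fun s => ?_) ?_
      · rw [AlgEquiv.mul_apply, h1]
        exact τ'.symm_apply_apply _
      · rw [AlgEquiv.mul_apply, h2]
        exact τ'.symm_apply_apply _
    exact (inv_mul_eq_one.mp h3).symm
  -- the multiplication rule
  have hmul : ∀ (σ ρ : Gl p K) (i j : ZMod p),
      e σ i * e ρ j = e (σ * ρ) (i + j + c (π σ) (π ρ)) := by
    intro σ ρ i j
    refine hext _ _ (fun s => ?_) ?_
    · rw [AlgEquiv.mul_apply, heι, heι, heι, AlgEquiv.mul_apply]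
    · have h1 : e σ i (cst p M j) = cst p M j :=
        ((e σ i).restrictScalars (Rx p)).commutes _
      rw [AlgEquiv.mul_apply, hey, map_sub, map_sub, hey, heι, h1, hey, map_add, map_add]
      have h2 := congrArg ι (hbσ σ ρ)
      rw [map_add, map_sub, hιcst] at h2
      linear_combination -h2
  -- uniqueness
  have huniq : ∀ (σ σ' : Gl p K) (i i' : ZMod p), e σ i = e σ' i' → σ = σ' ∧ i = i' := by
    intro σ σ' i i' h1
    have h2 : σ = σ' := by
      refine AlgEquiv.ext fun s => ?_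
      apply hιinj
      rw [← heι σ i, ← heι σ' i', h1]
    refine ⟨h2, ?_⟩
    have h3 : e σ i y = e σ' i' y := by rw [h1]
    rw [hey, hey, h2, sub_right_inj] at h3
    exact (cst p M).injective h3
  choose σM iM hσi using hesur
  obtain ⟨Pm, hPm⟩ : ∃ Pm : Gl p M →* G, ∀ (σ : Gl p K) (i : ZMod p),
      Pm (e σ i) = zp i * s (π σ) := by
    refine ⟨MonoidHom.mk' (fun τ => zp (iM τ) * s (π (σM τ))) ?_, ?_⟩
    · intro τ τ'
      have h1 : e (σM (τ * τ')) (iM (τ * τ')) =
          e (σM τ * σM τ') (iM τ + iM τ' + c (π (σM τ)) (π (σM τ'))) := by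
        rw [← hmul, ← hσi, ← hσi, ← hσi]
      obtain ⟨h2, h3⟩ := huniq _ _ _ _ h1
      rw [h2, h3, map_mul, hadd, hadd]
      have h4 := hss (π (σM τ)) (π (σM τ'))
      rw [mul_assoc _ _ (s _), ← h4]
      have h5 := hcomm (iM τ') (s (π (σM τ)))
      simp only [mul_assoc]
      rw [← mul_assoc (zp (iM τ')) (s _), h5, mul_assoc]
    · intro σ i
      obtain ⟨h2, h3⟩ := huniq _ _ _ _ (hσi (e σ i))
      change zp (iM (e σ i)) * s (π (σM (e σ i))) = _
      rw [← h2, ← h3]
  obtain ⟨Q, δ, hQ, hδι, hQq⟩ := pl_lift p K M hNI ι q γ hPl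
  refine ⟨M, _, _, _, ‹_›, ι ζ, Pm, Q, δ, hfdM, hgalM, hNIM,
    hζ.map_of_injective hιinj, hQ, ?_, ?_, ?_, ?_⟩
  · -- the Frobenius element
    obtain ⟨j, hj⟩ : ∃ j, δ = e γ j := by
      refine ⟨iM δ, ?_⟩
      have h1 : σM δ = γ := by
        refine AlgEquiv.ext fun s => ?_
        apply hιinj
        rw [← hδι, hσi δ, heι, ← hσi δ]
      rw [← h1]
      exact hσi δ
    have hyint : IsIntegral (Rx p) y := by
      have h1 : IsIntegral (Rx p) (Polynomial.aeval y
          (Polynomial.X ^ p - Polynomial.X : Polynomial (Rx p))) := by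
        rw [map_sub, map_pow, Polynomial.aeval_X, hy]
        exact (omap p K M ι a1).2
      have hp : 1 < p := (Fact.out : p.Prime).one_lt
      have hdeg : (Polynomial.X ^ p - Polynomial.X : Polynomial (Rx p)).natDegree = p := by
        rw [Polynomial.natDegree_sub_eq_left_of_natDegree_lt, Polynomial.natDegree_X_pow]
        rw [Polynomial.natDegree_X_pow, Polynomial.natDegree_X]
        exact hp
      refine IsIntegral.of_aeval_monic ?_ ?_ h1
      · exact Polynomial.monic_X_pow_sub (by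
          rw [Polynomial.degree_X]
          exact_mod_cast hp)
      · rw [hdeg]
        omega
    obtain ⟨yo, hyo⟩ : ∃ yo : Oc p M, (yo : M) = y := ⟨⟨y, hyint⟩, rfl⟩
    have h1 : act p M δ yo = yo - omap p K M ι (b γ) - cst p (Oc p M) j := by
      apply Subtype.ext
      rw [act_coe, hyo, hj, hey]
      push_cast
      rw [hyo, omap_coe, cst_coe]
    have h2 : yo ^ p = yo + omap p K M ι a1 := by
      apply Subtype.ext
      push_cast
      rw [hyo, omap_coe, ← hy]
      ring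
    have h3 := hQ.2.2 yo
    rw [h1, h2] at h3
    have h4 : omap p K M ι (b γ + a1 + cst p (Oc p K) j) ∈ Q := by
      have h5 := Q.neg_mem h3
      have h6 : omap p K M ι (cst p (Oc p K) j) = cst p (Oc p M) j :=
        (omap p K M ι).commutes _
      rw [map_add, map_add, h6]
      convert h5 using 1
      ring
    rw [hQq] at h4
    have h5 := pcs_poly p K q hPl.2.1 h
    rw [hh0] at h5
    have h6 : cst p (Oc p K) (-j0 + j) ∈ q := by
      have h7 := q.sub_mem (q.sub_mem h4 h5) hκ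
      convert h7 using 1
      rw [ha1, map_sub, map_add, map_neg]
      ring
    have h7 := pcs_cst_mem p K q hPl.1.ne_top _ h6
    have h8 : j = j0 := by linear_combination h7
    rw [hj, hPm, h8, hπγ]
    exact hj0.symm
  · intro τ h1 h2
    rw [hσi τ, hPm] at h1
    have h3 : π (σM τ) = 1 := by
      have h4 := congrArg (fun g : G => (QuotientGroup.mk g : G ⧸ C)) h1
      rw [QuotientGroup.mk_mul, hzm, hs, one_mul] at h4
      exact h4
    have h5 : σM τ ζ = ζ := by
      apply hιinj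
      rw [← heι (σM τ) (iM τ), ← hσi τ, h2]
    have h6 : σM τ = 1 := hinj _ h3 h5
    rw [h6, map_one] at h1
    have h7 : s 1 = zp (c 1 1) := by
      have h8 := hss 1 1
      rw [mul_one] at h8
      exact mul_right_cancel h8
    rw [h7, ← hadd] at h1
    have h8 := hone _ h1
    have h9 : (b 1 : K) = cst p K (c 1 1) := by
      have h10 := hbσ 1 1
      rw [mul_one, map_one] at h10
      rw [← h10]
      change (b 1 : K) = (b 1 : K) - (b 1 : K) + (b 1 : K)
      ring
    rw [hσi τ, h6]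
    refine heone _ (fun s => ?_) ?_
    · rw [heι]
      rfl
    · rw [hey, h9, hιcst, sub_sub, ← map_add, add_comm, h8, map_zero, sub_zero]
  · intro g
    obtain ⟨σ, h1, h2⟩ := hsur (QuotientGroup.mk g)
    obtain ⟨i, hi⟩ := hg g
    refine ⟨e σ i, ?_, ?_⟩
    · rw [hPm, h1, ← hi]
    · rw [heι, h2]
  · intro τ
    obtain ⟨k, hk⟩ := hpow (σM τ)
    refine ⟨k, ?_⟩
    rw [hσi τ, heι, hk, map_pow]

end Pool.Agent.AB
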