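import Pool.Agent.Lib.MP_5de024_nt.Cyc
import Pool.Agent.Lib.MP_5de024_nt.PcStep

/-!
# `PC` for all `p`-groups (piece PcAll)
-/

set_option autoImplicit false
set_option linter.unusedSectionVars false

namespace Pool.Agent.AB

/-- a nontrivial finite `p`-group has a central subgroup of order `p` -/
theorem exists_central_p (p : ℕ) [Fact p.Prime] (G : Type) [Group G] [Finite G]
    (hG : IsPGroup p G) [Nontrivial G] :
    ∃ C : Subgroup G, C ≤ Subgroup.center G ∧ Nat.card C = p := by
  have hc : Nontrivial (Subgroup.center G) := hG.center_nontrivial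
  have hcp : IsPGroup p (Subgroup.center G) := hG.to_subgroup _
  obtain ⟨n, hn⟩ := IsPGroup.iff_card.mp hcp
  have hn0 : n ≠ 0 := by
    rintro rfl
    rw [pow_zero] at hn
    have h1 : 1 < Nat.card (Subgroup.center G) := Finite.one_lt_card
    omega
  have hdvd : p ∣ Nat.card (Subgroup.center G) := by
    rw [hn]
    exact dvd_pow_self p hn0
  obtain ⟨z, hz⟩ := exists_prime_orderOf_dvd_card' (G := Subgroup.center G) p hdvd
  refine ⟨Subgroup.zpowers (z : G), ?_, ?_⟩
  · rw [Subgroup.zpowers_le]
    exact z.2
  · rw [Nat.card_zpowers, Subgroup.orderOf_coe, hz]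

/-- `PC` holds for every finite `p`-group and every element -/
theorem pc_all (p : ℕ) [Fact p.Prime] (m : ℕ) (hm : m.Coprime p) (G : Type) [Group G]
    [Finite G] (hG : IsPGroup p G) (g0 : G) : PC p m G g0 := by
  suffices H : ∀ (n : ℕ) (G : Type) (_ : Group G) (_ : Finite G), IsPGroup p G →
      Nat.card G = n → ∀ g0 : G, PC p m G g0 from H _ G _ inferInstance hG rfl g0
  intro n
  induction n using Nat.strong_induction_on with
  | _ n ih =>
    intro G _ _ hG hn g0
    rcases subsingleton_or_nontrivial G with hs | hs
    · exact pc_base p m hm G g0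
    · obtain ⟨C, hC, hCp⟩ := exists_central_p p G hG
      have hnorm : C.Normal := ⟨fun a ha g => by
        have h1 := Subgroup.mem_center_iff.mp (hC ha) g
        rw [h1, mul_inv_cancel_right]
        exact ha⟩
      refine pc_step p m G C hC hCp g0 ?_
      have hlt : Nat.card (G ⧸ C) < n := by
        have h2 := Subgroup.card_eq_card_quotient_mul_card_subgroup C
        rw [hCp, hn] at h2
        have h3 : 0 < Nat.card (G ⧸ C) := Nat.card_pos
        have h4 : 1 < p := (Fact.out : p.Prime).one_lt
        rw [h2]
        nlinarith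
      exact ih _ hlt (G ⧸ C) _ inferInstance (hG.to_quotient C) rfl _

end Pool.Agent.AB
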