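import Pool.Agent.Lib.MP_5de024_nt.Gs

/-!
# Places over `x = 0` and Frobenius elements (piece Fro)
-/

set_option autoImplicit false
set_option linter.unusedSectionVars false

namespace Pool.Agent.AB

variable (p : ℕ) [Fact p.Prime] (K : Type) [Field K] [Algebra (Fx p) K] [Algebra (Rx p) K]
  [IsScalarTower (Rx p) (Fx p) K]

private theorem smulComm_gl : SMulCommClass (Gl p K) (Rx p) K :=
  ⟨fun σ r k => (σ.restrictScalars (Rx p)).toLinearEquiv.map_smul r k⟩

attribute [local instance] smulComm_gl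

private theorem smul_eq_act (σ : Gl p K) (s : Oc p K) : σ • s = act p K σ s :=
  Subtype.ext rfl

private theorem inv_oc [FiniteDimensional (Fx p) K] [IsGalois (Fx p) K] :
    Algebra.IsInvariant (Rx p) (Oc p K) (Gl p K) := by
  refine ⟨fun b hb => ?_⟩
  obtain ⟨r, hr⟩ := fixed_oc p K b (fun σ => (smul_eq_act p K σ b).symm.trans (hb σ))
  exact ⟨r, hr.symm⟩

private theorem algebraMap_rx_inj : Function.Injective (algebraMap (Rx p) K) := by
  rw [IsScalarTower.algebraMap_eq (Rx p) (Fx p) K]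
  exact (algebraMap (Fx p) K).injective.comp (IsFractionRing.injective (Rx p) (Fx p))

private theorem algebraMap_oc_inj : Function.Injective (algebraMap (Rx p) (Oc p K)) := by
  intro a b h
  exact algebraMap_rx_inj p K (congrArg (fun t : Oc p K => (t : K)) h)

private theorem finite_oc [FiniteDimensional (Fx p) K] [IsGalois (Fx p) K] :
    Module.Finite (Rx p) (Oc p K) :=
  IsIntegralClosure.finite (Rx p) (Fx p) K (Oc p K)

private theorem span_X_max : (Ideal.span {(Polynomial.X : Rx p)}).IsMaximal :=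
  PrincipalIdealRing.isMaximal_of_irreducible Polynomial.irreducible_X

private theorem under_eq (q : Ideal (Oc p K))
    (hq : q.IsPrime) (hx : xo p K ∈ q) : q.under (Rx p) = Ideal.span {(Polynomial.X : Rx p)} := by
  have h1 : Ideal.span {(Polynomial.X : Rx p)} ≤ q.under (Rx p) := by
    rw [Ideal.span_singleton_le_iff_mem]
    exact hx
  exact ((span_X_max p).eq_of_le (Ideal.IsPrime.ne_top (Ideal.IsPrime.under (Rx p) q)) h1).symm

private noncomputable def quotEquiv : (Rx p ⧸ Ideal.span {(Polynomial.X : Rx p)}) ≃ ZMod p := by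
  have e := (Polynomial.quotientSpanXSubCAlgEquiv (R := ZMod p) 0)
  rw [map_zero, sub_zero] at e
  exact e.toEquiv

private theorem card_quot : Nat.card (Rx p ⧸ Ideal.span {(Polynomial.X : Rx p)}) = p := by
  rw [Nat.card_congr (quotEquiv p), Nat.card_zmod]

private theorem finite_quot [FiniteDimensional (Fx p) K] [IsGalois (Fx p) K] (q : Ideal (Oc p K))
    (hq : q.IsPrime) (hx : xo p K ∈ q) : Finite (Oc p K ⧸ q) := by
  have h1 := finite_oc p K
  have h2 : Finite (Rx p ⧸ q.under (Rx p)) := by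
    rw [under_eq p K q hq hx]
    exact Finite.of_equiv _ (quotEquiv p).symm
  exact Module.finite_of_finite (Rx p ⧸ q.under (Rx p))

/-- every place over `x = 0` has a Frobenius element -/
theorem exists_frob [FiniteDimensional (Fx p) K] [IsGalois (Fx p) K] (q : Ideal (Oc p K))
    (hq : q.IsMaximal) (hx : xo p K ∈ q) : ∃ γ : Gl p K, Pl p K q γ := by
  have h1 := hq.isPrime
  have h2 := finite_quot p K q h1 hx
  have h3 := inv_oc p K
  obtain ⟨γ, hγ⟩ := IsArithFrobAt.exists_of_isInvariant (Rx p) (Gl p K) q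
  refine ⟨γ, hq, hx, fun s => ?_⟩
  have h4 := hγ s
  rw [under_eq p K q h1 hx, card_quot] at h4
  exact h4

/-- there is a place over `x = 0` -/
theorem exists_place [FiniteDimensional (Fx p) K] :
    ∃ q : Ideal (Oc p K), q.IsMaximal ∧ xo p K ∈ q := by
  have h1 := span_X_max p
  obtain ⟨q, hq, h2⟩ := Ideal.exists_ideal_over_maximal_of_isIntegral (S := Oc p K)
    (Ideal.span {(Polynomial.X : Rx p)}) (by
      rw [(RingHom.injective_iff_ker_eq_bot _).mp (algebraMap_oc_inj p K)]
      exact bot_le)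
  refine ⟨q, hq, ?_⟩
  have h3 : (Polynomial.X : Rx p) ∈ Ideal.comap (algebraMap (Rx p) (Oc p K)) q := by
    rw [h2]
    exact Ideal.mem_span_singleton_self _
  exact h3

/-- the Frobenius element preserves its place -/
theorem frob_mem (q : Ideal (Oc p K)) (γ : Gl p K) (h : Pl p K q γ) (s : Oc p K) :
    act p K γ s ∈ q ↔ s ∈ q := by
  have h1 := h.1.isPrime
  have h2 := h.2.2 s
  constructor
  · intro h3
    have h4 : s ^ p ∈ q := by
      have := q.sub_mem h3 h2
      rwa [sub_sub_cancel] at this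
    exact h1.mem_of_pow_mem _ h4
  · intro h3
    have h4 : s ^ p ∈ q := q.pow_mem_of_mem h3 p (Nat.Prime.pos Fact.out)
    have := q.add_mem h2 h4
    rwa [sub_add_cancel] at this

/-- an automorphism acting trivially modulo a maximal ideal is trivial -/
private theorem eq_one_of_triv (hNI : NI p K) (q : Ideal (Oc p K)) (hq : q.IsMaximal)
    (σ : Gl p K) (h : ∀ s : Oc p K, act p K σ s - s ∈ q) : σ = 1 := by
  by_contra hne
  obtain ⟨s, hs⟩ := hNI σ hne q hq
  exact hs (h s)

/-- two automorphisms, one of them preserving `q`, which agree modulo `q` are equal -/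
private theorem eq_of_agree (hNI : NI p K) (q : Ideal (Oc p K)) (hq : q.IsMaximal)
    (σ δ : Gl p K) (hδ : ∀ s, act p K δ s ∈ q ↔ s ∈ q)
    (h : ∀ s : Oc p K, act p K σ s - act p K δ s ∈ q) : σ = δ := by
  have h1 : δ⁻¹ * σ = 1 := by
    refine eq_one_of_triv p K hNI q hq _ (fun s => ?_)
    rw [← hδ, map_sub, ← act_mul, mul_inv_cancel_left]
    exact h s
  exact (inv_mul_eq_one.mp h1).symm

/-- the Frobenius element is unique -/
theorem frob_unique [FiniteDimensional (Fx p) K] (hNI : NI p K) (q : Ideal (Oc p K))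
    (γ δ : Gl p K) (h1 : Pl p K q γ) (h2 : Pl p K q δ) : γ = δ := by
  refine eq_of_agree p K hNI q h1.1 γ δ (frob_mem p K q δ h2) (fun s => ?_)
  have := q.sub_mem (h1.2.2 s) (h2.2.2 s)
  rwa [sub_sub_sub_cancel_right] at this

/-- the powers of the Frobenius element preserve the place -/
private theorem frob_pow_mem (q : Ideal (Oc p K)) (γ : Gl p K) (h : Pl p K q γ) (i : ℕ)
    (s : Oc p K) : act p K (γ ^ i) s ∈ q ↔ s ∈ q := by
  induction i generalizing s with
  | zero => rw [pow_zero]; exact Iff.rfl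
  | succ i ih =>
    rw [pow_succ', act_mul, frob_mem p K q γ h, ih]

/-- the powers of the Frobenius element act as powers of `s ↦ s ^ p` -/
private theorem frob_pow_act (q : Ideal (Oc p K)) (γ : Gl p K) (h : Pl p K q γ) (i : ℕ)
    (s : Oc p K) : act p K (γ ^ i) s - s ^ p ^ i ∈ q := by
  induction i generalizing s with
  | zero => rw [pow_zero, pow_zero, pow_one]; exact (by
      rw [act_one, sub_self]
      exact q.zero_mem)
  | succ i ih =>
    have h1 := h.2.2 (act p K (γ ^ i) s)
    rw [← act_mul, ← pow_succ'] at h1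
    have h2 : act p K (γ ^ i) s ^ p - (s ^ p ^ i) ^ p ∈ q :=
      Ideal.mem_of_dvd q (sub_dvd_pow_sub_pow _ _ p) (ih s)
    have h3 := q.add_mem h1 h2
    rwa [sub_add_sub_cancel, ← pow_mul, ← pow_succ] at h3

/-- the endomorphisms of a finite field are the powers of the Frobenius map -/
private theorem endo_pow (k : Type) [Field k] [Finite k] (f : ZMod p →+* k) (φ : k →+* k) :
    ∃ i : ℕ, ∀ x : k, φ x = x ^ p ^ i := by
  let _ : Algebra (ZMod p) k := f.toAlgebra
  let ψ : k →ₐ[ZMod p] k :=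
    { φ with
      commutes' := fun i =>
        RingHom.congr_fun (Subsingleton.elim (φ.comp (algebraMap (ZMod p) k))
          (algebraMap (ZMod p) k)) i }
  obtain ⟨i, hi⟩ := (FiniteField.bijective_frobeniusAlgHom_pow (ZMod p) k).2 ψ
  refine ⟨i.1, fun x => ?_⟩
  have h1 := DFunLike.congr_fun hi x
  have h2 : ψ x = φ x := rfl
  rw [← h2, ← h1]
  simp only [AlgHom.coe_pow, FiniteField.coe_frobeniusAlgHom, pow_iterate, ZMod.card]

/-- the stabiliser of a place over `x = 0` is generated by the Frobenius element -/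
theorem stab_frob [FiniteDimensional (Fx p) K] [IsGalois (Fx p) K] (hNI : NI p K)
    (q : Ideal (Oc p K)) (γ : Gl p K) (h : Pl p K q γ) (σ : Gl p K)
    (hσ : ∀ s ∈ q, act p K σ s ∈ q) : ∃ i : ℕ, σ = γ ^ i := by
  have hq := h.1
  have hp := hq.isPrime
  have hfin := finite_quot p K q hp h.2.1
  let _ : Field (Oc p K ⧸ q) := Ideal.Quotient.field q
  obtain ⟨i, hi⟩ := endo_pow p (Oc p K ⧸ q) ((Ideal.Quotient.mk q).comp (cst p (Oc p K)))
    (Ideal.quotientMap q (act p K σ : Oc p K →+* Oc p K) (fun s hs => hσ s hs))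
  refine ⟨i, eq_of_agree p K hNI q hq σ (γ ^ i) (frob_pow_mem p K q γ h i) (fun s => ?_)⟩
  have h1 : Ideal.Quotient.mk q (act p K σ s) = Ideal.Quotient.mk q (s ^ p ^ i) :=
    (hi (Ideal.Quotient.mk q s)).trans (map_pow (Ideal.Quotient.mk q) s (p ^ i)).symm
  rw [Ideal.Quotient.eq] at h1
  have h2 := frob_pow_act p K q γ h i s
  have h3 := q.sub_mem h1 h2
  rw [sub_sub_sub_cancel_right] at h3
  exact h3

variable (M : Type) [Field M] [Algebra (Fx p) M] [Algebra (Rx p) M]
  [IsScalarTower (Rx p) (Fx p) M]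

/-- lying over for `omap` -/
private theorem exists_over (ι : K →ₐ[Fx p] M) (q : Ideal (Oc p K)) (hq : q.IsMaximal) :
    ∃ Q : Ideal (Oc p M), Q.IsMaximal ∧ Q.comap (omap p K M ι : Oc p K →+* Oc p M) = q := by
  let _ : Algebra (Oc p K) (Oc p M) := (omap p K M ι : Oc p K →+* Oc p M).toAlgebra
  have h1 : Algebra.IsIntegral (Oc p K) (Oc p M) := by
    refine ⟨fun s => ?_⟩
    have h2 : IsIntegral (Rx p) s := Algebra.IsIntegral.isIntegral s
    obtain ⟨f, hf, h3⟩ := h2
    refine ⟨f.map (algebraMap (Rx p) (Oc p K)), hf.map _, ?_⟩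
    have h4 : (algebraMap (Oc p K) (Oc p M)).comp (algebraMap (Rx p) (Oc p K)) =
        algebraMap (Rx p) (Oc p M) := RingHom.ext fun r => (omap p K M ι).commutes r
    rw [Polynomial.eval₂_map, h4]
    exact h3
  obtain ⟨Q, hQ, h2⟩ := Ideal.exists_ideal_over_maximal_of_isIntegral (S := Oc p M) q (by
      rw [(RingHom.injective_iff_ker_eq_bot _).mp ?_]
      · exact bot_le
      · intro a b hab
        have h3 : ((omap p K M ι a : Oc p M) : M) = ((omap p K M ι b : Oc p M) : M) :=
          congrArg (fun t : Oc p M => (t : M)) hab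
        rw [omap_coe, omap_coe] at h3
        exact Subtype.ext (ι.injective h3))
  exact ⟨Q, hQ, h2⟩

/-- places and Frobenius elements lift to extensions -/
theorem pl_lift [FiniteDimensional (Fx p) K] [IsGalois (Fx p) K] [FiniteDimensional (Fx p) M]
    [IsGalois (Fx p) M] (hNI : NI p K) (ι : K →ₐ[Fx p] M) (q : Ideal (Oc p K)) (γ : Gl p K)
    (h : Pl p K q γ) :
    ∃ (Q : Ideal (Oc p M)) (δ : Gl p M), Pl p M Q δ ∧ (∀ s : K, δ (ι s) = ι (γ s)) ∧
      ∀ s : Oc p K, omap p K M ι s ∈ Q ↔ s ∈ q := by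
  obtain ⟨Q, hQ, hQq⟩ := exists_over p K M ι q h.1
  have hmem : ∀ s : Oc p K, omap p K M ι s ∈ Q ↔ s ∈ q := by
    intro s
    rw [← hQq]
    exact Iff.rfl
  have hx : xo p M ∈ Q := by
    have h1 := (hmem (xo p K)).2 h.2.1
    have h2 : omap p K M ι (xo p K) = xo p M := (omap p K M ι).commutes _
    rwa [h2] at h1
  obtain ⟨δ, hδ⟩ := exists_frob p M Q hQ hx
  let _ : Algebra K M := ι.toRingHom.toAlgebra
  have htower : IsScalarTower (Fx p) K M := IsScalarTower.of_algebraMap_eq' ι.comp_algebraMap.symm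
  let δ' : Gl p K := AlgEquiv.restrictNormal δ K
  have hres : ∀ s : K, ι (δ' s) = δ (ι s) := fun s => AlgEquiv.restrictNormal_commutes δ K s
  have hδ' : Pl p K q δ' := by
    refine ⟨h.1, h.2.1, fun s => ?_⟩
    rw [← hmem, map_sub, map_pow]
    have h1 : omap p K M ι (act p K δ' s) = act p M δ (omap p K M ι s) := by
      apply Subtype.ext
      rw [omap_coe, act_coe, act_coe, omap_coe]
      exact hres s
    rw [h1]
    exact hδ.2.2 _
  have hγ : γ = δ' := frob_unique p K hNI q γ δ' h hδ'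
  refine ⟨Q, δ, hδ, fun s => ?_, hmem⟩
  rw [hγ]
  exact (hres s).symm

end Pool.Agent.AB
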