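import Pool.Agent.Lib.MP_5de024_nt.Rt
import Pool.Agent.Lib.MP_5de024_nt.Fro

/-!
# The base of the induction: the field of `m`-th roots of unity (piece Cyc)
-/

set_option autoImplicit false
set_option linter.unusedSectionVars false

namespace Pool.Agent.AB

/-- an automorphism over `F_p(x)` maps an `m`-th root of unity to one of its conjugates over
`F_p` -/
theorem cyc_conj (p : ℕ) [Fact p.Prime] (K : Type) [Field K] [Algebra (Fx p) K]
    [Algebra (Rx p) K] [IsScalarTower (Rx p) (Fx p) K] (m : ℕ) (hm : m.Coprime p) (ζ : K)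
    (hζ : ζ ^ m = 1) (σ : Gl p K) : ∃ i : ℕ, σ ζ = ζ ^ p ^ i := by
  classical
  have : CharP K p := charP_of p K
  have : ExpChar K p := ExpChar.prime Fact.out
  have hm0 : 0 < m := by
    rcases Nat.eq_zero_or_pos m with h | h
    · rw [h, Nat.coprime_zero_left] at hm
      exact absurd hm (Fact.out : p.Prime).one_lt.ne'
    · exact h
  obtain ⟨N, hN⟩ : ∃ N : ℕ, N = m.totient := ⟨_, rfl⟩
  have hN0 : 0 < N := by
    rw [hN]
    exact Nat.totient_pos.2 hm0
  have hper : ζ ^ p ^ N = ζ := by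
    have h1 : p ^ N ≡ 1 [MOD m] := by
      rw [hN]
      exact Nat.ModEq.pow_totient hm.symm
    have h2 : ζ ^ p ^ N = ζ ^ 1 := by
      rw [← Nat.mod_add_div (p ^ N) m, pow_add, pow_mul, hζ, one_pow, mul_one]
      conv_rhs => rw [← Nat.mod_add_div 1 m, pow_add, pow_mul, hζ, one_pow, mul_one]
      rw [h1]
    rwa [pow_one] at h2
  obtain ⟨Z, hZ⟩ : ∃ Z : Finset K, Z = (Finset.range N).image fun j => ζ ^ p ^ j := ⟨_, rfl⟩
  have hZmem : ∀ z : K, z ∈ Z ↔ ∃ j < N, ζ ^ p ^ j = z := by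
    intro z
    rw [hZ, Finset.mem_image]
    constructor
    · rintro ⟨j, hj, h⟩
      exact ⟨j, Finset.mem_range.1 hj, h⟩
    · rintro ⟨j, hj, h⟩
      exact ⟨j, Finset.mem_range.2 hj, h⟩
  have himg : Z.image (frobenius K p) = Z := by
    apply Finset.eq_of_subset_of_card_le
    · intro w hw
      obtain ⟨z, hz, rfl⟩ := Finset.mem_image.1 hw
      obtain ⟨j, hj, rfl⟩ := (hZmem z).1 hz
      rw [frobenius_def, ← pow_mul, ← pow_succ, hZmem]
      rcases Nat.lt_or_ge (j + 1) N with h | h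
      · exact ⟨j + 1, h, rfl⟩
      · have h3 : j + 1 = N := by omega
        rw [h3, hper]
        exact ⟨0, hN0, by rw [pow_zero, pow_one]⟩
    · rw [Finset.card_image_of_injective _ (frobenius_inj K p)]
  obtain ⟨h, hh⟩ : ∃ h : Polynomial K, h = ∏ z ∈ Z, (Polynomial.X - Polynomial.C z) := ⟨_, rfl⟩
  have hfro : h.map (frobenius K p) = h := by
    rw [hh, Polynomial.map_prod]
    conv_rhs => rw [← himg, Finset.prod_image fun a _ b _ hab => frobenius_inj K p hab]
    refine Finset.prod_congr rfl fun z _ => ?_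
    rw [Polynomial.map_sub, Polynomial.map_X, Polynomial.map_C]
  have hcoef : ∀ n, ∃ i : ZMod p, h.coeff n = cst p K i := by
    intro n
    refine cst_of_pow p K _ ?_
    have h1 := congrArg (fun q : Polynomial K => q.coeff n) hfro
    rw [Polynomial.coeff_map] at h1
    exact h1
  have hσ : h.map (σ : K →+* K) = h := by
    ext n
    rw [Polynomial.coeff_map]
    obtain ⟨i, hi⟩ := hcoef n
    rw [hi]
    have h1 : cst p K i = algebraMap (Fx p) K (algebraMap (Rx p) (Fx p) (Polynomial.C i)) := by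
      rw [← IsScalarTower.algebraMap_apply]
      rfl
    rw [h1]
    exact σ.commutes _
  have heval : h.eval (σ ζ) = 0 := by
    have h1 : h.eval ζ = 0 := by
      rw [hh, Polynomial.eval_prod]
      refine Finset.prod_eq_zero ((hZmem ζ).2 ⟨0, hN0, by rw [pow_zero, pow_one]⟩) ?_
      rw [Polynomial.eval_sub, Polynomial.eval_X, Polynomial.eval_C, sub_self]
    have h2 : (h.map (σ : K →+* K)).eval ((σ : K →+* K) ζ) = (σ : K →+* K) (h.eval ζ) :=
      Polynomial.eval_map_apply _ _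
    rw [hσ, h1, map_zero] at h2
    exact h2
  rw [hh, Polynomial.eval_prod, Finset.prod_eq_zero_iff] at heval
  obtain ⟨z, hz, hz0⟩ := heval
  rw [Polynomial.eval_sub, Polynomial.eval_X, Polynomial.eval_C, sub_eq_zero] at hz0
  obtain ⟨j, -, hj⟩ := (hZmem z).1 hz
  exact ⟨j, by rw [hz0, hj]⟩

/-- `F_p(x)(ζ)` has no inertia -/
theorem cyc_ni (p : ℕ) [Fact p.Prime] (K : Type) [Field K] [Algebra (Fx p) K]
    [Algebra (Rx p) K] [IsScalarTower (Rx p) (Fx p) K] (m : ℕ) (hm : m.Coprime p) (ζ : K)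
    (hζ : ζ ^ m = 1) (hinj : ∀ σ : Gl p K, σ ζ = ζ → σ = 1) : NI p K := by
  have hm0 : 0 < m := by
    rcases Nat.eq_zero_or_pos m with h | h
    · rw [h, Nat.coprime_zero_left] at hm
      exact absurd hm (Fact.out : p.Prime).one_lt.ne'
    · exact h
  intro σ hσ P hP
  have hint : ζ ∈ Oc p K := by
    refine ⟨Polynomial.X ^ m - 1, Polynomial.monic_X_pow_sub_C 1 hm0.ne', ?_⟩
    rw [Polynomial.eval₂_sub, Polynomial.eval₂_X_pow, Polynomial.eval₂_one, hζ, sub_self]
  obtain ⟨z, hz⟩ : ∃ z : Oc p K, z = ⟨ζ, hint⟩ := ⟨_, rfl⟩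
  have hz1 : z ^ m = 1 := by
    apply Subtype.ext
    rw [hz]
    exact hζ
  obtain ⟨ξ, hξ⟩ : ∃ ξ : Oc p K, ξ = act p K σ z * z ^ (m - 1) := ⟨_, rfl⟩
  have hmul : z * ξ = act p K σ z := by
    rw [hξ]
    have e1 : z * (act p K σ z * z ^ (m - 1)) = act p K σ z * z ^ (m - 1 + 1) := by
      rw [pow_succ]
      ring
    rw [e1, Nat.sub_add_cancel hm0, hz1, mul_one]
  have hξ1 : ξ ^ m = 1 := by
    rw [hξ, mul_pow, ← map_pow, hz1, map_one, one_mul, ← pow_mul, mul_comm, pow_mul, hz1, one_pow]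
  have hξne : ξ ≠ 1 := by
    intro h
    rw [h, mul_one] at hmul
    apply hσ
    apply hinj
    have h2 := congrArg (fun s : Oc p K => (s : K)) hmul
    rw [act_coe, hz] at h2
    exact h2.symm
  have hu : IsUnit (act p K σ z - z) := by
    have e1 : act p K σ z - z = -(z * (1 - ξ)) := by
      rw [← hmul]
      ring
    rw [e1]
    exact ((IsUnit.of_pow_eq_one hz1 hm0.ne').mul
      (isUnit_one_sub m (natCast_isUnit p m hm _) ξ hξ1 hξne)).neg
  exact ⟨z, fun hmem => hP.ne_top (Ideal.eq_top_of_isUnit_mem _ hmem hu)⟩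

theorem cyc_pc (p : ℕ) [Fact p.Prime] (m : ℕ) (hm : m.Coprime p) (G : Type) [Group G]
    [Subsingleton G] (g0 : G) (K : Type) [Field K] [Algebra (Fx p) K] [Algebra (Rx p) K]
    [IsScalarTower (Rx p) (Fx p) K] [NeZero m] [NeZero ((m : ℕ) : Fx p)]
    [IsCyclotomicExtension {m} (Fx p) K] : PC p m G g0 := by
  have hfd : FiniteDimensional (Fx p) K := IsCyclotomicExtension.finiteDimensional {m} (Fx p) K
  have hgal : IsGalois (Fx p) K := IsCyclotomicExtension.isGalois {m} (Fx p) K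
  have hζ := IsCyclotomicExtension.zeta_spec m (Fx p) K
  obtain ⟨q, hq, hxq⟩ := exists_place p K
  obtain ⟨γ, hγ⟩ := exists_frob p K q hq hxq
  have hinj : ∀ σ : Gl p K, σ (IsCyclotomicExtension.zeta m (Fx p) K) =
      IsCyclotomicExtension.zeta m (Fx p) K → σ = 1 := by
    intro σ hσ
    have h1 : (σ : K →ₐ[Fx p] K) = ((1 : Gl p K) : K →ₐ[Fx p] K) := by
      apply (hζ.powerBasis (Fx p)).algHom_ext
      rw [IsPrimitiveRoot.powerBasis_gen]
      exact hσ
    exact AlgEquiv.ext fun x => DFunLike.congr_fun h1 x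
  exact ⟨K, inferInstance, inferInstance, inferInstance, inferInstance,
    IsCyclotomicExtension.zeta m (Fx p) K, 1, q, γ, hfd, hgal,
    cyc_ni p K m hm _ hζ.pow_eq_one hinj, hζ, hγ, Subsingleton.elim _ _, fun σ _ => hinj σ,
    fun g => ⟨1, Subsingleton.elim _ _, rfl⟩, fun σ => cyc_conj p K m hm _ hζ.pow_eq_one σ⟩

/-- `PC` for the trivial group: `K = F_p(x)(ζ_m)` -/
theorem pc_base (p : ℕ) [Fact p.Prime] (m : ℕ) (hm : m.Coprime p) (G : Type) [Group G]
    [Subsingleton G] (g0 : G) : PC p m G g0 := by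
  have hm0 : m ≠ 0 := by
    rintro rfl
    rw [Nat.coprime_zero_left] at hm
    exact absurd hm (Fact.out : p.Prime).one_lt.ne'
  have hmu : IsUnit (m : Fx p) := natCast_isUnit p m hm (Fx p)
  have h1 : NeZero m := ⟨hm0⟩
  have h2 : NeZero ((m : ℕ) : Fx p) := ⟨hmu.ne_zero⟩
  exact @cyc_pc p _ m hm G _ _ g0 (CyclotomicField m (Fx p)) _ _
    ((algebraMap (Fx p) (CyclotomicField m (Fx p))).comp (algebraMap (Rx p) (Fx p))).toAlgebra
    (@IsScalarTower.of_algebraMap_eq _ _ _ _ _ _ _ _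
      ((algebraMap (Fx p) (CyclotomicField m (Fx p))).comp
        (algebraMap (Rx p) (Fx p))).toAlgebra fun _ => rfl) h1 h2 _

end Pool.Agent.AB
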