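import Pool.Agent.Lib.MP_5de024_nt.Defs

/-!
# The Kummer pairing (piece Kum2)
-/

set_option autoImplicit false
set_option linter.unusedSectionVars false

namespace Pool.Agent.AB

/-- exponents of a primitive root are determined modulo `m` -/
theorem kum2_inj {L : Type} [Field L] {m : ℕ} [NeZero m] {ξ : L} (hξ : IsPrimitiveRoot ξ m)
    {a b : ℕ} (h : ξ ^ a = ξ ^ b) : (a : ZMod m) = (b : ZMod m) := by
  have key : ∀ a b : ℕ, a ≤ b → ξ ^ a = ξ ^ b → (a : ZMod m) = (b : ZMod m) := by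
    intro a b hab h
    have h0 : ξ ≠ 0 := hξ.ne_zero (NeZero.ne m)
    have h1 : ξ ^ (b - a) = 1 := by
      have h2 : ξ ^ a * ξ ^ (b - a) = ξ ^ a * 1 := by
        rw [← pow_add, Nat.add_sub_cancel' hab, mul_one, h]
      exact mul_left_cancel₀ (pow_ne_zero a h0) h2
    have h3 : m ∣ b - a := (hξ.pow_eq_one_iff_dvd _).1 h1
    rw [ZMod.natCast_eq_natCast_iff]
    exact (Nat.modEq_iff_dvd' hab).2 h3
  rcases le_total a b with hab | hab
  · exact key a b hab h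
  · exact (key b a hab h.symm).symm

/-- roots of equal powers differ by a power of a primitive root of unity -/
theorem kum2_quot {L : Type} [Field L] {m : ℕ} [NeZero m] {ξ : L} (hξ : IsPrimitiveRoot ξ m)
    {u w : L} (hw : w ≠ 0) (h : u ^ m = w ^ m) : ∃ c : ZMod m, u = ξ ^ c.val * w := by
  have h1 : (u / w) ^ m = 1 := by
    rw [div_pow, h, div_self (pow_ne_zero m hw)]
  obtain ⟨i, hi, h2⟩ := hξ.eq_pow_of_pow_eq_one h1
  refine ⟨(i : ZMod m), ?_⟩
  rw [ZMod.val_natCast_of_lt hi, h2, div_mul_cancel₀ _ hw]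

variable (p : ℕ) [Fact p.Prime] (K : Type) [Field K] [Algebra (Fx p) K]
  (L : Type) [Field L] [Algebra (Fx p) L]

/-- restriction to `K` and the exponents of the Kummer action -/
theorem kum_hom [FiniteDimensional (Fx p) K] [IsGalois (Fx p) K] [FiniteDimensional (Fx p) L]
    [IsGalois (Fx p) L] (ι : K →ₐ[Fx p] L) (m : ℕ) [NeZero m] (ζ : K)
    (hζ : IsPrimitiveRoot ζ m) (η : K) (hη : η ≠ 0) (y : Gl p K → L)
    (hy : ∀ h : Gl p K, y h ^ m = ι (h η))
    (hgen : ∀ τ : Gl p L, (∀ s : K, τ (ι s) = ι s) → (∀ h : Gl p K, τ (y h) = y h) → τ = 1) :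
    ∃ (ρ : Gl p L →* Gl p K) (ν : ρ.ker → Gl p K → ZMod m),
      (∀ (τ : Gl p L) (s : K), τ (ι s) = ι (ρ τ s)) ∧ Function.Surjective ρ ∧
      (∀ (τ : ρ.ker) (h : Gl p K), (τ : Gl p L) (y h) = ι (h ζ) ^ (ν τ h).val * y h) ∧
      (∀ (τ τ' : ρ.ker) (h : Gl p K), ν (τ * τ') h = ν τ h + ν τ' h) ∧
      (∀ (s : Gl p L) (τ τ' : ρ.ker) (h : Gl p K), (τ' : Gl p L) = s * τ * s⁻¹ →
        ν τ' (ρ s * h) = ν τ h) ∧
      (∀ τ : ρ.ker, τ ^ m = 1) := by
  let _ : Algebra K L := ι.toRingHom.toAlgebra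
  have : IsScalarTower (Fx p) K L := IsScalarTower.of_algebraMap_eq fun r => (ι.commutes r).symm
  obtain ⟨ρ, hρ⟩ : ∃ ρ : Gl p L →* Gl p K, ρ = AlgEquiv.restrictNormalHom K := ⟨_, rfl⟩
  have hρ1 : ∀ (τ : Gl p L) (s : K), τ (ι s) = ι (ρ τ s) := by
    intro τ s
    rw [hρ]
    exact (AlgEquiv.restrictNormal_commutes τ K s).symm
  have hρ2 : Function.Surjective ρ := by
    rw [hρ]
    exact AlgEquiv.restrictNormalHom_surjective L
  have hy0 : ∀ h : Gl p K, y h ≠ 0 := by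
    intro h h0
    have h1 := hy h
    rw [h0, zero_pow (NeZero.ne m)] at h1
    have h2 : h η = 0 := (map_eq_zero ι).1 h1.symm
    exact hη ((map_eq_zero h).1 h2)
  have hprim : ∀ h : Gl p K, IsPrimitiveRoot (ι (h ζ)) m := fun h =>
    (hζ.map_of_injective h.injective).map_of_injective ι.toRingHom.injective
  have hfix : ∀ (τ : ρ.ker) (s : K), (τ : Gl p L) (ι s) = ι s := by
    intro τ s
    have h1 : ρ (τ : Gl p L) = 1 := τ.2
    rw [hρ1, h1]
    rfl
  have hex : ∀ (τ : ρ.ker) (h : Gl p K), ∃ c : ZMod m,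
      (τ : Gl p L) (y h) = ι (h ζ) ^ c.val * y h := by
    intro τ h
    refine kum2_quot (hprim h) (hy0 h) ?_
    rw [← map_pow, hy, hfix]
  choose ν hν using hex
  have hcancel : ∀ (h : Gl p K) (a b : ℕ), ι (h ζ) ^ a * y h = ι (h ζ) ^ b * y h →
      (a : ZMod m) = (b : ZMod m) := fun h a b hab =>
    kum2_inj (hprim h) (mul_right_cancel₀ (hy0 h) hab)
  have hadd : ∀ (τ τ' : ρ.ker) (h : Gl p K), ν (τ * τ') h = ν τ h + ν τ' h := by
    intro τ τ' h
    have h1 : ((τ * τ' : ρ.ker) : Gl p L) (y h) = (τ : Gl p L) ((τ' : Gl p L) (y h)) := rfl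
    rw [hν, hν τ' h, map_mul, map_pow, hfix, hν τ h, ← mul_assoc, ← pow_add] at h1
    have h2 := hcancel h _ _ h1
    rw [Nat.cast_add, ZMod.natCast_zmod_val, ZMod.natCast_zmod_val, ZMod.natCast_zmod_val] at h2
    rw [h2, add_comm]
  refine ⟨ρ, ν, hρ1, hρ2, hν, hadd, ?_, ?_⟩
  · intro s τ τ' h hs
    have hw : (s⁻¹ (y (ρ s * h))) ^ m = (y h) ^ m := by
      rw [← map_pow, hy, hy, hρ1, map_inv]
      congr 1
      show (ρ s)⁻¹ ((ρ s) (h η)) = h η
      exact AlgEquiv.symm_apply_apply (ρ s) (h η)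
    obtain ⟨j, hj⟩ := kum2_quot (hprim h) (hy0 h) hw
    have h1 : (τ : Gl p L) (s⁻¹ (y (ρ s * h))) =
        ι (h ζ) ^ (ν τ h).val * s⁻¹ (y (ρ s * h)) := by
      rw [hj, map_mul, map_pow, hfix, hν]
      ring
    have h2 : (τ' : Gl p L) (y (ρ s * h)) = s ((τ : Gl p L) (s⁻¹ (y (ρ s * h)))) := by
      rw [hs]
      rfl
    have h3 : s (s⁻¹ (y (ρ s * h))) = y (ρ s * h) := AlgEquiv.apply_symm_apply s _
    rw [h1, map_mul, map_pow, h3, hρ1, hν τ' (ρ s * h)] at h2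
    have h4 := hcancel (ρ s * h) _ _ h2
    rw [ZMod.natCast_zmod_val, ZMod.natCast_zmod_val] at h4
    exact h4
  · intro τ
    have h1 : ∀ (n : ℕ) (h : Gl p K), ν (τ ^ n) h = n * ν τ h := by
      intro n h
      induction n with
      | zero =>
        have h2 := hadd 1 1 h
        rw [mul_one] at h2
        rw [pow_zero, Nat.cast_zero, zero_mul]
        exact (left_eq_add.1 h2)
      | succ n ih =>
        rw [pow_succ, hadd, ih, Nat.cast_succ]
        ring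
    apply Subtype.ext
    refine hgen _ (hfix _) fun h => ?_
    rw [hν, h1, ZMod.natCast_self, zero_mul, ZMod.val_zero, pow_zero, one_mul]

end Pool.Agent.AB
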