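import Pool.Agent.Lib.MP_5de024_nt.Val

/-!
# A power of `q` is principal (piece Cls)
-/

set_option autoImplicit false
set_option linter.unusedSectionVars false

namespace Pool.Agent.AB

variable (p : ℕ) [Fact p.Prime] (K : Type) [Field K] [Algebra (Fx p) K] [Algebra (Rx p) K]
  [IsScalarTower (Rx p) (Fx p) K]

/-- finiteness of the class group -/
theorem exists_prin [FiniteDimensional (Fx p) K] [IsGalois (Fx p) K] (q : Ideal (Oc p K))
    (hq : q ≠ ⊥) : ∃ (n : ℕ) (η : Oc p K), 0 < n ∧ q ^ n = Ideal.span {η} := by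
  classical
  haveI := oc_dedekind p K
  haveI hfin : Fintype (ClassGroup (Oc p K)) :=
    ClassGroup.fintypeOfAdmissibleOfFinite (Fx p) K
      (Polynomial.cardPowDegreeIsAdmissible :
        AbsoluteValue.IsAdmissible
          (Polynomial.cardPowDegree : AbsoluteValue (Polynomial (ZMod p)) ℤ))
  have hq0 : q ∈ nonZeroDivisors (Ideal (Oc p K)) := mem_nonZeroDivisors_iff_ne_zero.mpr hq
  refine ⟨Fintype.card (ClassGroup (Oc p K)), ?_⟩
  have h1 : ClassGroup.mk0 (⟨q, hq0⟩ ^ Fintype.card (ClassGroup (Oc p K)) :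
      nonZeroDivisors (Ideal (Oc p K))) = 1 := by
    rw [map_pow, pow_card_eq_one]
  rw [ClassGroup.mk0_eq_one_iff] at h1
  have h2 : (q ^ Fintype.card (ClassGroup (Oc p K))).IsPrincipal := by
    simpa using h1
  obtain ⟨η, hη⟩ := h2
  exact ⟨η, Fintype.card_pos, hη⟩

/-- elements of `q ^ n` are locally divisible by `x ^ n` -/
theorem pow_dvd_local [FiniteDimensional (Fx p) K] [IsGalois (Fx p) K] (hNI : NI p K)
    (q : Ideal (Oc p K)) (hq : q.IsPrime) (hx : xo p K ∈ q) (n : ℕ) (a : Oc p K)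
    (ha : a ∈ q ^ n) : ∃ b c : Oc p K, b ∉ q ∧ a * b = xo p K ^ n * c := by
  have hone : (1 : Oc p K) ∉ q := fun h => hq.ne_top ((Ideal.eq_top_iff_one q).mpr h)
  induction n generalizing a with
  | zero => exact ⟨1, a, hone, by rw [mul_one, pow_zero, one_mul]⟩
  | succ n ih =>
    rw [pow_succ] at ha
    refine Submodule.mul_induction_on ha ?_ ?_
    · intro a1 h1 a2 h2
      obtain ⟨b1, c1, hb1, e1⟩ := ih a1 h1
      obtain ⟨b2, c2, hb2, e2⟩ := unif p K hNI q hq hx a2 h2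
      refine ⟨b1 * b2, c1 * c2, fun h => (hq.mem_or_mem h).elim hb1 hb2, ?_⟩
      calc a1 * a2 * (b1 * b2) = (a1 * b1) * (a2 * b2) := by ring
        _ = xo p K ^ (n + 1) * (c1 * c2) := by rw [e1, e2]; ring
    · rintro a1 a2 ⟨b1, c1, hb1, e1⟩ ⟨b2, c2, hb2, e2⟩
      refine ⟨b1 * b2, c1 * b2 + c2 * b1, fun h => (hq.mem_or_mem h).elim hb1 hb2, ?_⟩
      calc (a1 + a2) * (b1 * b2) = (a1 * b1) * b2 + (a2 * b2) * b1 := by ring
        _ = xo p K ^ (n + 1) * (c1 * b2 + c2 * b1) := by rw [e1, e2]; ring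

/-- a generator of a power of `q` and its valuations -/
theorem exists_eta0 [FiniteDimensional (Fx p) K] [IsGalois (Fx p) K] (hNI : NI p K)
    (q : Ideal (Oc p K)) (γ : Gl p K) (hq : Pl p K q γ) :
    ∃ (n : ℕ) (η : Oc p K), 0 < n ∧ η ≠ 0 ∧ (∃ c : Oc p K, η * c = xo p K ^ n) ∧
      IsVl p K q (η : K) n ∧
      ∀ σ : Gl p K, (∀ i : ℕ, σ ≠ γ ^ i) → act p K σ η ∉ q := by
  have hqm : q.IsMaximal := hq.1
  have hqp : q.IsPrime := hqm.isPrime
  have hx : xo p K ∈ q := hq.2.1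
  have hx0 : xo p K ≠ 0 := by
    intro h
    apply xk_ne_zero p K
    rw [← xo_coe, h]
    rfl
  have hqb : q ≠ ⊥ := by
    rintro rfl
    exact hx0 ((Submodule.mem_bot _).mp hx)
  obtain ⟨n, η, hn, hη⟩ := exists_prin p K q hqb
  have hηmem : η ∈ q ^ n := by
    rw [hη]
    exact Ideal.mem_span_singleton_self η
  have hxn : xo p K ^ n ∈ q ^ n := Ideal.pow_mem_pow hx n
  have hη0 : η ≠ 0 := by
    rintro rfl
    rw [hη, Ideal.mem_span_singleton, zero_dvd_iff] at hxn
    exact (pow_ne_zero n hx0) hxn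
  have hc : ∃ c : Oc p K, η * c = xo p K ^ n := by
    rw [hη, Ideal.mem_span_singleton] at hxn
    obtain ⟨c, hc⟩ := hxn
    exact ⟨c, hc.symm⟩
  refine ⟨n, η, hn, hη0, hc, ?_, ?_⟩
  · obtain ⟨c0, hc0⟩ := hc
    obtain ⟨b, c, hb, hbc⟩ := pow_dvd_local p K hNI q hqp hx n η hηmem
    have hb' : b = c0 * c := by
      apply mul_left_cancel₀ hη0
      rw [hbc, ← hc0, mul_assoc]
    have hcq : c ∉ q := by
      intro h
      apply hb
      rw [hb']
      exact Ideal.mul_mem_left _ _ h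
    refine ⟨c, b, hcq, hb, ?_⟩
    have := congrArg (fun z : Oc p K => (z : K)) hbc
    simpa [xo_coe] using this
  · intro σ hσ hmem
    obtain ⟨i, hi⟩ := stab_frob p K hNI q γ hq σ (by
      intro s hs
      have h1 : s ^ n ∈ q ^ n := Ideal.pow_mem_pow hs n
      rw [hη, Ideal.mem_span_singleton] at h1
      obtain ⟨d, hd⟩ := h1
      have h2 : act p K σ s ^ n ∈ q := by
        rw [← map_pow, hd, map_mul]
        exact Ideal.mul_mem_right _ _ hmem
      exact hqp.mem_of_pow_mem n h2)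
    exact hσ i hi

end Pool.Agent.AB
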