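import Mathlib

/-!
# Definitions for project AB (MP_5de024_nt)

`Rx p = F_p[x]`, `Fx p = F_p(x)`; `K` is a field over `Fx p`; `Gl p K` its group of
automorphisms over `Fx p`; `Oc p K` the integral closure of `F_p[x]` in `K`.
-/

set_option autoImplicit false
set_option linter.unusedSectionVars false

namespace Pool.Agent.AB

section basic

variable (p : ℕ) [Fact p.Prime]

/-- the polynomial ring `F_p[x]` -/
abbrev Rx := Polynomial (ZMod p)

/-- the rational function field `F_p(x)` -/
abbrev Fx := RatFunc (ZMod p)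

/-- the constant `i` of `F_p` in an algebra over `F_p[x]` -/
noncomputable def cst (A : Type) [CommRing A] [Algebra (Rx p) A] : ZMod p →+* A :=
  (algebraMap (Rx p) A).comp Polynomial.C

variable (K : Type) [Field K] [Algebra (Fx p) K]

/-- automorphisms of `K` over `F_p(x)` -/
abbrev Gl := K ≃ₐ[Fx p] K

/-- the element `x` of `K` -/
noncomputable def xk : K := algebraMap (Fx p) K RatFunc.X

theorem gl_xk (σ : Gl p K) : σ (xk p K) = xk p K := σ.commutes _

theorem xk_ne_zero : xk p K ≠ 0 := by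
  rw [xk, Ne, map_eq_zero]
  exact RatFunc.X_ne_zero

variable [Algebra (Rx p) K]

/-- the ring of integers of `K` -/
noncomputable abbrev Oc : Subalgebra (Rx p) K := integralClosure (Rx p) K

/-- the element `x` of the ring of integers -/
noncomputable def xo : Oc p K := algebraMap (Rx p) (Oc p K) Polynomial.X

@[simp] theorem cst_coe (i : ZMod p) : ((cst p (Oc p K) i : Oc p K) : K) = cst p K i := rfl

variable [IsScalarTower (Rx p) (Fx p) K]

/-- the action of an automorphism on the ring of integers -/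
noncomputable def act (σ : Gl p K) : Oc p K ≃ₐ[Rx p] Oc p K :=
  (σ.restrictScalars (Rx p)).mapIntegralClosure

@[simp] theorem act_coe (σ : Gl p K) (s : Oc p K) :
    ((act p K σ s : Oc p K) : K) = σ (s : K) := rfl

theorem xo_coe : ((xo p K : Oc p K) : K) = xk p K := by
  have h : ((xo p K : Oc p K) : K) = algebraMap (Rx p) K Polynomial.X := rfl
  rw [h, xk, IsScalarTower.algebraMap_apply (Rx p) (Fx p) K, RatFunc.algebraMap_X]

theorem act_xo (σ : Gl p K) : act p K σ (xo p K) = xo p K :=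
  (act p K σ).commutes _

theorem act_cst (σ : Gl p K) (i : ZMod p) :
    act p K σ (cst p (Oc p K) i) = cst p (Oc p K) i :=
  (act p K σ).commutes _

theorem act_one (s : Oc p K) : act p K 1 s = s := rfl

theorem act_mul (σ τ : Gl p K) (s : Oc p K) :
    act p K (σ * τ) s = act p K σ (act p K τ s) := rfl

/-- no inertia: every nontrivial automorphism moves some integer modulo every maximal
ideal -/
def NI : Prop :=
  ∀ σ : Gl p K, σ ≠ 1 → ∀ P : Ideal (Oc p K), P.IsMaximal → ∃ s : Oc p K, act p K σ s - s ∉ P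

/-- `q` is a place over `x = 0` with Frobenius element `γ` -/
def Pl (q : Ideal (Oc p K)) (γ : Gl p K) : Prop :=
  q.IsMaximal ∧ xo p K ∈ q ∧ ∀ s : Oc p K, act p K γ s - s ^ p ∈ q

end basic

section maps

variable (p : ℕ) [Fact p.Prime] (K : Type) [Field K] [Algebra (Fx p) K] [Algebra (Rx p) K]
  [IsScalarTower (Rx p) (Fx p) K] (M : Type) [Field M] [Algebra (Fx p) M] [Algebra (Rx p) M]
  [IsScalarTower (Rx p) (Fx p) M]

/-- the map of rings of integers induced by a map of fields over `F_p(x)` -/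
noncomputable def omap (ι : K →ₐ[Fx p] M) : Oc p K →ₐ[Rx p] Oc p M :=
  (ι.restrictScalars (Rx p)).mapIntegralClosure

@[simp] theorem omap_coe (ι : K →ₐ[Fx p] M) (s : Oc p K) :
    ((omap p K M ι s : Oc p M) : M) = ι (s : K) := rfl

end maps

/-- `p`-groups with prescribed Frobenius and roots of unity: there is a finite Galois extension
`K` of `F_p(x)` without inertia over `F_p[x]`, a primitive `m`-th root of unity `ζ` in `K`, a
homomorphism `π` to `G` which is jointly injective with the action on `ζ` and maps the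
stabiliser of `ζ` onto `G`, and a place `q` over `x = 0` with Frobenius `γ` and `π γ = g0` -/
def PC (p : ℕ) [Fact p.Prime] (m : ℕ) (G : Type) [Group G] (g0 : G) : Prop :=
  ∃ (K : Type) (_ : Field K) (_ : Algebra (Fx p) K) (_ : Algebra (Rx p) K)
    (_ : IsScalarTower (Rx p) (Fx p) K) (ζ : K) (π : Gl p K →* G) (q : Ideal (Oc p K))
    (γ : Gl p K),
    FiniteDimensional (Fx p) K ∧ IsGalois (Fx p) K ∧ NI p K ∧ IsPrimitiveRoot ζ m ∧
    Pl p K q γ ∧ π γ = g0 ∧ (∀ σ : Gl p K, π σ = 1 → σ ζ = ζ → σ = 1) ∧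
    (∀ g : G, ∃ σ : Gl p K, π σ = g ∧ σ ζ = ζ) ∧
    (∀ σ : Gl p K, ∃ i : ℕ, σ ζ = ζ ^ p ^ i)

/-- the data for the Kummer step: the fourth line says that the conjugates of `η` have, at
every prime, a valuation divisible by `m` (measured by `x` over `x = 0`), the last one is the
independence of the conjugates of `η` modulo `m`-th powers -/
def KD (p : ℕ) [Fact p.Prime] (m : ℕ) (G : Type) [Group G] (g0 : G) : Prop :=
  ∃ (K : Type) (_ : Field K) (_ : Algebra (Fx p) K) (_ : Algebra (Rx p) K)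
    (_ : IsScalarTower (Rx p) (Fx p) K) (ζ η : K) (π : Gl p K →* G) (γ : Gl p K),
    FiniteDimensional (Fx p) K ∧ IsGalois (Fx p) K ∧ NI p K ∧ IsPrimitiveRoot ζ m ∧
    γ ζ = ζ ^ p ∧ π γ = g0 ∧ (∀ g : G, ∃ σ : Gl p K, π σ = g ∧ σ ζ = ζ) ∧
    (Nat.card (Gl p K)).Coprime m ∧ η ≠ 0 ∧
    (∀ (h : Gl p K) (P : Ideal (Oc p K)), P.IsPrime →
      ∃ (k : ℤ) (a b : Oc p K), a ∉ P ∧ b ∉ P ∧
        h η * (b : K) = xk p K ^ ((m : ℤ) * k) * (a : K)) ∧
    (∀ (e : Gl p K → ℤ) (z : K), (∏ᶠ h : Gl p K, (h η) ^ e h) = z ^ m →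
      ∃ c : ℤ, ∀ h0 : Gl p K,
        (∑ i ∈ Finset.range (orderOf γ), e (h0 * γ ^ i)) ≡ c [ZMOD m])

/-- `E` is the Galois group of a finite Galois extension of `F_p(x)` unramified over
`F_p[x]` (the form of the frozen statement) -/
def RealG (p : ℕ) [Fact p.Prime] (E : Type) [Group E] : Prop :=
  ∃ (L : Type) (_ : Field L) (_ : Algebra (RatFunc (ZMod p)) L)
    (_ : Algebra (Polynomial (ZMod p)) L)
    (_ : IsScalarTower (Polynomial (ZMod p)) (RatFunc (ZMod p)) L),
    FiniteDimensional (RatFunc (ZMod p)) L ∧ IsGalois (RatFunc (ZMod p)) L ∧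
    Algebra.Etale (Polynomial (ZMod p)) (integralClosure (Polynomial (ZMod p)) L) ∧
    Nonempty (E ≃* (L ≃ₐ[RatFunc (ZMod p)] L))

end Pool.Agent.AB
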