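import Pool.Agent.Lib.MP_5de024_nt.Gs

/-!
# The ring of integers is etale (piece Et)
-/

set_option autoImplicit false
set_option linter.unusedSectionVars false

namespace Pool.Agent.AB

open TensorProduct

variable (p : ℕ) [Fact p.Prime] (K : Type) [Field K] [Algebra (Fx p) K] [Algebra (Rx p) K]
  [IsScalarTower (Rx p) (Fx p) K]

/-- the map `a ⊗ b ↦ (a * σ b)` -/
noncomputable def etMap : Oc p K ⊗[Rx p] Oc p K →ₐ[Oc p K] (Gl p K → Oc p K) :=
  Algebra.TensorProduct.lift (Algebra.ofId (Oc p K) (Gl p K → Oc p K))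
    (AlgHom.pi (R := Rx p) fun σ => (act p K σ : Oc p K →ₐ[Rx p] Oc p K))
    (fun _ _ => Commute.all _ _)

theorem etMap_tmul (a b : Oc p K) (σ : Gl p K) :
    etMap p K (a ⊗ₜ b) σ = a * act p K σ b := by
  rw [etMap, Algebra.TensorProduct.lift_tmul]
  rfl

theorem etMap_surj [FiniteDimensional (Fx p) K] (h : NI p K) :
    Function.Surjective (etMap p K) := by
  classical
  obtain ⟨n, a, b, h1, h2⟩ := gs_of_ni p K h
  intro f
  refine ⟨∑ τ : Gl p K, f τ • ∑ i, a i ⊗ₜ[Rx p] act p K τ⁻¹ (b i), ?_⟩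
  funext σ
  rw [map_sum, Finset.sum_apply, Finset.sum_eq_single σ]
  · rw [map_smul, map_sum, Pi.smul_apply, Finset.sum_apply, smul_eq_mul]
    have e1 : ∀ i, etMap p K (a i ⊗ₜ[Rx p] act p K σ⁻¹ (b i)) σ = a i * b i := by
      intro i
      rw [etMap_tmul, ← act_mul, mul_inv_cancel, act_one]
    simp only [e1]
    rw [h1, mul_one]
  · intro τ _ hτ
    rw [map_smul, map_sum, Pi.smul_apply, Finset.sum_apply, smul_eq_mul]
    have e1 : ∀ i, etMap p K (a i ⊗ₜ[Rx p] act p K τ⁻¹ (b i)) σ =
        a i * act p K (σ * τ⁻¹) (b i) := by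
      intro i
      rw [etMap_tmul, ← act_mul]
    simp only [e1]
    rw [h2 (σ * τ⁻¹) (fun h => hτ (mul_inv_eq_one.1 h).symm), mul_zero]
  · intro hσ
    exact absurd (Finset.mem_univ _) hσ

/-- without inertia the ring of integers is etale over `F_p[x]` -/
theorem et_of_ni [FiniteDimensional (Fx p) K] [IsGalois (Fx p) K] (h : NI p K) :
    Algebra.Etale (Rx p) (Oc p K) := by
  classical
  have hfin : Module.Finite (Rx p) (Oc p K) :=
    IsIntegralClosure.finite (Rx p) (Fx p) K (Oc p K)
  have hinj : Function.Injective (algebraMap (Rx p) K) := by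
    rw [IsScalarTower.algebraMap_eq (Rx p) (Fx p) K]
    exact (algebraMap (Fx p) K).injective.comp (IsFractionRing.injective (Rx p) (Fx p))
  have hinj' : Function.Injective (algebraMap (Rx p) (Oc p K)) := by
    intro a b hab
    exact hinj (congrArg (fun z : Oc p K => (z : K)) hab)
  have hfs : FaithfulSMul (Rx p) (Oc p K) := (faithfulSMul_iff_algebraMap_injective _ _).2 hinj'
  have htf : Module.IsTorsionFree (Rx p) (Oc p K) := inferInstance
  have hfree : Module.Free (Rx p) (Oc p K) := inferInstance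
  have hff : Module.FaithfullyFlat (Rx p) (Oc p K) := inferInstance
  have hrank : Module.finrank (Rx p) (Oc p K) = Fintype.card (Gl p K) := by
    have hfr : IsFractionRing (Oc p K) K :=
      integralClosure.isFractionRing_of_finite_extension (Fx p) K
    rw [← Nat.card_eq_fintype_card, IsGalois.card_aut_eq_finrank]
    exact (IsFractionRing.finrank_eq (Rx p) (Fx p) (Oc p K) K).symm
  have hfr2 : Module.finrank (Oc p K) (Gl p K → Oc p K) =
      Module.finrank (Oc p K) (Oc p K ⊗[Rx p] Oc p K) := by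
    rw [Module.finrank_baseChange, hrank, Module.finrank_fintype_fun_eq_card]
  let e : (Gl p K → Oc p K) ≃ₗ[Oc p K] (Oc p K ⊗[Rx p] Oc p K) :=
    LinearEquiv.ofFinrankEq _ _ hfr2
  have hinjφ : Function.Injective (etMap p K) := by
    have hs : Function.Surjective (e.toLinearMap ∘ₗ (etMap p K).toLinearMap) :=
      e.surjective.comp (etMap_surj p K h)
    have := OrzechProperty.injective_of_surjective_endomorphism _ hs
    exact Function.Injective.of_comp this
  let E : (Oc p K ⊗[Rx p] Oc p K) ≃ₐ[Oc p K] (Gl p K → Oc p K) :=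
    AlgEquiv.ofBijective (etMap p K) ⟨hinjφ, etMap_surj p K h⟩
  have het : Algebra.Etale (Oc p K) (Oc p K ⊗[Rx p] Oc p K) := Algebra.Etale.of_equiv E.symm
  exact Algebra.Etale.of_etale_tensorProduct_of_faithfullyFlat (Oc p K)

end Pool.Agent.AB
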