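import Pool.Agent.Lib.MP_5de024_nt.EtaV

/-!
# The unit `η` outside `x = 0` (piece Eta)
-/

set_option autoImplicit false
set_option linter.unusedSectionVars false

namespace Pool.Agent.AB

variable {p : ℕ} [Fact p.Prime] {K : Type} [Field K] [Algebra (Fx p) K] [Algebra (Rx p) K]
  [IsScalarTower (Rx p) (Fx p) K]

section

variable [FiniteDimensional (Fx p) K] [IsGalois (Fx p) K] (hNI : NI p K)
  {q : Ideal (Oc p K)} {γ : Gl p K} (hq : Pl p K q γ)

/-- the values of the units outside `x = 0` -/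
def lam : AddSubgroup ((Gl p K ⧸ Subgroup.zpowers γ) → ℤ) where
  carrier := {f | ∃ u : K, InU p K u ∧ Vx p K q γ u = f}
  zero_mem' := ⟨1, inU_one p K, Vx_one hNI hq⟩
  add_mem' := by
    rintro _ _ ⟨u, hu, rfl⟩ ⟨v, hv, rfl⟩
    exact ⟨u * v, inU_mul p K hu hv, Vx_mul hNI hq (inU_ne p K hu) (inU_ne p K hv)⟩
  neg_mem' := by
    rintro _ ⟨u, hu, rfl⟩
    exact ⟨u⁻¹, inU_inv p K hu, Vx_inv hNI hq (inU_ne p K hu)⟩

theorem lam_gl (σ : Gl p K) (f : (Gl p K ⧸ Subgroup.zpowers γ) → ℤ) (hf : f ∈ lam hNI hq) :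
    rhoX (Gl p K) (Subgroup.zpowers γ) σ f ∈ lam hNI hq := by
  obtain ⟨u, hu, rfl⟩ := hf
  exact ⟨σ u, inU_gl p K σ hu, Vx_gl hNI hq (inU_ne p K hu) σ⟩

include hNI hq in
/-- the values of `x` -/
theorem Vx_xk (j : ℤ) : Vx p K q γ (xk p K ^ j) = fun _ => j := by
  funext c
  change vq p K q (_) = j
  rw [map_zpow₀, gl_xk]
  exact vq_eq hq (vl_xk p K q hq.1.isPrime j)

theorem one_mem_lam : (fun _ => 1) ∈ lam hNI hq :=
  ⟨xk p K, inU_xk p K, by
    have h := Vx_xk hNI hq 1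
    rw [zpow_one] at h
    exact h⟩

open Classical in
/-- the indicator of the trivial coset -/
noncomputable def del : (Gl p K ⧸ Subgroup.zpowers γ) → ℤ := fun c =>
  if c = ((1 : Gl p K) : Gl p K ⧸ Subgroup.zpowers γ) then 1 else 0

theorem rhoX_del (h : Gl p K) [DecidableEq (Gl p K ⧸ Subgroup.zpowers γ)]
    (c : Gl p K ⧸ Subgroup.zpowers γ) :
    rhoX (Gl p K) (Subgroup.zpowers γ) h (del (γ := γ)) c =
      if c = (h : Gl p K ⧸ Subgroup.zpowers γ) then 1 else 0 := by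
  rw [rhoX_apply, del]
  have h1 : (h⁻¹ • c = ((1 : Gl p K) : Gl p K ⧸ Subgroup.zpowers γ)) ↔
      c = (h : Gl p K ⧸ Subgroup.zpowers γ) := by
    rw [inv_smul_eq_iff]
    have h2 : h • ((1 : Gl p K) : Gl p K ⧸ Subgroup.zpowers γ) =
        ((h * 1 : Gl p K) : Gl p K ⧸ Subgroup.zpowers γ) := rfl
    rw [h2, mul_one]
  by_cases h3 : c = (h : Gl p K ⧸ Subgroup.zpowers γ)
  · rw [if_pos (h1.mpr h3), if_pos h3]
  · rw [if_neg (fun h4 => h3 (h1.mp h4)), if_neg h3]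

/-- `n X` is contained in the image -/
theorem n_mem_lam : ∃ n : ℕ, 0 < n ∧
    ∀ f : (Gl p K ⧸ Subgroup.zpowers γ) → ℤ, n • f ∈ lam hNI hq := by
  classical
  obtain ⟨n, η, hn, hη, ⟨c, hc⟩, hv, hv0⟩ := exists_eta0 p K hNI q γ hq
  refine ⟨n, hn, fun f => ?_⟩
  have hηK : (η : K) ≠ 0 := fun h => hη (Subtype.ext h)
  have hcK : (η : K) * (c : K) = xk p K ^ n := by
    rw [← xo_pow_coe, ← hc]
    rfl
  have hU : InU p K (η : K) := by
    refine (inU_iff p K _).mpr ⟨hηK, n, η * xo p K ^ n, c, ?_, ?_⟩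
    · rw [← xo_pow_coe]
      rfl
    · rw [← hcK, inv_mul_cancel_left₀ hηK]
  have hV : Vx p K q γ (η : K) = n • del (γ := γ) := by
    funext c
    induction c using QuotientGroup.induction_on with
    | H h =>
      rw [Vx_mk hNI hq hηK]
      rw [Pi.smul_apply, del]
      split_ifs with h1
      · rw [eq_comm, QuotientGroup.eq, inv_one, one_mul] at h1
        rw [vq_dec hNI hq hηK _ (Subgroup.inv_mem _ h1), vq_eq hq hv, nsmul_eq_mul, mul_one]
      · rw [smul_zero]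
        refine vq_eq hq (vl_unit p K q hq.1.isPrime (act p K h⁻¹ η) (hv0 _ ?_))
        intro i hi
        apply h1
        rw [eq_comm, QuotientGroup.eq, inv_one, one_mul, ← inv_inv h, hi]
        exact Subgroup.inv_mem _ (Subgroup.npow_mem_zpowers γ i)
  have hd : ∀ h : Gl p K, rhoX (Gl p K) (Subgroup.zpowers γ) h (n • del (γ := γ)) ∈
      lam hNI hq := fun h => lam_gl hNI hq h _ ⟨η, hU, hV⟩
  have hf : n • f = ∑ c : Gl p K ⧸ Subgroup.zpowers γ, f c •
      rhoX (Gl p K) (Subgroup.zpowers γ) (Quotient.out c) (n • del (γ := γ)) := by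
    funext d
    rw [Finset.sum_apply, Finset.sum_eq_single d]
    · rw [Pi.smul_apply, Pi.smul_apply, map_nsmul, Pi.smul_apply, rhoX_del,
        if_pos (QuotientGroup.out_eq' d).symm, nsmul_eq_mul, nsmul_eq_mul, smul_eq_mul, mul_one,
        mul_comm]
    · intro c _ hcd
      rw [Pi.smul_apply, map_nsmul, Pi.smul_apply, rhoX_del, if_neg, smul_zero, smul_zero]
      intro h
      exact hcd (h.trans (QuotientGroup.out_eq' c)).symm
    · intro h
      exact absurd (Finset.mem_univ d) h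
  rw [hf]
  exact AddSubgroup.sum_mem _ (fun c _ => AddSubgroup.zsmul_mem _ (hd _) _)

end

variable (p K)

/-- an element `η`, a unit outside `x = 0`, whose conjugates are independent modulo `m` up to
powers of `x` and the relations of the induced module of the decomposition group -/
theorem exists_eta [FiniteDimensional (Fx p) K] [IsGalois (Fx p) K] (hNI : NI p K)
    (q : Ideal (Oc p K)) (γ : Gl p K) (hq : Pl p K q γ) (m : ℕ) (hm0 : 0 < m)
    (hm : (Nat.card (Gl p K)).Coprime m) :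
    ∃ η : K, η ≠ 0 ∧
      (∃ (n : ℕ) (a b : Oc p K), η * (xo p K ^ n : Oc p K) = a ∧ a * b = xo p K ^ (2 * n)) ∧
      ∀ (e : Gl p K → ℤ) (j : ℤ) (w : K), (∏ h : Gl p K, (h η) ^ e h) = xk p K ^ j * w ^ m →
        ∃ c : ℤ, ∀ h0 : Gl p K,
          (∑ i ∈ Finset.range (orderOf γ), e (h0 * γ ^ i)) ≡ c [ZMOD m] := by
  classical
  obtain ⟨n, hn, hnX⟩ := n_mem_lam hNI hq
  obtain ⟨θ, hθ1, hθ2, hθ3⟩ := lattice (Gl p K) ((Gl p K ⧸ Subgroup.zpowers γ) → ℤ)
    (rhoX (Gl p K) (Subgroup.zpowers γ)) (lam hNI hq) (fun g x => lam_gl hNI hq g x) n hn hnX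
    m hm0 hm
  obtain ⟨η, hU, hV⟩ := hθ2 (del (γ := γ))
  refine ⟨η, inU_ne p K hU, hU, ?_⟩
  intro e j w hw
  have hη := inU_ne p K hU
  have hhη : ∀ h : Gl p K, h η ≠ 0 := fun h h' => hη ((map_eq_zero h).mp h')
  have hx := xk_ne_zero p K
  have hP : InU p K (∏ h : Gl p K, (h η) ^ e h) :=
    inU_prod p K _ _ (fun h _ => inU_zpow p K (inU_gl p K h hU) _)
  have hwm : w ^ m = xk p K ^ (-j) * ∏ h : Gl p K, (h η) ^ e h := by
    rw [hw, ← mul_assoc, ← zpow_add₀ hx, neg_add_cancel, zpow_zero, one_mul]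
  have hwU : InU p K w := inU_root p K hm0 (by
    rw [hwm]
    exact inU_mul p K (inU_zpow p K (inU_xk p K) _) hP)
  have hw0 := inU_ne p K hwU
  obtain ⟨N, hN⟩ : ∃ N : (Gl p K ⧸ Subgroup.zpowers γ) → ℤ, N = fun _ => 1 := ⟨_, rfl⟩
  have hNlam : N ∈ lam hNI hq := by
    rw [hN]
    exact one_mem_lam hNI hq
  obtain ⟨S, hS⟩ : ∃ S : (Gl p K ⧸ Subgroup.zpowers γ) → ℤ, S = ∑ h : Gl p K, e h •
      rhoX (Gl p K) (Subgroup.zpowers γ) h (del (γ := γ)) := ⟨_, rfl⟩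
  have hE : θ S = j • N + m • Vx p K q γ w := by
    have h1 := congrArg (Vx p K q γ) hw
    rw [Vx_prod hNI hq _ _ (fun h => zpow_ne_zero _ (hhη h)),
      Vx_mul hNI hq (zpow_ne_zero _ hx) (pow_ne_zero _ hw0), Vx_pow hNI hq hw0,
      Vx_xk hNI hq] at h1
    have h2 : (fun _ : Gl p K ⧸ Subgroup.zpowers γ => j) = j • N := by
      rw [hN]
      funext c
      rw [Pi.smul_apply, smul_eq_mul, mul_one]
    rw [← h2, ← h1, hS, map_sum]
    refine Finset.sum_congr rfl (fun h _ => ?_)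
    rw [map_zsmul, hθ1, ← hV, Vx_zpow hNI hq (hhη h), Vx_gl hNI hq hη]
  obtain ⟨a, ha⟩ : ∃ a : ℤ, a = θ N ((1 : Gl p K) : Gl p K ⧸ Subgroup.zpowers γ) := ⟨_, rfl⟩
  have hθN : θ N = a • N := by
    funext c
    rw [inv_const _ _ (θ N) (fun g => by rw [← hθ1]; congr 1; rw [hN]; rfl) c, ← ha, hN,
      Pi.smul_apply, smul_eq_mul, mul_one]
  have hcop : IsCoprime a (m : ℤ) := by
    rw [Int.isCoprime_iff_gcd_eq_one]
    by_contra hne
    obtain ⟨l, hl, hld⟩ := Nat.exists_prime_and_dvd hne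
    have hla : (l : ℤ) ∣ a := (Int.natCast_dvd_natCast.mpr hld).trans (Int.gcd_dvd_left _ _)
    have hlm : l ∣ m := Int.natCast_dvd_natCast.mp
      ((Int.natCast_dvd_natCast.mpr hld).trans (Int.gcd_dvd_right _ _))
    obtain ⟨a', rfl⟩ := hla
    obtain ⟨m', rfl⟩ := hlm
    have hm' : 0 < m' := Nat.pos_of_mul_pos_left hm0
    obtain ⟨z, hz⟩ := hθ3 (m' • N) (a' • N) (AddSubgroup.zsmul_mem _ hNlam _) (by
      rw [map_nsmul, hθN]
      funext c
      simp only [Pi.smul_apply, nsmul_eq_mul, smul_eq_mul]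
      push_cast
      ring)
    have h3 := congrFun hz ((1 : Gl p K) : Gl p K ⧸ Subgroup.zpowers γ)
    rw [hN] at h3
    simp only [Pi.smul_apply, nsmul_eq_mul, mul_one] at h3
    push_cast at h3
    have h4 : (l : ℤ) * z ((1 : Gl p K) : Gl p K ⧸ Subgroup.zpowers γ) = 1 := by
      have h5 : (m' : ℤ) ≠ 0 := by exact_mod_cast hm'.ne'
      apply mul_left_cancel₀ h5
      rw [mul_one]
      linarith
    have h6 : (l : ℤ) ∣ 1 := ⟨_, h4.symm⟩
    have h7 : l ∣ 1 := by exact_mod_cast h6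
    exact hl.one_lt.ne' (Nat.dvd_one.mp h7)
  obtain ⟨u, v, huv⟩ := hcop
  obtain ⟨z, hz⟩ := hθ3 (S - (j * u) • N) ((j * v) • N + Vx p K q γ w)
    (AddSubgroup.add_mem _ (AddSubgroup.zsmul_mem _ hNlam _) ⟨w, hwU, rfl⟩) (by
      rw [map_sub, map_zsmul, hE, hθN]
      funext c
      rw [hN]
      simp only [Pi.sub_apply, Pi.add_apply, Pi.smul_apply, Pi.mul_apply, Pi.natCast_apply,
        nsmul_eq_mul, smul_eq_mul, mul_one]
      linear_combination (-j) * huv)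
  refine ⟨j * u, fun h0 => ?_⟩
  have h8 := congrFun hz (h0 : Gl p K ⧸ Subgroup.zpowers γ)
  rw [hN, hS] at h8
  simp only [Pi.sub_apply, Pi.smul_apply, nsmul_eq_mul, smul_eq_mul, mul_one,
    Finset.sum_apply] at h8
  have h9 : (∑ h : Gl p K, e h *
      rhoX (Gl p K) (Subgroup.zpowers γ) h (del (γ := γ)) (h0 : Gl p K ⧸ Subgroup.zpowers γ)) =
      ∑ i ∈ Finset.range (orderOf γ), e (h0 * γ ^ i) := by
    rw [← coset_sum]
    refine Finset.sum_congr rfl (fun h _ => ?_)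
    rw [rhoX_del]
    by_cases hh : (h0 : Gl p K ⧸ Subgroup.zpowers γ) = (h : Gl p K ⧸ Subgroup.zpowers γ)
    · rw [if_pos hh, if_pos hh.symm, mul_one]
    · rw [if_neg hh, if_neg (fun h' => hh h'.symm), mul_zero]
  rw [h9] at h8
  rw [Int.modEq_iff_dvd]
  exact ⟨-z (h0 : Gl p K ⧸ Subgroup.zpowers γ), by linear_combination -h8⟩

end Pool.Agent.AB
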