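import Pool.Agent.Lib.MP_5de024_nt.Lat
import Pool.Agent.Lib.MP_5de024_nt.Cls

/-!
# Units outside `x = 0` and functions on cosets (piece Eta)
-/

set_option autoImplicit false
set_option linter.unusedSectionVars false

namespace Pool.Agent.AB

section perm

variable (Γ : Type) [Group Γ] (D : Subgroup Γ)

/-- the action of `Γ` on the functions on the cosets -/
def rhoX : Γ →* AddMonoid.End ((Γ ⧸ D) → ℤ) where
  toFun g := { toFun := fun f c => f (g⁻¹ • c), map_zero' := rfl, map_add' := fun _ _ => rfl }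
  map_one' := by
    refine AddMonoidHom.ext fun f => funext fun c => ?_
    change f ((1 : Γ)⁻¹ • c) = f c
    rw [inv_one, one_smul]
  map_mul' g h := by
    refine AddMonoidHom.ext fun f => funext fun c => ?_
    change f ((g * h)⁻¹ • c) = f (h⁻¹ • g⁻¹ • c)
    rw [mul_inv_rev, mul_smul]

theorem rhoX_apply (g : Γ) (f : (Γ ⧸ D) → ℤ) (c : Γ ⧸ D) : rhoX Γ D g f c = f (g⁻¹ • c) := rfl

/-- an invariant function is constant -/
theorem inv_const (f : (Γ ⧸ D) → ℤ) (h : ∀ g : Γ, rhoX Γ D g f = f) (c : Γ ⧸ D) :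
    f c = f ((1 : Γ) : Γ ⧸ D) := by
  induction c using QuotientGroup.induction_on with
  | H g =>
    have h1 := congrFun (h g) (g : Γ ⧸ D)
    rw [rhoX_apply] at h1
    rw [← h1]
    congr 1
    change ((g⁻¹ * g : Γ) : Γ ⧸ D) = _
    rw [inv_mul_cancel]

end perm

/-- sums over a coset of a cyclic group -/
theorem coset_sum (Γ : Type) [Group Γ] [Fintype Γ] [DecidableEq Γ] (γ : Γ)
    [DecidableEq (Γ ⧸ Subgroup.zpowers γ)] (e : Γ → ℤ) (h0 : Γ) :
    (∑ h : Γ, if (h : Γ ⧸ Subgroup.zpowers γ) = (h0 : Γ ⧸ Subgroup.zpowers γ) then e h else 0) =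
      ∑ i ∈ Finset.range (orderOf γ), e (h0 * γ ^ i) := by
  rw [← Finset.sum_filter]
  symm
  refine Finset.sum_nbij (fun i => h0 * γ ^ i) ?_ ?_ ?_ ?_
  · intro i _
    rw [Finset.mem_filter]
    refine ⟨Finset.mem_univ _, ?_⟩
    rw [eq_comm, QuotientGroup.eq, inv_mul_cancel_left]
    exact Subgroup.npow_mem_zpowers γ i
  · intro i hi j hj hij
    rw [Finset.coe_range, Set.mem_Iio] at hi hj
    exact pow_injOn_Iio_orderOf hi hj (mul_left_cancel hij)
  · intro h hh
    rw [Finset.coe_filter, Set.mem_ofPred_eq] at hh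
    have h1 := hh.2
    rw [eq_comm, QuotientGroup.eq, mem_zpowers_iff_mem_range_orderOf, Finset.mem_image] at h1
    obtain ⟨i, hi, hi2⟩ := h1
    refine ⟨i, Finset.mem_coe.mpr hi, ?_⟩
    change h0 * γ ^ i = h
    rw [hi2, mul_inv_cancel_left]
  · intro i _
    rfl

variable (p : ℕ) [Fact p.Prime] (K : Type) [Field K] [Algebra (Fx p) K] [Algebra (Rx p) K]
  [IsScalarTower (Rx p) (Fx p) K]

/-! ### The group of units outside `x = 0` -/

/-- a unit outside `x = 0` -/
def InU (u : K) : Prop :=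
  ∃ (n : ℕ) (a b : Oc p K), u * (xo p K ^ n : Oc p K) = a ∧ a * b = xo p K ^ (2 * n)

theorem xo_ne : xo p K ≠ 0 := by
  intro h
  have h1 := congrArg (fun s : Oc p K => (s : K)) h
  simp only [xo_coe, ZeroMemClass.coe_zero] at h1
  exact xk_ne_zero p K h1

theorem xo_pow_coe (n : ℕ) : ((xo p K ^ n : Oc p K) : K) = xk p K ^ n := by
  rw [SubmonoidClass.coe_pow, xo_coe]

/-- the same with the inverse -/
theorem inU_iff (u : K) : InU p K u ↔
    u ≠ 0 ∧ ∃ (n : ℕ) (a b : Oc p K), u * xk p K ^ n = a ∧ u⁻¹ * xk p K ^ n = b := by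
  have hx := xk_ne_zero p K
  constructor
  · rintro ⟨n, a, b, h1, h2⟩
    rw [xo_pow_coe] at h1
    have h3 : (a : K) * (b : K) = xk p K ^ (2 * n) := by
      rw [← xo_pow_coe, ← h2]
      rfl
    have hu : u ≠ 0 := by
      rintro rfl
      rw [← h1, zero_mul, zero_mul] at h3
      exact pow_ne_zero _ hx h3.symm
    refine ⟨hu, n, a, b, h1, ?_⟩
    rw [← h1, two_mul, pow_add, mul_right_comm] at h3
    have h4 : u * (b : K) = xk p K ^ n := mul_right_cancel₀ (pow_ne_zero n hx) h3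
    rw [← h4, inv_mul_cancel_left₀ hu]
  · rintro ⟨hu, n, a, b, h1, h2⟩
    refine ⟨n, a, b, ?_, ?_⟩
    · rw [xo_pow_coe, h1]
    · apply Subtype.ext
      rw [xo_pow_coe]
      change (a : K) * (b : K) = _
      rw [← h1, ← h2, two_mul, pow_add]
      field_simp

theorem inU_ne {u : K} (h : InU p K u) : u ≠ 0 := ((inU_iff p K u).mp h).1

theorem inU_one : InU p K 1 := (inU_iff p K 1).mpr ⟨one_ne_zero, 0, 1, 1, by simp, by simp⟩

theorem inU_mul {u v : K} (hu : InU p K u) (hv : InU p K v) : InU p K (u * v) := by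
  obtain ⟨h1, n, a, b, ha, hb⟩ := (inU_iff p K u).mp hu
  obtain ⟨h2, n', a', b', ha', hb'⟩ := (inU_iff p K v).mp hv
  refine (inU_iff p K _).mpr ⟨mul_ne_zero h1 h2, n + n', a * a', b * b', ?_, ?_⟩
  · change _ = (a : K) * (a' : K)
    rw [← ha, ← ha', pow_add]
    ring
  · change _ = (b : K) * (b' : K)
    rw [← hb, ← hb', pow_add, mul_inv]
    ring

theorem inU_inv {u : K} (hu : InU p K u) : InU p K u⁻¹ := by
  obtain ⟨h1, n, a, b, ha, hb⟩ := (inU_iff p K u).mp hu
  refine (inU_iff p K _).mpr ⟨inv_ne_zero h1, n, b, a, hb, ?_⟩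
  rw [inv_inv]
  exact ha

theorem inU_pow {u : K} (hu : InU p K u) (n : ℕ) : InU p K (u ^ n) := by
  induction n with
  | zero =>
    rw [pow_zero]
    exact inU_one p K
  | succ n ih =>
    rw [pow_succ]
    exact inU_mul p K ih hu

theorem inU_zpow {u : K} (hu : InU p K u) (n : ℤ) : InU p K (u ^ n) := by
  cases n with
  | ofNat n =>
    rw [Int.ofNat_eq_natCast, zpow_natCast]
    exact inU_pow p K hu n
  | negSucc n =>
    rw [zpow_negSucc]
    exact inU_inv p K (inU_pow p K hu _)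

theorem inU_prod {J : Type} (s : Finset J) (u : J → K) (h : ∀ j ∈ s, InU p K (u j)) :
    InU p K (∏ j ∈ s, u j) :=
  Finset.prod_induction u (InU p K) (fun _ _ => inU_mul p K) (inU_one p K) h

theorem inU_gl (σ : Gl p K) {u : K} (hu : InU p K u) : InU p K (σ u) := by
  obtain ⟨h1, n, a, b, ha, hb⟩ := (inU_iff p K u).mp hu
  refine (inU_iff p K _).mpr ⟨fun h => h1 ((map_eq_zero σ).mp h), n, act p K σ a, act p K σ b,
    ?_, ?_⟩
  · rw [act_coe, ← ha, map_mul, map_pow, gl_xk]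
  · rw [act_coe, ← hb, map_mul, map_pow, gl_xk, map_inv₀]

theorem inU_xk : InU p K (xk p K) := by
  refine (inU_iff p K _).mpr ⟨xk_ne_zero p K, 1, xo p K ^ 2, 1, ?_, ?_⟩
  · rw [xo_pow_coe, pow_one, sq]
  · rw [pow_one, inv_mul_cancel₀ (xk_ne_zero p K)]
    rfl

/-- the group is closed under roots -/
theorem inU_root {w : K} {m : ℕ} (hm : 0 < m) (h : InU p K (w ^ m)) : InU p K w := by
  obtain ⟨h1, n, a, b, ha, hb⟩ := (inU_iff p K _).mp h
  have hw : w ≠ 0 := by
    rintro rfl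
    exact h1 (zero_pow hm.ne')
  have key : ∀ (v : K) (c : Oc p K), v ^ m * xk p K ^ n = c →
      ∃ c' : Oc p K, v * xk p K ^ n = c' := by
    intro v c hc
    have h2 : (v * xk p K ^ n) ^ m = ((xo p K ^ (n * (m - 1)) * c : Oc p K) : K) := by
      obtain ⟨k, rfl⟩ : ∃ k, m = k + 1 := ⟨m - 1, by omega⟩
      change _ = ((xo p K ^ (n * (k + 1 - 1)) : Oc p K) : K) * (c : K)
      rw [xo_pow_coe, ← hc, Nat.add_sub_cancel, mul_pow, ← pow_mul, mul_left_comm, ← pow_add]
      congr 2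
    have h3 : IsIntegral (Rx p) ((v * xk p K ^ n) ^ m) := by
      rw [h2]
      exact (xo p K ^ (n * (m - 1)) * c : Oc p K).2
    exact ⟨⟨_, IsIntegral.of_pow hm h3⟩, rfl⟩
  obtain ⟨a', ha'⟩ := key w a ha
  obtain ⟨b', hb'⟩ := key w⁻¹ b (by rw [inv_pow]; exact hb)
  exact (inU_iff p K _).mpr ⟨hw, n, a', b', ha', hb'⟩

end Pool.Agent.AB
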