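import Pool.Agent.Lib.MP_5de024_nt.EtaU

/-!
# The values at the conjugates of `q` (piece Eta)
-/

set_option autoImplicit false
set_option linter.unusedSectionVars false

namespace Pool.Agent.AB

variable (p : ℕ) [Fact p.Prime] (K : Type) [Field K] [Algebra (Fx p) K] [Algebra (Rx p) K]
  [IsScalarTower (Rx p) (Fx p) K]

open Classical in
/-- the valuation at `q` -/
noncomputable def vq (q : Ideal (Oc p K)) (u : K) : ℤ :=
  if h : ∃ k, IsVl p K q u k then h.choose else 0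

variable {p K} in
theorem vq_eq {q : Ideal (Oc p K)} {γ : Gl p K} (hq : Pl p K q γ) {u : K} {k : ℤ}
    (h : IsVl p K q u k) : vq p K q u = k := by
  have h1 : ∃ k, IsVl p K q u k := ⟨k, h⟩
  rw [vq, dif_pos h1]
  exact vl_unique p K q hq.1.isPrime hq.2.1 u _ _ h1.choose_spec h

/-- the values at all conjugates of `q` -/
noncomputable def Vx (q : Ideal (Oc p K)) (γ : Gl p K) (u : K) :
    (Gl p K ⧸ Subgroup.zpowers γ) → ℤ := fun c => vq p K q ((Quotient.out c)⁻¹ u)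

section

variable {p K}
variable [FiniteDimensional (Fx p) K] [IsGalois (Fx p) K] (hNI : NI p K)
  {q : Ideal (Oc p K)} {γ : Gl p K} (hq : Pl p K q γ)

include hNI hq

theorem vq_spec {u : K} (hu : u ≠ 0) : IsVl p K q u (vq p K q u) := by
  obtain ⟨k, hk⟩ := exists_vl p K hNI q hq.1.isPrime hq.2.1 u hu
  rw [vq_eq hq hk]
  exact hk

theorem vq_mul {u v : K} (hu : u ≠ 0) (hv : v ≠ 0) :
    vq p K q (u * v) = vq p K q u + vq p K q v :=
  vq_eq hq (vl_mul p K q hq.1.isPrime u v _ _ (vq_spec hNI hq hu) (vq_spec hNI hq hv))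

theorem vq_frob {u : K} (hu : u ≠ 0) : vq p K q (γ u) = vq p K q u :=
  vq_eq hq (vl_frob p K q γ hq u _ (vq_spec hNI hq hu))

theorem vq_dec {u : K} (hu : u ≠ 0) (d : Gl p K) (hd : d ∈ Subgroup.zpowers γ) :
    vq p K q (d u) = vq p K q u := by
  have h1 : ∀ i : ℕ, vq p K q ((γ ^ i) u) = vq p K q u := by
    intro i
    induction i with
    | zero => rw [pow_zero]; rfl
    | succ i ih =>
      have h2 : (γ ^ (i + 1)) u = γ ((γ ^ i) u) := by
        rw [pow_succ']
        rfl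
      rw [h2, vq_frob hNI hq, ih]
      exact fun h => hu ((map_eq_zero (γ ^ i)).mp h)
  have : Finite (Gl p K) := inferInstance
  rw [← mem_powers_iff_mem_zpowers, Submonoid.mem_powers_iff] at hd
  obtain ⟨i, rfl⟩ := hd
  exact h1 i

theorem Vx_mk {u : K} (hu : u ≠ 0) (h : Gl p K) :
    Vx p K q γ u (h : Gl p K ⧸ Subgroup.zpowers γ) = vq p K q (h⁻¹ u) := by
  obtain ⟨d, hd⟩ := QuotientGroup.mk_out_eq_mul (Subgroup.zpowers γ) h
  have h1 : Vx p K q γ u (h : Gl p K ⧸ Subgroup.zpowers γ) =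
      vq p K q ((Quotient.out (h : Gl p K ⧸ Subgroup.zpowers γ))⁻¹ u) := rfl
  rw [h1, hd, mul_inv_rev]
  change vq p K q ((d : Gl p K)⁻¹ (h⁻¹ u)) = _
  refine vq_dec hNI hq ?_ _ (Subgroup.inv_mem _ d.2)
  exact fun h' => hu ((map_eq_zero (h⁻¹)).mp h')

theorem Vx_mul {u v : K} (hu : u ≠ 0) (hv : v ≠ 0) :
    Vx p K q γ (u * v) = Vx p K q γ u + Vx p K q γ v := by
  funext c
  change vq p K q (_) = vq p K q (_) + vq p K q (_)
  rw [map_mul, vq_mul hNI hq]
  · exact fun h => hu ((map_eq_zero _).mp h)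
  · exact fun h => hv ((map_eq_zero _).mp h)

theorem Vx_one : Vx p K q γ 1 = 0 := by
  have h := Vx_mul hNI hq (one_ne_zero (α := K)) (one_ne_zero (α := K))
  rw [one_mul] at h
  exact left_eq_add.mp h

theorem Vx_inv {u : K} (hu : u ≠ 0) : Vx p K q γ u⁻¹ = - Vx p K q γ u := by
  have h := Vx_mul hNI hq hu (inv_ne_zero hu)
  rw [mul_inv_cancel₀ hu, Vx_one hNI hq] at h
  exact (neg_eq_of_add_eq_zero_right h.symm).symm

theorem Vx_pow {u : K} (hu : u ≠ 0) (n : ℕ) : Vx p K q γ (u ^ n) = n • Vx p K q γ u := by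
  induction n with
  | zero => rw [pow_zero, zero_smul, Vx_one hNI hq]
  | succ n ih => rw [pow_succ, Vx_mul hNI hq (pow_ne_zero n hu) hu, ih, succ_nsmul]

theorem Vx_zpow {u : K} (hu : u ≠ 0) (n : ℤ) : Vx p K q γ (u ^ n) = n • Vx p K q γ u := by
  cases n with
  | ofNat n => rw [Int.ofNat_eq_natCast, zpow_natCast, Vx_pow hNI hq hu, natCast_zsmul]
  | negSucc n =>
    rw [zpow_negSucc, Vx_inv hNI hq (pow_ne_zero _ hu), Vx_pow hNI hq hu, negSucc_zsmul]

theorem Vx_prod {J : Type} (s : Finset J) (u : J → K) (h : ∀ j, u j ≠ 0) :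
    Vx p K q γ (∏ j ∈ s, u j) = ∑ j ∈ s, Vx p K q γ (u j) := by
  classical
  induction s using Finset.induction_on with
  | empty => rw [Finset.prod_empty, Finset.sum_empty, Vx_one hNI hq]
  | insert a s ha ih =>
    rw [Finset.prod_insert ha, Finset.sum_insert ha, Vx_mul hNI hq (h a), ih]
    exact Finset.prod_ne_zero_iff.mpr (fun j _ => h j)

theorem Vx_gl {u : K} (hu : u ≠ 0) (σ : Gl p K) :
    Vx p K q γ (σ u) = rhoX (Gl p K) (Subgroup.zpowers γ) σ (Vx p K q γ u) := by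
  funext c
  induction c using QuotientGroup.induction_on with
  | H h =>
    have h1 : σ⁻¹ • (h : Gl p K ⧸ Subgroup.zpowers γ) =
        ((σ⁻¹ * h : Gl p K) : Gl p K ⧸ Subgroup.zpowers γ) := rfl
    rw [rhoX_apply, h1, Vx_mk hNI hq hu, Vx_mk hNI hq (fun h => hu ((map_eq_zero _).mp h)),
      mul_inv_rev, inv_inv]
    rfl

end

end Pool.Agent.AB
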