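import Mathlib

/-!
# Group theory (piece Grp)
-/

set_option autoImplicit false

namespace Pool.Agent.AB

/-- a finite group of exponent dividing `m` has order prime to everything prime to `m` -/
theorem card_coprime_of_pow (A : Type) [Group A] [Finite A] (m n : ℕ)
    (h : ∀ a : A, a ^ m = 1) (hco : n.Coprime m) : (Nat.card A).Coprime n := by
  refine Nat.coprime_of_dvd fun q hq hqA hqn => ?_
  have := Fact.mk hq
  obtain ⟨a, ha⟩ := exists_prime_orderOf_dvd_card' q hqA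
  have h1 : q ∣ m := by
    rw [← ha]
    exact orderOf_dvd_of_pow_eq_one (h a)
  have h2 : q ∣ 1 := by
    rw [← Nat.coprime_iff_gcd_eq_one.1 hco]
    exact Nat.dvd_gcd hqn h1
  exact hq.one_lt.ne' (Nat.dvd_one.1 h2)

/-- a homomorphism with kernel of order prime to the order of the target has a section -/
theorem exists_section (Gh Γ : Type) [Group Gh] [Finite Gh] [Group Γ] [Finite Γ]
    (ρ : Gh →* Γ) (hρ : Function.Surjective ρ)
    (hco : (Nat.card ρ.ker).Coprime (Nat.card Γ)) : ∃ β : Γ →* Gh, ∀ γ, ρ (β γ) = γ := by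
  have hidx : ρ.ker.index = Nat.card Γ := by
    rw [Subgroup.index_ker, MonoidHom.range_eq_top.2 hρ]
    exact Nat.card_congr Subgroup.topEquiv.toEquiv
  obtain ⟨B, hB⟩ := Subgroup.exists_right_complement'_of_coprime (N := ρ.ker) (by rwa [hidx])
  have hbij : Function.Bijective (ρ.comp B.subtype) := by
    constructor
    · rw [injective_iff_map_eq_one]
      intro b hb
      have h1 : (b : Gh) ∈ ρ.ker ⊓ B := ⟨hb, b.2⟩
      rw [hB.disjoint.eq_bot, Subgroup.mem_bot] at h1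
      exact Subtype.ext h1
    · intro γ
      obtain ⟨s, hs⟩ := hρ γ
      obtain ⟨⟨t, b⟩, htb⟩ := hB.2 s
      refine ⟨b, ?_⟩
      have h1 : ρ s = ρ b := by
        rw [← htb]
        change ρ ((t : Gh) * (b : Gh)) = ρ b
        rw [map_mul, (ρ.mem_ker).1 t.2, one_mul]
      rw [MonoidHom.comp_apply, Subgroup.subtype_apply, ← h1, hs]
  set f := MulEquiv.ofBijective (ρ.comp B.subtype) hbij with hf
  refine ⟨B.subtype.comp f.symm.toMonoidHom, fun γ => ?_⟩
  have h2 := f.apply_symm_apply γ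
  exact h2

/-- glueing by Schur - Zassenhaus -/
theorem glue (Gh Γ N P : Type) [Group Gh] [Finite Gh] [Group Γ] [Finite Γ] [CommGroup N]
    [Group P] (φ : P →* MulAut N) (ρ : Gh →* Γ) (hρ : Function.Surjective ρ)
    (hco : (Nat.card ρ.ker).Coprime (Nat.card Γ)) (Ψ : ρ.ker →* N)
    (hΨ : Function.Surjective Ψ) (π : Γ →* P) (hπ : Function.Surjective π)
    (heq : ∀ (s : Gh) (τ τ' : ρ.ker), (τ' : Gh) = s * τ * s⁻¹ →
      Ψ τ' = φ (π (ρ s)) (Ψ τ)) :
    ∃ Φ : Gh →* N ⋊[φ] P, Function.Surjective Φ := by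
  obtain ⟨β, hβ⟩ := exists_section Gh Γ ρ hρ hco
  have hk : ∀ s : Gh, s * (β (ρ s))⁻¹ ∈ ρ.ker := by
    intro s
    rw [MonoidHom.mem_ker, map_mul, map_inv, hβ, mul_inv_cancel]
  have hmul : ∀ s s' : Gh, (⟨s * s' * (β (ρ (s * s')))⁻¹, hk (s * s')⟩ : ρ.ker) =
      ⟨s * (β (ρ s))⁻¹, hk s⟩ *
        ⟨β (ρ s) * (s' * (β (ρ s'))⁻¹) * (β (ρ s))⁻¹,
          (MonoidHom.normal_ker ρ).conj_mem _ (hk s') _⟩ := by
    intro s s'
    apply Subtype.ext
    change s * s' * (β (ρ (s * s')))⁻¹ =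
      s * (β (ρ s))⁻¹ * (β (ρ s) * (s' * (β (ρ s'))⁻¹) * (β (ρ s))⁻¹)
    rw [map_mul, map_mul]
    group
  refine ⟨{ toFun := fun s => ⟨Ψ ⟨s * (β (ρ s))⁻¹, hk s⟩, π (ρ s)⟩
            map_one' := ?_
            map_mul' := fun s s' => ?_ }, ?_⟩
  · have h1 : (⟨1 * (β (ρ 1))⁻¹, hk 1⟩ : ρ.ker) = 1 := by
      apply Subtype.ext
      change 1 * (β (ρ 1))⁻¹ = 1
      rw [map_one, map_one, inv_one, mul_one]
    refine SemidirectProduct.ext ?_ ?_
    · change Ψ ⟨1 * (β (ρ 1))⁻¹, hk 1⟩ = 1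
      rw [h1, map_one]
    · change π (ρ 1) = 1
      rw [map_one, map_one]
  · refine SemidirectProduct.ext ?_ ?_
    · change Ψ ⟨s * s' * (β (ρ (s * s')))⁻¹, hk (s * s')⟩ =
        Ψ ⟨s * (β (ρ s))⁻¹, hk s⟩ * φ (π (ρ s)) (Ψ ⟨s' * (β (ρ s'))⁻¹, hk s'⟩)
      rw [hmul, map_mul]
      congr 1
      have h2 := heq (β (ρ s)) ⟨s' * (β (ρ s'))⁻¹, hk s'⟩
        ⟨β (ρ s) * (s' * (β (ρ s'))⁻¹) * (β (ρ s))⁻¹,
          (MonoidHom.normal_ker ρ).conj_mem _ (hk s') _⟩ rfl
      rw [hβ] at h2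
      exact h2
    · change π (ρ (s * s')) = π (ρ s) * π (ρ s')
      rw [map_mul, map_mul]
  · rintro ⟨n, g⟩
    obtain ⟨t, ht⟩ := hΨ n
    obtain ⟨γ, hγ⟩ := hπ g
    have h1 : ρ ((t : Gh) * β γ) = γ := by
      rw [map_mul, (ρ.mem_ker).1 t.2, one_mul, hβ]
    refine ⟨t * β γ, ?_⟩
    refine SemidirectProduct.ext ?_ ?_
    · change Ψ ⟨(t : Gh) * β γ * (β (ρ ((t : Gh) * β γ)))⁻¹, hk _⟩ = n
      have h2 : (⟨(t : Gh) * β γ * (β (ρ ((t : Gh) * β γ)))⁻¹, hk _⟩ : ρ.ker) = t := by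
        apply Subtype.ext
        change (t : Gh) * β γ * (β (ρ ((t : Gh) * β γ)))⁻¹ = t
        rw [h1, mul_inv_cancel_right]
      rw [h2, ht]
    · change π (ρ ((t : Gh) * β γ)) = g
      rw [h1, hγ]

/-- the group `E` as a semidirect product and the properties used in the construction -/
theorem split_data (p : ℕ) [Fact p.Prime] (E : Type) [Group E] [Finite E]
    (hE : Subgroup.closure {g : E | ∃ n : ℕ, g ^ (p ^ n) = 1} = ⊤) (N : Subgroup E)
    [N.Normal] (hab : ∀ a ∈ N, ∀ b ∈ N, a * b = b * a) (hcop : (Nat.card N).Coprime p)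
    (hEN : IsPGroup p (E ⧸ N)) (v : E) (hv : Subgroup.normalClosure {v} = N) (g : E)
    (hg : g * v * g⁻¹ = v ^ p) :
    ∃ (A P : Type) (_ : CommGroup A) (_ : Finite A) (_ : Group P) (_ : Finite P)
      (φ : P →* MulAut A) (w : A) (g0 : P) (m : ℕ),
      Nonempty (A ⋊[φ] P ≃* E) ∧ IsPGroup p P ∧ m.Coprime p ∧ (∀ n : A, n ^ m = 1) ∧
      φ g0 w = w ^ p ∧ Subgroup.closure (Set.range fun g : P => φ g w) = ⊤ ∧
      (∃ k : ℕ, p ^ p ^ k ≡ 1 [MOD m]) ∧
      (∀ (K : Type) (_ : Field K) (χ : A →* Kˣ),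
        (∀ (g : P) (n : A), χ (φ g n) = χ n) → χ = 1) := by
  -- the complement
  have hidx : N.index = Nat.card (E ⧸ N) := rfl
  obtain ⟨j, hj⟩ := (IsPGroup.iff_card (p := p) (G := E ⧸ N)).1 hEN
  obtain ⟨H, hH⟩ := Subgroup.exists_right_complement'_of_coprime (N := N) (by
    rw [hidx, hj]
    exact Nat.Coprime.pow_right j hcop)
  have hdec : ∀ x : E, ∃ n ∈ N, ∃ b ∈ H, x = n * b := by
    intro x
    obtain ⟨⟨n, b⟩, hnb⟩ := hH.2 x
    exact ⟨n, n.2, b, b.2, hnb.symm⟩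
  have hvN : v ∈ N := by
    rw [← hv]
    exact Subgroup.subset_normalClosure (Set.mem_singleton v)
  have hnorm : ∀ x : E, ∀ n ∈ N, x * n * x⁻¹ ∈ N := fun x n hn =>
    (inferInstance : N.Normal).conj_mem n hn x
  -- N acts trivially on itself
  have hconj : ∀ n ∈ N, ∀ a ∈ N, n * a * n⁻¹ = a := by
    intro n hn a ha
    rw [hab n hn a ha, mul_inv_cancel_right]
  have hconj2 : ∀ n ∈ N, ∀ b : E, ∀ a ∈ N, (n * b) * a * (n * b)⁻¹ = b * a * b⁻¹ := by
    intro n hn b a ha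
    have h1 := hconj n hn (b * a * b⁻¹) (hnorm b a ha)
    rw [← h1]
    group
  obtain ⟨n0, hn0, b0, hb0, hgd⟩ := hdec g
  let iA : CommGroup N :=
    { (inferInstance : Group N) with
      mul_comm := fun a b => Subtype.ext (hab a a.2 b b.2) }
  set φ : H →* MulAut N := (MulAut.conjNormal (H := N)).comp H.subtype with hφ
  have hφa : ∀ (b : H) (a : N), ((φ b a : N) : E) = b * a * (b : E)⁻¹ := by
    intro b a
    rw [hφ, MonoidHom.comp_apply]
    exact MulAut.conjNormal_apply _ _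
  -- the isomorphism
  set F : N ⋊[φ] H →* E := SemidirectProduct.lift N.subtype H.subtype (by
    intro b
    ext a
    change ((φ b a : N) : E) = b * a * (b : E)⁻¹
    exact hφa b a) with hF
  have hFa : ∀ x : N ⋊[φ] H, F x = x.left * x.right := fun x => rfl
  have hFbij : Function.Bijective F := by
    constructor
    · intro x y hxy
      rw [hFa, hFa] at hxy
      have h1 := hH.1 (a₁ := (x.left, x.right)) (a₂ := (y.left, y.right)) hxy
      rw [Prod.mk.injEq] at h1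
      exact SemidirectProduct.ext h1.1 h1.2
    · intro x
      obtain ⟨n, hn, b, hb, hx⟩ := hdec x
      exact ⟨⟨⟨n, hn⟩, ⟨b, hb⟩⟩, hx.symm⟩
  set w : N := ⟨v, hvN⟩ with hw
  set m : ℕ := orderOf w with hm
  have hmp : m.Coprime p := by
    have h1 : m ∣ Nat.card N := orderOf_dvd_natCard w
    exact Nat.Coprime.coprime_dvd_left h1 hcop
  have hvm : v ^ m = 1 := by
    have h1 : w ^ m = 1 := pow_orderOf_eq_one w
    have h2 := congrArg (fun x : N => (x : E)) h1
    exact h2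
  -- everything has order dividing m
  have hall : ∀ n : N, n ^ m = 1 := by
    set C : Subgroup E :=
      { carrier := {x | x ∈ N ∧ x ^ m = 1}
        one_mem' := ⟨N.one_mem, one_pow m⟩
        mul_mem' := by
          rintro x y ⟨hx, hx1⟩ ⟨hy, hy1⟩
          refine ⟨N.mul_mem hx hy, ?_⟩
          rw [(show Commute x y from hab x hx y hy).mul_pow, hx1, hy1, one_mul]
        inv_mem' := by
          rintro x ⟨hx, hx1⟩
          exact ⟨N.inv_mem hx, by rw [inv_pow, hx1, inv_one]⟩ } with hC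
    have hCn : C.Normal := by
      constructor
      rintro x ⟨hx, hx1⟩ y
      refine ⟨hnorm y x hx, ?_⟩
      rw [conj_pow, hx1, mul_one, mul_inv_cancel]
    have h1 : N ≤ C := by
      rw [← hv]
      refine Subgroup.normalClosure_le_normal ?_
      rw [Set.singleton_subset_iff]
      exact ⟨hvN, hvm⟩
    intro n
    apply Subtype.ext
    exact (h1 n.2).2
  have hg0 : φ ⟨b0, hb0⟩ w = w ^ p := by
    apply Subtype.ext
    rw [hφa]
    change b0 * v * b0⁻¹ = v ^ p
    rw [← hg, hgd]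
    exact (hconj2 n0 hn0 b0 v hvN).symm
  have hclo : Subgroup.closure (Set.range fun b : H => φ b w) = ⊤ := by
    rw [eq_top_iff]
    intro n _
    have h1 : N ≤ (Subgroup.closure (Set.range fun b : H => φ b w)).map N.subtype := by
      conv_lhs => rw [← hv]
      rw [Subgroup.normalClosure, Subgroup.closure_le]
      intro x hx
      rw [Group.mem_conjugatesOfSet_iff] at hx
      obtain ⟨a, ha, hax⟩ := hx
      rw [Set.mem_singleton_iff] at ha
      subst ha
      obtain ⟨c, hc⟩ := isConj_iff.1 hax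
      obtain ⟨n', hn', b, hb, hcd⟩ := hdec c
      refine ⟨φ ⟨b, hb⟩ w, Subgroup.subset_closure ⟨⟨b, hb⟩, rfl⟩, ?_⟩
      rw [Subgroup.subtype_apply, hφa]
      change b * a * b⁻¹ = x
      rw [← hc, hcd]
      exact (hconj2 n' hn' b a hvN).symm
    obtain ⟨y, hy, hyn⟩ := h1 n.2
    have h2 : y = n := Subtype.ext hyn
    rwa [← h2]
  have hPH : IsPGroup p H := by
    refine IsPGroup.of_injective hEN ((QuotientGroup.mk' N).comp H.subtype) ?_
    rw [injective_iff_map_eq_one]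
    intro b hb
    have h1 : (b : E) ∈ N ⊓ H := by
      refine ⟨?_, b.2⟩
      rw [MonoidHom.comp_apply] at hb
      exact (QuotientGroup.eq_one_iff _).1 hb
    rw [hH.disjoint.eq_bot, Subgroup.mem_bot] at h1
    exact Subtype.ext h1
  have hpow : ∀ i : ℕ, φ ((⟨b0, hb0⟩ : H) ^ i) w = w ^ p ^ i := by
    intro i
    induction i with
    | zero => rw [pow_zero, map_one, pow_zero, pow_one]; rfl
    | succ i ih =>
      rw [pow_succ, map_mul, MulAut.mul_apply, hg0, map_pow, ih, ← pow_mul, ← pow_succ]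
  refine ⟨N, H, iA, inferInstance, inferInstance, inferInstance, φ, w, ⟨b0, hb0⟩, m,
    ⟨MulEquiv.ofBijective F hFbij⟩, hPH, hmp, hall, hg0, hclo, ?_, ?_⟩
  · obtain ⟨k, hk⟩ := hPH ⟨b0, hb0⟩
    refine ⟨k, ?_⟩
    have h1 := hpow (p ^ k)
    rw [hk, map_one] at h1
    have h2 : w ^ p ^ p ^ k = w ^ 1 := by
      rw [← h1, pow_one]
      rfl
    exact pow_eq_pow_iff_modEq.1 h2
  · intro K _ χ hχ
    set X : N ⋊[φ] H →* Kˣ := SemidirectProduct.lift χ 1 (by
      intro b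
      ext a
      change ((χ (φ b a) : Kˣ) : K) = ((1 * χ a * 1⁻¹ : Kˣ) : K)
      rw [hχ, one_mul, inv_one, mul_one]) with hX
    set f := MulEquiv.ofBijective F hFbij with hf
    have hXm : ∀ x, X x ^ m = 1 := by
      intro x
      change (χ x.left * 1) ^ m = 1
      rw [mul_one, ← map_pow, hall, map_one]
    have hY : (X.comp f.symm.toMonoidHom) = 1 := by
      refine MonoidHom.eq_of_eqOn_dense hE ?_
      rintro x ⟨n, hx⟩
      set y := (X.comp f.symm.toMonoidHom) x with hy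
      have h1 : y ^ m = 1 := hXm _
      have h2 : y ^ p ^ n = 1 := by
        rw [hy, ← map_pow, hx, map_one]
      have h3 : orderOf y ∣ 1 := by
        have h4 : Nat.Coprime m (p ^ n) := Nat.Coprime.pow_right n hmp
        rw [← Nat.coprime_iff_gcd_eq_one.1 h4]
        exact Nat.dvd_gcd (orderOf_dvd_of_pow_eq_one h1) (orderOf_dvd_of_pow_eq_one h2)
      exact orderOf_eq_one_iff.1 (Nat.dvd_one.1 h3)
    ext a
    have h5 := DFunLike.congr_fun hY (f (SemidirectProduct.inl a))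
    have h6 : (X.comp f.symm.toMonoidHom) (f (SemidirectProduct.inl a)) = χ a := by
      change X (f.symm (f (SemidirectProduct.inl a))) = χ a
      rw [MulEquiv.symm_apply_apply, hX, SemidirectProduct.lift_inl]
    rw [h6] at h5
    rw [h5]
    rfl

end Pool.Agent.AB
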