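import Pool.Agent.Lib.MP_5de024_nt.Eta
import Pool.Agent.Lib.MP_5de024_nt.Bc2

/-!
# From `PC` to `KD` (piece KdOf)
-/

set_option autoImplicit false
set_option linter.unusedSectionVars false

namespace Pool.Agent.AB

section aux

variable (p : ℕ) [Fact p.Prime] (K : Type) [Field K] [Algebra (Fx p) K] [Algebra (Rx p) K]
  [IsScalarTower (Rx p) (Fx p) K]

theorem pos_of_coprime (m : ℕ) (hm : m.Coprime p) : 0 < m := by
  rcases Nat.eq_zero_or_pos m with rfl | h
  · rw [Nat.coprime_zero_left] at hm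
    exact absurd hm (Fact.out : p.Prime).one_lt.ne'
  · exact h

/-- a root of unity as an element of the ring of integers -/
noncomputable def rou (m : ℕ) (hm : 0 < m) (ζ : K) (hζ : ζ ^ m = 1) : Oc p K :=
  ⟨ζ, IsIntegral.of_pow hm (by rw [hζ]; exact isIntegral_one)⟩

/-- the Frobenius element of a place acts on roots of unity as the `p`-th power -/
theorem frob_rou (m : ℕ) (hmp : m.Coprime p) (ζ : K) (hζ : IsPrimitiveRoot ζ m)
    (q : Ideal (Oc p K)) (γ : Gl p K) (hq : Pl p K q γ) : γ ζ = ζ ^ p := by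
  have hm := pos_of_coprime p m hmp
  have h1 : (γ ζ) ^ m = 1 := by rw [← map_pow, hζ.pow_eq_one, map_one]
  have : NeZero m := ⟨hm.ne'⟩
  obtain ⟨j, -, hj⟩ := hζ.eq_pow_of_pow_eq_one h1
  set z : Oc p K := rou p K m hm ζ hζ.pow_eq_one with hz
  have hzm : z ^ m = 1 := Subtype.ext (by
    show (ζ : K) ^ m = 1
    exact hζ.pow_eq_one)
  have hact : act p K γ z = z ^ j := Subtype.ext (by
    show γ ζ = ζ ^ j
    exact hj.symm)
  have hmem : z ^ j - z ^ p ∈ q := by
    have := hq.2.2 z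
    rwa [hact] at this
  by_cases hx : z ^ (j + (m - 1) * p) = 1
  · have h2 : z ^ j = z ^ p := by
      have h3 : z ^ (j + (m - 1) * p) * z ^ p = z ^ j := by
        rw [← pow_add, show j + (m - 1) * p + p = j + m * p by
          rw [add_assoc, ← Nat.succ_mul, Nat.succ_eq_add_one, Nat.sub_add_cancel hm],
          pow_add, pow_mul, hzm, one_pow, mul_one]
      rw [← h3, hx, one_mul]
    rw [← hj]
    exact congrArg (fun t : Oc p K => (t : K)) h2
  · exfalso
    have hu : IsUnit (1 - z ^ (j + (m - 1) * p)) := by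
      refine isUnit_one_sub m (natCast_isUnit p m hmp (Oc p K)) _ ?_ hx
      rw [← pow_mul, mul_comm, pow_mul, hzm, one_pow]
    have hzu : IsUnit z := IsUnit.of_pow_eq_one hzm hm.ne'
    have h3 : z ^ j - z ^ p = -(z ^ p * (1 - z ^ (j + (m - 1) * p))) := by
      have h4 : z ^ p * z ^ (j + (m - 1) * p) = z ^ j := by
        rw [← pow_add, show p + (j + (m - 1) * p) = j + m * p by
          rw [add_comm, add_assoc, ← Nat.succ_mul, Nat.succ_eq_add_one,
            Nat.sub_add_cancel hm],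
          pow_add, pow_mul, hzm, one_pow, mul_one]
      rw [mul_sub, mul_one, h4]
      ring
    have hu2 : IsUnit (z ^ j - z ^ p) := by
      rw [h3]
      exact ((hzu.pow p).mul hu).neg
    exact hq.1.ne_top (Ideal.eq_top_of_isUnit_mem _ hmem hu2)

/-- the group of the field is a `p`-group -/
theorem isPGroup_gl (m : ℕ) (G : Type) [Group G] [Finite G]
    (hG : IsPGroup p G) (k : ℕ) (hk : p ^ p ^ k ≡ 1 [MOD m]) (ζ : K)
    (hζ : IsPrimitiveRoot ζ m) (π : Gl p K →* G)
    (hinj : ∀ σ : Gl p K, π σ = 1 → σ ζ = ζ → σ = 1)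
    (hpow : ∀ σ : Gl p K, ∃ i : ℕ, σ ζ = ζ ^ p ^ i) : IsPGroup p (Gl p K) := by
  obtain ⟨a, ha⟩ := IsPGroup.iff_card.mp hG
  intro σ
  refine ⟨a + k, hinj _ ?_ ?_⟩
  · rw [map_pow, pow_add, pow_mul, ← ha, pow_card_eq_one', one_pow]
  · obtain ⟨i, hi⟩ := hpow σ
    have h1 : ∀ n : ℕ, (σ ^ n) ζ = ζ ^ (p ^ i) ^ n := by
      intro n
      induction n with
      | zero => simp
      | succ n ih =>
        rw [pow_succ', AlgEquiv.mul_apply, ih, map_pow, hi, ← pow_mul, ← pow_succ']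
    rw [h1]
    have h2 : (p ^ i) ^ p ^ (a + k) ≡ 1 [MOD m] := by
      have h3 : (p ^ i) ^ p ^ (a + k) = (p ^ p ^ k) ^ (i * p ^ a) := by
        rw [← pow_mul, ← pow_mul, pow_add]
        congr 1
        ring
      rw [h3]
      simpa using hk.pow (i * p ^ a)
    have h4 : ζ ^ (p ^ i) ^ p ^ (a + k) = ζ ^ 1 := by
      have h5 : ∀ N : ℕ, ζ ^ N = ζ ^ (N % m) := fun N => by
        have := pow_mod_orderOf ζ N
        rwa [← hζ.eq_orderOf, eq_comm] at this
      rw [h5, h5 1, show (p ^ i) ^ p ^ (a + k) % m = 1 % m from h2]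
    rw [h4, pow_one]

end aux

/-- the data for the Kummer step -/
theorem kd_of_pc (p : ℕ) [Fact p.Prime] (m : ℕ) (hm : m.Coprime p) (G : Type) [Group G]
    [Finite G] (hG : IsPGroup p G) (hf : ∃ k : ℕ, p ^ p ^ k ≡ 1 [MOD m]) (g0 : G)
    (h : PC p m G g0) : KD p m G g0 := by
  obtain ⟨K, _, _, _, _, ζ, π, q, γ, hfd, hgal, hNI, hζ, hq, hπγ, hinj, hst, hpow⟩ := h
  obtain ⟨k, hk⟩ := hf
  have hm0 := pos_of_coprime p m hm
  have hPG : IsPGroup p (Gl p K) := isPGroup_gl p K m G hG k hk ζ hζ π hinj hpow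
  have hco : (Nat.card (Gl p K)).Coprime m := by
    obtain ⟨n, hn⟩ := IsPGroup.iff_card.mp hPG
    rw [hn]
    exact Nat.Coprime.pow_left n hm.symm
  have hγζ : γ ζ = ζ ^ p := frob_rou p K m hm ζ hζ q γ hq
  obtain ⟨η, hη0, ⟨n, a, b, hab, hab2⟩, hind⟩ := exists_eta p K hNI q γ hq m hm0 hco
  obtain ⟨K', _, _, _, _, ι, β, hfd', hgal', hNI', hιx, hint, hβ, hdesc⟩ :=
    bc_all p K hNI m hm0 ζ hζ
  refine ⟨K', inferInstance, inferInstance, inferInstance, inferInstance, ι ζ, ι η,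
    π.comp β.symm.toMonoidHom, β γ, hfd', hgal', hNI', hζ.map_of_injective ι.injective,
    ?_, ?_, ?_, ?_, ?_, ?_, ?_⟩
  · rw [hβ, hγζ, map_pow]
  · simp [hπγ]
  · intro g
    obtain ⟨σ, h1, h2⟩ := hst g
    refine ⟨β σ, by simp [h1], ?_⟩
    rw [hβ, h2]
  · rwa [Nat.card_congr β.symm.toEquiv]
  · rwa [Ne, map_eq_zero]
  · intro h' P' hP'
    let om : Oc p K →+* Oc p K' :=
      { toFun := fun s => ⟨ι (s : K), hint _ s.2⟩
        map_one' := Subtype.ext (by simp)
        map_zero' := Subtype.ext (by simp)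
        map_mul' := fun s t => Subtype.ext (by simp)
        map_add' := fun s t => Subtype.ext (by simp) }
    have hom : ∀ s : Oc p K, ((om s : Oc p K') : K') = ι (s : K) := fun s => rfl
    have homx : om (xo p K) = xo p K' ^ m := Subtype.ext (by
      rw [hom, xo_coe, hιx, SubmonoidClass.coe_pow, xo_coe])
    obtain ⟨h1, rfl⟩ := β.surjective h'
    have hP : (P'.comap om).IsPrime := Ideal.IsPrime.comap om
    by_cases hx : xo p K' ∈ P'
    · have hxP : xo p K ∈ P'.comap om := by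
        rw [Ideal.mem_comap, homx]
        exact Ideal.pow_mem_of_mem P' hx m hm0
      have hne : h1 η ≠ 0 := by rwa [Ne, map_eq_zero]
      obtain ⟨k1, a1, b1, ha1, hb1, hab1⟩ := exists_vl p K hNI _ hP hxP (h1 η) hne
      refine ⟨k1, om a1, om b1, ha1, hb1, ?_⟩
      rw [hβ, hom, hom, ← map_mul, hab1, map_mul, map_zpow₀, hιx, zpow_mul, zpow_natCast]
    · have hxm : ∀ j : ℕ, xo p K' ^ j ∉ P' := fun j hj => hx (hP'.mem_of_pow_mem j hj)
      refine ⟨0, om (act p K h1 a), om (xo p K ^ n), ?_, ?_, ?_⟩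
      · intro hmem
        have h2 : om (act p K h1 a) * om (act p K h1 b) ∈ P' := P'.mul_mem_right _ hmem
        rw [← map_mul, ← map_mul, hab2, map_pow, act_xo, map_pow, homx, ← pow_mul] at h2
        exact hxm _ h2
      · rw [map_pow, homx, ← pow_mul]
        exact hxm _
      · rw [hβ, hom, hom, act_coe, ← hab, mul_zero, zpow_zero, one_mul, ← map_mul, map_mul h1,
          SubmonoidClass.coe_pow, map_pow h1, xo_coe, gl_xk]
  · intro e z hz
    have h2 : ι (∏ h : Gl p K, (h η) ^ e (β h)) = z ^ m := by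
      rw [← hz, finprod_eq_prod_of_fintype, map_prod]
      refine Fintype.prod_equiv β.toEquiv _ _ fun h => ?_
      rw [map_zpow₀, ← hβ]
      rfl
    obtain ⟨j, w, hw⟩ := hdesc _ z h2
    obtain ⟨c, hc⟩ := hind (fun h => e (β h)) j w hw
    refine ⟨c, fun h0 => ?_⟩
    obtain ⟨h1, rfl⟩ := β.surjective h0
    have h3 := hc h1
    have h4 : orderOf (β γ) = orderOf γ := orderOf_injective β.toMonoidHom β.injective γ
    rw [h4]
    simpa only [map_mul, map_pow] using h3

end Pool.Agent.AB
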