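import Pool.Agent.Lib.MP_5de024_nt.Kum2

/-!
# Surjectivity of the Kummer map onto the kernel (piece Kum3)
-/

set_option autoImplicit false
set_option linter.unusedSectionVars false

namespace Pool.Agent.AB

/-- exponents modulo `m` -/
theorem kum3_add {N : Type} [CommGroup N] {m : ℕ} [NeZero m] {x : N} (hx : x ^ m = 1)
    (a b : ZMod m) : x ^ (a + b).val = x ^ a.val * x ^ b.val := by
  rw [ZMod.val_add, ← pow_add]
  exact (pow_eq_pow_mod _ hx).symm

/-- characters of a quotient -/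
theorem kum3_char {K : Type} [Field K] {m : ℕ} [NeZero m] {ζ : K} (hζ : IsPrimitiveRoot ζ m)
    {N : Type} [CommGroup N] [Finite N] (hexp : ∀ n : N, n ^ m = 1) (H : Subgroup N) {n : N}
    (hn : n ∉ H) : ∃ χ : N →* Kˣ, (∀ x ∈ H, χ x = 1) ∧ χ n ≠ 1 := by
  have h1 : HasEnoughRootsOfUnity K m := ⟨⟨ζ, hζ⟩, inferInstance⟩
  have h2 : Monoid.exponent (N ⧸ H) ∣ m := by
    rw [Monoid.exponent_dvd_iff_forall_pow_eq_one]
    intro g
    obtain ⟨g, rfl⟩ := QuotientGroup.mk_surjective g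
    rw [← QuotientGroup.mk_pow, hexp, QuotientGroup.mk_one]
  have h3 : HasEnoughRootsOfUnity K (Monoid.exponent (N ⧸ H)) :=
    HasEnoughRootsOfUnity.of_dvd K h2
  have h4 : (QuotientGroup.mk n : N ⧸ H) ≠ 1 := by
    intro h
    exact hn ((QuotientGroup.eq_one_iff n).1 h)
  obtain ⟨ψ, hψ⟩ := CommGroup.exists_apply_ne_one_of_hasEnoughRootsOfUnity (N ⧸ H) K h4
  refine ⟨ψ.comp (QuotientGroup.mk' H), fun x hx => ?_, hψ⟩
  show ψ (QuotientGroup.mk x) = 1
  rw [(QuotientGroup.eq_one_iff x).2 hx, map_one]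

variable (p : ℕ) [Fact p.Prime] (K : Type) [Field K] [Algebra (Fx p) K]
  (L : Type) [Field L] [Algebra (Fx p) L]

/-- elements fixed by the kernel of the restriction -/
theorem kum3_fix [FiniteDimensional (Fx p) L] [IsGalois (Fx p) L] (ι : K →ₐ[Fx p] L)
    (ρ : Gl p L →* Gl p K) (hρ : ∀ (τ : Gl p L) (s : K), τ (ι s) = ι (ρ τ s)) {z : L}
    (hz : ∀ τ : ρ.ker, (τ : Gl p L) z = z) : ∃ s : K, z = ι s := by
  have h1 : z ∈ IntermediateField.fixedField
      (IntermediateField.fixingSubgroup ι.fieldRange) := by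
    rw [IntermediateField.mem_fixedField_iff]
    intro τ hτ
    rw [IntermediateField.mem_fixingSubgroup_iff] at hτ
    refine hz ⟨τ, ?_⟩
    rw [MonoidHom.mem_ker]
    ext s
    apply ι.toRingHom.injective
    show ι (ρ τ s) = ι s
    rw [← hρ]
    exact hτ _ ⟨s, rfl⟩
  rw [IsGalois.fixedField_fixingSubgroup] at h1
  obtain ⟨s, hs⟩ := h1
  exact ⟨s, hs.symm⟩

/-- the elements `∏ (π h • v) ^ ν τ h` exhaust the kernel `N` -/
theorem kum_surj [FiniteDimensional (Fx p) K] [IsGalois (Fx p) K]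
    [FiniteDimensional (Fx p) L] [IsGalois (Fx p) L] (ι : K →ₐ[Fx p] L) (m : ℕ) [NeZero m]
    (hmp : m.Coprime p) (ζ : K) (hζ : IsPrimitiveRoot ζ m) (η : K) (hη : η ≠ 0)
    (y : Gl p K → L) (hy : ∀ h : Gl p K, y h ^ m = ι (h η))
    (ρ : Gl p L →* Gl p K) (hρ : ∀ (τ : Gl p L) (s : K), τ (ι s) = ι (ρ τ s))
    (ν : ρ.ker → Gl p K → ZMod m)
    (hν : ∀ (τ : ρ.ker) (h : Gl p K), (τ : Gl p L) (y h) = ι (h ζ) ^ (ν τ h).val * y h)
    (hνa : ∀ (τ τ' : ρ.ker) (h : Gl p K), ν (τ * τ') h = ν τ h + ν τ' h)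
    (γ : Gl p K) (hγ : γ ζ = ζ ^ p) (hco : (Nat.card (Gl p K)).Coprime m)
    (hind : ∀ (e : Gl p K → ℤ) (z : K), (∏ h : Gl p K, (h η) ^ e h) = z ^ m →
      ∃ c : ℤ, ∀ h0 : Gl p K,
        (∑ i ∈ Finset.range (orderOf γ), e (h0 * γ ^ i)) ≡ c [ZMOD m])
    (N : Type) [CommGroup N] [Finite N] (P : Type) [Group P] (φ : P →* MulAut N) (v : N)
    (π : Gl p K →* P) (hst : ∀ g : P, ∃ σ : Gl p K, π σ = g ∧ σ ζ = ζ)
    (hexp : ∀ n : N, n ^ m = 1)
    (hv : Subgroup.closure (Set.range fun g : P => φ g v) = ⊤)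
    (hvp : φ (π γ) v = v ^ p)
    (hχ : ∀ χ : N →* Kˣ, (∀ (g : P) (n : N), χ (φ g n) = χ n) → χ = 1) (n : N) :
    ∃ τ : ρ.ker, ∏ h : Gl p K, (φ (π h) v) ^ (ν τ h).val = n := by
  -- the homomorphism
  obtain ⟨Ψ, hΨ⟩ : ∃ Ψ : ρ.ker →* N,
      ∀ τ, Ψ τ = ∏ h : Gl p K, (φ (π h) v) ^ (ν τ h).val := by
    refine ⟨MonoidHom.mk' (fun τ => ∏ h : Gl p K, (φ (π h) v) ^ (ν τ h).val) ?_,
      fun τ => rfl⟩
    intro τ τ'
    rw [← Finset.prod_mul_distrib]
    refine Finset.prod_congr rfl fun h _ => ?_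
    rw [hνa, kum3_add (hexp _)]
  by_contra hcon
  have hn : n ∉ Ψ.range := by
    rintro ⟨τ, hτ⟩
    exact hcon ⟨τ, by rw [← hΨ, hτ]⟩
  obtain ⟨χ, hχ1, hχ2⟩ := kum3_char hζ hexp Ψ.range hn
  apply hχ2
  suffices h : χ = 1 by rw [h]; rfl
  apply hχ
  have hprim : ∀ h : Gl p K, IsPrimitiveRoot (h ζ) m := fun h =>
    hζ.map_of_injective h.injective
  have hfix : ∀ (τ : ρ.ker) (s : K), (τ : Gl p L) (ι s) = ι s := by
    intro τ s
    have h1 : ρ (τ : Gl p L) = 1 := τ.2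
    rw [hρ, h1]
    rfl
  -- the exponents of the character
  have hc : ∀ h : Gl p K, ∃ c : ℕ, ((χ (φ (π h) v) : Kˣ) : K) = (h ζ) ^ c := by
    intro h
    have h1 : ((χ (φ (π h) v) : Kˣ) : K) ^ m = 1 := by
      rw [← Units.val_pow_eq_pow_val, ← map_pow, hexp, map_one, Units.val_one]
    obtain ⟨i, -, hi⟩ := (hprim h).eq_pow_of_pow_eq_one h1
    exact ⟨i, hi.symm⟩
  choose c hc using hc
  -- the element fixed by the kernel
  have hz : ∀ τ : ρ.ker, (τ : Gl p L) (∏ h : Gl p K, y h ^ c h) = ∏ h : Gl p K, y h ^ c h := by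
    intro τ
    have h1 : ∏ h : Gl p K, ι (h ζ) ^ ((ν τ h).val * c h) = 1 := by
      have h2 : ((χ (Ψ τ) : Kˣ) : K) = 1 := by
        rw [hχ1 _ ⟨τ, rfl⟩, Units.val_one]
      rw [hΨ, map_prod, Units.coe_prod] at h2
      have h3 := congrArg ι h2
      rw [map_prod, map_one] at h3
      rw [← h3]
      refine Finset.prod_congr rfl fun h _ => ?_
      rw [map_pow, Units.val_pow_eq_pow_val, hc, map_pow, map_pow, ← pow_mul, mul_comm]
    rw [map_prod]
    have h4 : ∀ h : Gl p K, (τ : Gl p L) (y h ^ c h) =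
        ι (h ζ) ^ ((ν τ h).val * c h) * y h ^ c h := by
      intro h
      rw [map_pow, hν, mul_pow, ← pow_mul]
    rw [Finset.prod_congr rfl fun h _ => h4 h, Finset.prod_mul_distrib, h1, one_mul]
  obtain ⟨z', hz'⟩ := kum3_fix p K L ι ρ hρ hz
  have hprod : ∏ h : Gl p K, (h η) ^ ((c h : ℕ) : ℤ) = z' ^ m := by
    apply ι.toRingHom.injective
    show ι _ = ι _
    rw [map_prod, map_pow, ← hz', ← Finset.prod_pow]
    refine Finset.prod_congr rfl fun h _ => ?_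
    rw [zpow_natCast, map_pow, ← hy, ← pow_mul, ← pow_mul, mul_comm]
  obtain ⟨C, hC⟩ := hind (fun h => ((c h : ℕ) : ℤ)) z' hprod
  have hpu : IsUnit (p : ZMod m) := (ZMod.isUnit_iff_coprime p m).2 hmp.symm
  -- the step `γ`
  have hstep : ∀ h : Gl p K, (c (h * γ) : ZMod m) = (c h : ZMod m) := by
    intro h
    have h1 : ((χ (φ (π (h * γ)) v) : Kˣ) : K) = (h ζ) ^ (p * c h) := by
      rw [map_mul, map_mul]
      show ((χ (φ (π h) (φ (π γ) v)) : Kˣ) : K) = _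
      rw [hvp, map_pow, map_pow, Units.val_pow_eq_pow_val, hc, ← pow_mul, mul_comm]
    have h2 : ((χ (φ (π (h * γ)) v) : Kˣ) : K) = (h ζ) ^ (p * c (h * γ)) := by
      rw [hc]
      show (h (γ ζ)) ^ _ = _
      rw [hγ, map_pow, ← pow_mul]
    have h3 := kum2_inj (hprim h) (h1.symm.trans h2)
    rw [Nat.cast_mul, Nat.cast_mul] at h3
    exact (hpu.mul_left_cancel h3).symm
  have hpow : ∀ (i : ℕ) (h : Gl p K), (c (h * γ ^ i) : ZMod m) = (c h : ZMod m) := by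
    intro i h
    induction i with
    | zero => rw [pow_zero, mul_one]
    | succ i ih => rw [pow_succ, ← mul_assoc, hstep, ih]
  have hcst : ∀ h : Gl p K, ((orderOf γ : ℕ) : ZMod m) * (c h : ZMod m) = (C : ZMod m) := by
    intro h
    have h1 := (ZMod.intCast_eq_intCast_iff _ _ _).2 (hC h)
    rw [← h1]
    push_cast
    rw [Finset.sum_congr rfl fun i _ => hpow i h, Finset.sum_const, Finset.card_range,
      nsmul_eq_mul]
  have hou : IsUnit ((orderOf γ : ℕ) : ZMod m) := by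
    rw [ZMod.isUnit_iff_coprime]
    exact Nat.Coprime.coprime_dvd_left (orderOf_dvd_natCard γ) hco
  have hall : ∀ h h' : Gl p K, (c h : ZMod m) = (c h' : ZMod m) := fun h h' =>
    hou.mul_left_cancel ((hcst h).trans (hcst h').symm)
  -- the character is invariant on the orbit
  have hpe : ∀ a b : ℕ, (a : ZMod m) = (b : ZMod m) → ζ ^ a = ζ ^ b := by
    intro a b hab
    rw [ZMod.natCast_eq_natCast_iff] at hab
    rw [pow_eq_pow_mod a hζ.pow_eq_one, pow_eq_pow_mod b hζ.pow_eq_one, hab]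
  have hg : ∀ g : P, χ (φ g v) = χ v := by
    intro g
    obtain ⟨σ, hσ, hσζ⟩ := hst g
    have h1 : ((χ (φ g v) : Kˣ) : K) = ζ ^ c σ := by
      rw [← hσ, hc, hσζ]
    have h2 : ((χ v : Kˣ) : K) = ζ ^ c 1 := by
      have h3 := hc 1
      rw [map_one, map_one] at h3
      exact h3
    apply Units.ext
    rw [h1, h2]
    exact hpe _ _ (hall σ 1)
  intro g x
  have h1 : (χ.comp (φ g).toMonoidHom) = χ := by
    refine MonoidHom.eq_of_eqOn_dense hv ?_
    rintro _ ⟨g', rfl⟩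
    show χ (φ g (φ g' v)) = χ (φ g' v)
    have h2 : φ g (φ g' v) = φ (g * g') v := by
      rw [map_mul]
      rfl
    rw [h2, hg, hg]
  exact DFunLike.congr_fun h1 x

end Pool.Agent.AB
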