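import Mathlib

/-!
# The lattice lemma (piece Lat)
-/

set_option autoImplicit false

namespace Pool.Agent.AB

section lat

variable {X : Type} [AddCommGroup X]

/-- the multiples of `l` -/
def Lmul (X : Type) [AddCommGroup X] (l : ℕ) : AddSubgroup X where
  carrier := {x | ∃ z, x = l • z}
  zero_mem' := ⟨0, by simp⟩
  add_mem' := by
    rintro _ _ ⟨a, rfl⟩ ⟨b, rfl⟩
    exact ⟨a + b, by rw [smul_add]⟩
  neg_mem' := by
    rintro _ ⟨a, rfl⟩
    exact ⟨-a, by rw [smul_neg]⟩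

theorem mem_Lmul {l : ℕ} {x : X} : x ∈ Lmul X l ↔ ∃ z, x = l • z := Iff.rfl

theorem lmul_map (f : X →+ X) {l : ℕ} {x : X} (h : x ∈ Lmul X l) : f x ∈ Lmul X l := by
  obtain ⟨z, rfl⟩ := h
  exact ⟨f z, map_nsmul f l z⟩

theorem lmul_smul (l : ℕ) (x : X) : l • x ∈ Lmul X l := ⟨x, rfl⟩

theorem lmul_zsmul {l : ℕ} {r : ℤ} (h : (l : ℤ) ∣ r) (x : X) : r • x ∈ Lmul X l := by
  obtain ⟨k, rfl⟩ := h
  exact ⟨k • x, by rw [mul_smul, natCast_zsmul]⟩

theorem nsmul_inj [Module.Free ℤ X] {l : ℕ} (hl : l ≠ 0) {x y : X} (h : l • x = l • y) :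
    x = y := by
  have h1 : (l : ℤ) • x = (l : ℤ) • y := by simpa using h
  exact smul_right_injective X (by exact_mod_cast hl : (l : ℤ) ≠ 0) h1

theorem proj_aux (l : ℕ) [Fact l.Prime] (V : Type) [AddCommGroup V] (hV : ∀ v : V, l • v = 0)
    (W : AddSubgroup V) : ∃ g : V →+ V, (∀ v, g v ∈ W) ∧ ∀ v ∈ W, g v = v := by
  have i0 : Module (ZMod l) V := AddCommGroup.zmodModule hV
  obtain ⟨g, hg⟩ := (AddSubgroup.toZModSubmodule l W).subtype.exists_leftInverse_of_injective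
    (AddSubgroup.toZModSubmodule l W).ker_subtype
  refine ⟨((AddSubgroup.toZModSubmodule l W).subtype.comp g).toAddMonoidHom, fun v => (g v).2,
    fun v hv => ?_⟩
  exact congrArg Subtype.val (LinearMap.congr_fun hg ⟨v, hv⟩)

theorem exists_proj [Module.Free ℤ X] (l : ℕ) [Fact l.Prime] (X' : AddSubgroup X)
    (h : Lmul X l ≤ X') : ∃ e : X →+ X, (∀ x, e x ∈ X') ∧ ∀ x ∈ X', e x - x ∈ Lmul X l := by
  classical
  let q : X →+ X ⧸ Lmul X l := QuotientAddGroup.mk' (Lmul X l)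
  have hq : ∀ x, q x = 0 ↔ x ∈ Lmul X l := fun x => QuotientAddGroup.eq_zero_iff x
  have hV : ∀ v : X ⧸ Lmul X l, l • v = 0 := by
    intro v
    obtain ⟨x, rfl⟩ := QuotientAddGroup.mk'_surjective _ v
    rw [← map_nsmul]
    exact (hq _).2 ⟨x, rfl⟩
  obtain ⟨g, hg1, hg2⟩ := proj_aux l (X ⧸ Lmul X l) hV (X'.map q)
  let b := Module.Free.chooseBasis ℤ X
  have hy : ∀ i, ∃ y ∈ X', q y = g (q (b i)) := fun i => AddSubgroup.mem_map.1 (hg1 _)
  choose y hy1 hy2 using hy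
  let e : X →ₗ[ℤ] X := b.constr ℤ y
  have heq : (q.comp e.toAddMonoidHom).toIntLinearMap = (g.comp q).toIntLinearMap := by
    refine b.ext fun i => ?_
    change q (b.constr ℤ y (b i)) = g (q (b i))
    rw [b.constr_basis]
    exact hy2 i
  have he : ∀ x, q (e x) = g (q x) := fun x => LinearMap.congr_fun heq x
  refine ⟨e.toAddMonoidHom, fun x => ?_, fun x hx => ?_⟩
  · obtain ⟨x', hx', h1⟩ := AddSubgroup.mem_map.1 (hg1 (q x))
    have h2 : q (e x - x') = 0 := by rw [map_sub, he, h1, sub_self]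
    have h3 : e x = (e x - x') + x' := by abel
    change e x ∈ X'
    rw [h3]
    exact X'.add_mem (h ((hq _).1 h2)) hx'
  · refine (hq _).1 ?_
    change q (e x - x) = 0
    rw [map_sub, he, hg2 _ (AddSubgroup.mem_map.2 ⟨x, hx, rfl⟩), sub_self]

variable {Γ : Type} [Group Γ]

theorem exists_avg [Finite Γ] [Module.Free ℤ X] (ρ : Γ →* AddMonoid.End X) (l : ℕ) [Fact l.Prime]
    (hl : (Nat.card Γ).Coprime l) (X' : AddSubgroup X) (hX' : ∀ (g : Γ) (x : X), x ∈ X' →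
      ρ g x ∈ X') (h : Lmul X l ≤ X') :
    ∃ e : X →+ X, (∀ (g : Γ) (x : X), e (ρ g x) = ρ g (e x)) ∧ (∀ x, e x ∈ X') ∧
      ∀ x ∈ X', e x - x ∈ Lmul X l := by
  classical
  obtain ⟨e0, h1, h2⟩ := exists_proj l X' h
  have := Fintype.ofFinite Γ
  have hmul : ∀ (a b : Γ) (x : X), ρ (a * b) x = ρ a (ρ b x) := fun a b x => by
    rw [map_mul]
    rfl
  have hone : ∀ x : X, ρ 1 x = x := fun x => by
    rw [map_one]
    rfl
  have hcop : IsCoprime ((Nat.card Γ : ℕ) : ℤ) (l : ℤ) := Nat.isCoprime_iff_coprime.2 hl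
  obtain ⟨r, s, hrs⟩ := hcop
  let e : X →+ X := AddMonoidHom.mk' (fun x => r • ∑ g : Γ, ρ g (e0 (ρ g⁻¹ x))) (by
    intro x y
    rw [← smul_add, ← Finset.sum_add_distrib]
    simp only [map_add])
  have he : ∀ x, e x = r • ∑ g : Γ, ρ g (e0 (ρ g⁻¹ x)) := fun x => rfl
  refine ⟨e, fun g x => ?_, fun x => ?_, fun x hx => ?_⟩
  · rw [he, he, map_zsmul (ρ g), map_sum]
    congr 1
    rw [← Equiv.sum_comp (Equiv.mulLeft g)]
    refine Finset.sum_congr rfl fun k _ => ?_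
    rw [Equiv.coe_mulLeft, hmul g k, ← hmul (g * k)⁻¹ g]
    congr 4
    group
  · rw [he]
    exact X'.zsmul_mem (X'.sum_mem fun g _ => hX' _ _ (h1 _)) r
  · have h3 : ∑ g : Γ, (ρ g (e0 (ρ g⁻¹ x)) - x) ∈ Lmul X l := by
      refine AddSubgroup.sum_mem _ fun g _ => ?_
      have h4 : ρ g (e0 (ρ g⁻¹ x)) - x = ρ g (e0 (ρ g⁻¹ x) - ρ g⁻¹ x) := by
        rw [map_sub, ← hmul g g⁻¹, mul_inv_cancel, hone]
      rw [h4]
      exact lmul_map (ρ g) (h2 _ (hX' _ _ hx))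
    have h5 : e x - x = r • ∑ g : Γ, (ρ g (e0 (ρ g⁻¹ x)) - x) + (r * (Nat.card Γ : ℤ) - 1) • x := by
      rw [he, Finset.sum_sub_distrib, Finset.sum_const, Finset.card_univ, Nat.card_eq_fintype_card,
        smul_sub, sub_smul, mul_smul, one_smul, natCast_zsmul]
      abel
    rw [h5]
    refine AddSubgroup.add_mem _ (AddSubgroup.zsmul_mem _ h3 r) (lmul_zsmul ⟨-s, ?_⟩ x)
    linarith

theorem exists_eps [Finite Γ] [Module.Free ℤ X] (ρ : Γ →* AddMonoid.End X) (l : ℕ) [Fact l.Prime]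
    (hl : (Nat.card Γ).Coprime l) (X' : AddSubgroup X) (hX' : ∀ (g : Γ) (x : X), x ∈ X' →
      ρ g x ∈ X') (h : Lmul X l ≤ X') :
    ∃ e : X →+ X, (∀ (g : Γ) (x : X), e (ρ g x) = ρ g (e x)) ∧ (∀ x, e x ∈ X') ∧
      (∀ x ∈ X', e x - x ∈ Lmul X l) ∧ ∀ x, e (e x) - e x ∈ Lmul X (l * l) := by
  obtain ⟨e, h1, h2, h3⟩ := exists_avg ρ l hl X' hX' h
  let ε : X →+ X := AddMonoidHom.mk' (fun x => (3 : ℤ) • e (e x) - (2 : ℤ) • e (e (e x))) (by
    intro x y
    simp only [map_add, smul_add]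
    abel)
  have hε : ∀ x, ε x = (3 : ℤ) • e (e x) - (2 : ℤ) • e (e (e x)) := fun x => rfl
  have hd : ∀ x, e (e x) - e x ∈ Lmul X l := fun x => h3 _ (h2 x)
  refine ⟨ε, fun g x => ?_, fun x => ?_, fun x hx => ?_, fun x => ?_⟩
  · rw [hε, hε, h1, h1, h1, map_sub, map_zsmul, map_zsmul]
  · rw [hε]
    exact X'.sub_mem (X'.zsmul_mem (h2 _) _) (X'.zsmul_mem (h2 _) _)
  · have h4 : ε x - x = (-2 : ℤ) • (e (e (e x)) - e (e x)) + (e (e x) - e x) + (e x - x) := by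
      rw [hε]
      module
    rw [h4]
    exact AddSubgroup.add_mem _ (AddSubgroup.add_mem _ (AddSubgroup.zsmul_mem _ (hd _) _) (hd _))
      (h3 x hx)
  · let d : X →+ X := AddMonoidHom.mk' (fun x => e (e x) - e x) (by
      intro x y
      simp only [map_add]
      abel)
    have hd' : ∀ x, d x = e (e x) - e x := fun x => rfl
    have h4 : ε (ε x) - ε x = d (d ((4 : ℤ) • e (e x) - (4 : ℤ) • e x - (3 : ℤ) • x)) := by
      simp only [hε, hd', map_sub, map_zsmul]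
      module
    rw [h4]
    obtain ⟨z, hz⟩ := mem_Lmul.1 (hd ((4 : ℤ) • e (e x) - (4 : ℤ) • e x - (3 : ℤ) • x))
    obtain ⟨z', hz'⟩ := mem_Lmul.1 (hd z)
    refine ⟨z', ?_⟩
    rw [hd' ((4 : ℤ) • e (e x) - (4 : ℤ) • e x - (3 : ℤ) • x), hz, map_nsmul, hd' z, hz', mul_smul]

/-- the statement for one prime -/
def Good (ρ : Γ →* AddMonoid.End X) (T : Finset ℕ) (Λ : AddSubgroup X) : Prop :=
  ∃ θ : X →+ X, (∀ (g : Γ) (x : X), θ (ρ g x) = ρ g (θ x)) ∧ (∀ x : X, θ x ∈ Λ) ∧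
    ∀ l ∈ T, ∀ x y : X, y ∈ Λ → θ x = l • y → x ∈ Lmul X l

theorem good_step [Finite Γ] [Module.Free ℤ X] (ρ : Γ →* AddMonoid.End X) (l : ℕ) [Fact l.Prime]
    (hl : (Nat.card Γ).Coprime l) (Λ Λ' : AddSubgroup X)
    (hst : ∀ (g : Γ) (x : X), x ∈ Λ' → ρ g x ∈ Λ') (h1 : Λ' ≤ Λ) (h2 : ∀ x ∈ Λ, l • x ∈ Λ')
    (hS : Good ρ {l} Λ) : Good ρ {l} Λ' := by
  obtain ⟨θ, hθ1, hθ2, hθ3⟩ := hS
  have hθ4 := hθ3 l (Finset.mem_singleton_self l)
  have hl0 : l ≠ 0 := (Fact.out : l.Prime).ne_zero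
  let X' : AddSubgroup X := Λ'.comap θ
  have hX' : ∀ x, x ∈ X' ↔ θ x ∈ Λ' := fun x => Iff.rfl
  obtain ⟨e, e1, e2, e3, e4⟩ := exists_eps ρ l hl X' (fun g x hx => by
    rw [hX', hθ1]
    exact hst g _ hx) (by
    rintro _ ⟨z, rfl⟩
    rw [hX', map_nsmul]
    exact h2 _ (hθ2 z))
  let θ' : X →+ X := AddMonoidHom.mk' (fun x => θ (e x + l • (x - e x))) (by
    intro x y
    simp only [map_add, map_sub, map_nsmul, smul_add, smul_sub]
    abel)
  have hθ' : ∀ x, θ' x = θ (e x + l • (x - e x)) := fun x => rfl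
  refine ⟨θ', fun g x => ?_, fun x => ?_, fun l' hl' x y hy hxy => ?_⟩
  · rw [hθ', hθ', e1, ← map_sub (ρ g), ← map_nsmul (ρ g), ← map_add (ρ g), hθ1]
  · rw [hθ', map_add, map_nsmul]
    exact Λ'.add_mem (e2 x) (h2 _ (hθ2 _))
  · obtain rfl := Finset.mem_singleton.1 hl'
    rw [hθ'] at hxy
    -- `e x` is divisible by `l`
    have h3 := hθ4 _ _ (h1 hy) hxy
    have h4 : e x ∈ Lmul X l' := by
      have h5 := AddSubgroup.sub_mem _ h3 (lmul_smul l' (x - e x))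
      rwa [add_sub_cancel_right] at h5
    obtain ⟨x1, hx1⟩ := h4
    -- `x1 + (1 - e) x` is in `X'`
    have h5 : x1 + (x - e x) ∈ X' := by
      rw [hX']
      have h6 : l' • θ (x1 + (x - e x)) = l' • y := by
        rw [← hxy, ← map_nsmul θ, smul_add, ← hx1]
      rw [nsmul_inj hl0 h6]
      exact hy
    have h7 := e3 _ h5
    -- `(1 - e) x1` is divisible by `l`
    have h8 : e x1 - x1 ∈ Lmul X l' := by
      obtain ⟨z, hz⟩ := mem_Lmul.1 (e4 x)
      refine ⟨z, nsmul_inj hl0 ?_⟩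
      rw [smul_sub, ← map_nsmul e, ← hx1, hz, mul_smul]
    -- `(1 - e) x` is divisible by `l`
    have h9 : e (e x) - e x ∈ Lmul X l' := by
      obtain ⟨z, hz⟩ := mem_Lmul.1 (e4 x)
      exact ⟨l' • z, by rw [hz, mul_smul]⟩
    have h10 : x - e x ∈ Lmul X l' := by
      have h11 : x - e x = (e x1 - x1) - (e (x1 + (x - e x)) - (x1 + (x - e x))) -
          (e (e x) - e x) := by
        simp only [map_add, map_sub]
        abel
      rw [h11]
      exact AddSubgroup.sub_mem _ (AddSubgroup.sub_mem _ h8 h7) h9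
    have h12 : x = e x + (x - e x) := by abel
    rw [h12]
    exact AddSubgroup.add_mem _ ⟨x1, hx1⟩ h10

theorem good_prime [Finite Γ] [Module.Free ℤ X] (ρ : Γ →* AddMonoid.End X) (l : ℕ) [Fact l.Prime]
    (hl : (Nat.card Γ).Coprime l) (Λ : AddSubgroup X)
    (hst : ∀ (g : Γ) (x : X), x ∈ Λ → ρ g x ∈ Λ) (n : ℕ) (hn : 0 < n)
    (hnX : ∀ x : X, n • x ∈ Λ) : Good ρ {l} Λ := by
  have hp : l.Prime := Fact.out
  obtain ⟨a, n', hn', rfl⟩ := Nat.exists_eq_pow_mul_and_not_dvd hn.ne' l hp.ne_one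
  -- the chain
  have key : ∀ i : ℕ, Good ρ {l} (Λ ⊔ Lmul X (l ^ i)) := by
    intro i
    induction i with
    | zero =>
      refine ⟨AddMonoidHom.id X, fun g x => rfl, fun x => ?_, fun l' _ x y _ hxy => ⟨y, hxy⟩⟩
      exact AddSubgroup.mem_sup_right ⟨x, by simp⟩
    | succ i ih =>
      refine good_step ρ l hl _ _ ?_ ?_ ?_ ih
      · intro g x hx
        obtain ⟨y, hy, z, hz, rfl⟩ := AddSubgroup.mem_sup.1 hx
        rw [map_add]
        exact AddSubgroup.add_mem _ (AddSubgroup.mem_sup_left (hst g y hy))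
          (AddSubgroup.mem_sup_right (lmul_map (ρ g) hz))
      · refine sup_le_sup le_rfl ?_
        rintro _ ⟨z, rfl⟩
        exact ⟨l • z, by rw [pow_succ, mul_smul]⟩
      · intro x hx
        obtain ⟨y, hy, z, ⟨w, rfl⟩, rfl⟩ := AddSubgroup.mem_sup.1 hx
        rw [smul_add]
        refine AddSubgroup.add_mem _ (AddSubgroup.mem_sup_left (Λ.nsmul_mem hy l))
          (AddSubgroup.mem_sup_right ⟨w, ?_⟩)
        rw [pow_succ', mul_smul]
  obtain ⟨θ, h1, h2, h3⟩ := key a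
  have h4 := h3 l (Finset.mem_singleton_self l)
  have hle : ∀ x ∈ Λ ⊔ Lmul X (l ^ a), n' • x ∈ Λ := by
    intro x hx
    obtain ⟨y, hy, z, ⟨w, rfl⟩, rfl⟩ := AddSubgroup.mem_sup.1 hx
    rw [smul_add, ← mul_smul, mul_comm n']
    exact Λ.add_mem (Λ.nsmul_mem hy n') (hnX w)
  have hcop : IsCoprime (n' : ℤ) (l : ℤ) :=
    Nat.isCoprime_iff_coprime.2 ((Nat.Prime.coprime_iff_not_dvd hp).2 hn').symm
  obtain ⟨u, v, huv⟩ := hcop
  refine ⟨n' • θ, fun g x => ?_, fun x => ?_, fun l' hl' x y hy hxy => ?_⟩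
  · rw [AddMonoidHom.nsmul_apply, AddMonoidHom.nsmul_apply, h1, map_nsmul]
  · rw [AddMonoidHom.nsmul_apply]
    exact hle _ (h2 x)
  · obtain rfl := Finset.mem_singleton.1 hl'
    rw [AddMonoidHom.nsmul_apply] at hxy
    refine h4 x (u • y + v • θ x) (AddSubgroup.add_mem _
      (AddSubgroup.zsmul_mem _ (AddSubgroup.mem_sup_left hy) u) (AddSubgroup.zsmul_mem _ (h2 x) v)) ?_
    have h5 : θ x = u • (n' • θ x) + v • (l' • θ x) := by
      have h6 : (u * (n' : ℤ) + v * (l' : ℤ)) • θ x = θ x := by rw [huv, one_smul]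
      conv_lhs => rw [← h6]
      rw [add_smul, mul_smul, mul_smul, natCast_zsmul, natCast_zsmul]
    conv_lhs => rw [h5]
    rw [hxy]
    module

theorem good_all [Finite Γ] [Module.Free ℤ X] (ρ : Γ →* AddMonoid.End X) (T : Finset ℕ)
    (hT : ∀ l ∈ T, l.Prime) (hl : ∀ l ∈ T, (Nat.card Γ).Coprime l) (Λ : AddSubgroup X)
    (hst : ∀ (g : Γ) (x : X), x ∈ Λ → ρ g x ∈ Λ) (n : ℕ) (hn : 0 < n)
    (hnX : ∀ x : X, n • x ∈ Λ) : Good ρ T Λ := by
  classical
  induction T using Finset.induction_on with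
  | empty =>
    refine ⟨n • AddMonoidHom.id X, fun g x => ?_, fun x => ?_, fun l hl => ?_⟩
    · rw [AddMonoidHom.nsmul_apply, AddMonoidHom.nsmul_apply, AddMonoidHom.id_apply,
        AddMonoidHom.id_apply, map_nsmul]
    · rw [AddMonoidHom.nsmul_apply]
      exact hnX x
    · exact absurd hl (Finset.notMem_empty _)
  | insert l T hlT ih =>
    obtain ⟨θ, h1, h2, h3⟩ := ih (fun k hk => hT k (Finset.mem_insert_of_mem hk))
      (fun k hk => hl k (Finset.mem_insert_of_mem hk))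
    have hp : l.Prime := hT l (Finset.mem_insert_self l T)
    have : Fact l.Prime := ⟨hp⟩
    obtain ⟨θ', h1', h2', h3'⟩ := good_prime ρ l (hl l (Finset.mem_insert_self l T)) Λ hst n hn hnX
    have h4' := h3' l (Finset.mem_singleton_self l)
    -- Bezout
    have hcop : Nat.Coprime (∏ k ∈ T, k) l := by
      refine Nat.Coprime.prod_left fun k hk => ?_
      refine (Nat.coprime_primes (hT k (Finset.mem_insert_of_mem hk)) hp).2 ?_
      rintro rfl
      exact hlT hk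
    obtain ⟨u, v, huv⟩ : IsCoprime (((∏ k ∈ T, k : ℕ) : ℕ) : ℤ) (l : ℤ) :=
      Nat.isCoprime_iff_coprime.2 hcop
    generalize hM : (∏ k ∈ T, k) = M at huv
    have hMk : ∀ k ∈ T, k ∣ M := fun k hk => by
      rw [← hM]
      exact Finset.dvd_prod_of_mem _ hk
    let Θ : X →+ X := AddMonoidHom.mk' (fun x => (v * (l : ℤ)) • θ x + (u * (M : ℤ)) • θ' x) (by
      intro x y
      simp only [map_add, smul_add]
      abel)
    have hΘ : ∀ x, Θ x = (v * (l : ℤ)) • θ x + (u * (M : ℤ)) • θ' x := fun x => rfl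
    refine ⟨Θ, fun g x => ?_, fun x => ?_, fun k hk x y hy hxy => ?_⟩
    · rw [hΘ, hΘ, h1, h1', map_add, map_zsmul, map_zsmul]
    · rw [hΘ]
      exact Λ.add_mem (Λ.zsmul_mem (h2 x) _) (Λ.zsmul_mem (h2' x) _)
    · rw [hΘ] at hxy
      rcases Finset.mem_insert.1 hk with rfl | hk
      · refine h4' x (y - v • θ x + v • θ' x) (Λ.add_mem (Λ.sub_mem hy (Λ.zsmul_mem (h2 x) v))
          (Λ.zsmul_mem (h2' x) v)) ?_
        have h5 : θ' x = (u * (M : ℤ)) • θ' x + (v * (k : ℤ)) • θ' x := by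
          rw [← add_smul, huv, one_smul]
        have h6 : (u * (M : ℤ)) • θ' x = k • y - (v * (k : ℤ)) • θ x := by
          rw [← hxy]
          abel
        calc θ' x = (u * (M : ℤ)) • θ' x + (v * (k : ℤ)) • θ' x := h5
          _ = (k • y - (v * (k : ℤ)) • θ x) + (v * (k : ℤ)) • θ' x := by rw [h6]
          _ = k • (y - v • θ x + v • θ' x) := by module
      · obtain ⟨M', rfl⟩ := hMk k hk
        refine h3 k hk x (y - (u * (M' : ℤ)) • θ' x + (u * (M' : ℤ)) • θ x)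
          (Λ.add_mem (Λ.sub_mem hy (Λ.zsmul_mem (h2' x) _)) (Λ.zsmul_mem (h2 x) _)) ?_
        have h5 : θ x = (u * ((k * M' : ℕ) : ℤ)) • θ x + (v * (l : ℤ)) • θ x := by
          rw [← add_smul, huv, one_smul]
        have h6 : (v * (l : ℤ)) • θ x = k • y - (u * ((k * M' : ℕ) : ℤ)) • θ' x := by
          rw [← hxy]
          abel
        calc θ x = (u * ((k * M' : ℕ) : ℤ)) • θ x + (v * (l : ℤ)) • θ x := h5
          _ = (u * ((k * M' : ℕ) : ℤ)) • θ x +
              (k • y - (u * ((k * M' : ℕ) : ℤ)) • θ' x) := by rw [h6]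
          _ = k • (y - (u * (M' : ℤ)) • θ' x + (u * (M' : ℤ)) • θ x) := by
            push_cast
            module

end lat

/-- `Γ` acts on the lattice `X`, `Λ` is a stable subgroup of finite index, the order of `Γ` is
prime to `m`: there is an equivariant endomorphism of `X` with image in `Λ`, injective modulo
every divisor of `m` as a map `X / m X → Λ / m Λ` -/
theorem lattice (Γ : Type) [Group Γ] [Finite Γ] (X : Type) [AddCommGroup X]
    [Module.Free ℤ X] [Module.Finite ℤ X] (ρ : Γ →* AddMonoid.End X) (Λ : AddSubgroup X)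
    (hΛ : ∀ (g : Γ) (x : X), x ∈ Λ → ρ g x ∈ Λ) (n : ℕ) (hn : 0 < n)
    (hnX : ∀ x : X, n • x ∈ Λ) (m : ℕ) (hm0 : 0 < m) (hm : (Nat.card Γ).Coprime m) :
    ∃ θ : X →+ X, (∀ (g : Γ) (x : X), θ (ρ g x) = ρ g (θ x)) ∧ (∀ x : X, θ x ∈ Λ) ∧
      (∀ x y : X, y ∈ Λ → θ x = m • y → ∃ z : X, x = m • z) := by
  obtain ⟨θ, h1, h2, h3⟩ := good_all ρ m.primeFactors
    (fun l hl => Nat.prime_of_mem_primeFactors hl)
    (fun l hl => hm.coprime_dvd_right (Nat.dvd_of_mem_primeFactors hl)) Λ hΛ n hn hnX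
  refine ⟨θ, h1, h2, ?_⟩
  have key : ∀ k : ℕ, k ∣ m → ∀ x y : X, y ∈ Λ → θ x = k • y → ∃ z : X, x = k • z := by
    intro k
    induction k using Nat.strong_induction_on with
    | _ k ih =>
      intro hk x y hy hxy
      have hk0 : 0 < k := Nat.pos_of_dvd_of_pos hk hm0
      rcases Nat.eq_or_lt_of_le hk0 with h | h
      · exact ⟨x, by rw [← h]; simp⟩
      · have hp : k.minFac.Prime := Nat.minFac_prime (by omega)
        obtain ⟨k', hk'⟩ := Nat.minFac_dvd k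
        have hlT : k.minFac ∈ m.primeFactors :=
          Nat.mem_primeFactors.2 ⟨hp, (Nat.minFac_dvd k).trans hk, hm0.ne'⟩
        have hk'0 : 0 < k' := by
          rcases Nat.eq_zero_or_pos k' with h0 | h0
          · rw [h0, mul_zero] at hk'
            omega
          · exact h0
        generalize k.minFac = l at hp hk' hlT
        subst hk'
        obtain ⟨x1, hx1⟩ := h3 l hlT x (k' • y) (Λ.nsmul_mem hy _) (by rw [hxy, mul_smul])
        have h4 : θ x1 = k' • y := by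
          refine nsmul_inj hp.ne_zero ?_
          rw [← map_nsmul, ← hx1, hxy, mul_smul]
        obtain ⟨z, hz⟩ := ih k' (by
          have := hp.two_le
          nlinarith) ((Dvd.intro_left l rfl).trans hk) x1 y hy h4
        exact ⟨z, by rw [hx1, hz, mul_smul]⟩
  exact key m dvd_rfl

end Pool.Agent.AB
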