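import Pool.Agent.Lib.MP_5de024_nt.Quo
import Pool.Agent.Lib.MP_5de024_nt.PcAll
import Pool.Agent.Lib.MP_5de024_nt.KdOf
import Pool.Agent.Lib.MP_5de024_nt.Kum1
import Pool.Agent.Lib.MP_5de024_nt.Kum2
import Pool.Agent.Lib.MP_5de024_nt.Kum3
import Pool.Agent.Lib.MP_5de024_nt.Grp

/-!
# The theorem (piece Main)
-/

set_option autoImplicit false
set_option linter.unusedSectionVars false

namespace Pool.Agent.AB

theorem pow_val_add {A : Type} [CommGroup A] (m : ℕ) [NeZero m] (a : A) (ha : a ^ m = 1)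
    (i j : ZMod m) : a ^ (i + j).val = a ^ i.val * a ^ j.val := by
  rw [ZMod.val_add, ← pow_add, ← pow_eq_pow_mod _ ha]

/-- the Kummer step: from the data `KD` to the semidirect product -/
theorem realG_of_kd (p : ℕ) [Fact p.Prime] (A P : Type) [CommGroup A] [Finite A] [Group P]
    [Finite P] (φ : P →* MulAut A) (w : A) (g0 : P) (m : ℕ) (hmp : m.Coprime p)
    (hexp : ∀ n : A, n ^ m = 1) (hw : φ g0 w = w ^ p)
    (hcl : Subgroup.closure (Set.range fun g : P => φ g w) = ⊤)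
    (hχ : ∀ (K : Type) (_ : Field K) (χ : A →* Kˣ),
      (∀ (g : P) (n : A), χ (φ g n) = χ n) → χ = 1)
    (hkd : KD p m P g0) : RealG p (A ⋊[φ] P) := by
  obtain ⟨K, _, _, _, _, ζ, η, π, γ, hfd, hgal, hNI, hζ, hγζ, hπγ, hst, hco, hη, hloc,
    hind⟩ := hkd
  have hm0 : m ≠ 0 := by
    rintro rfl
    rw [Nat.coprime_zero_left] at hmp
    exact (Fact.out : p.Prime).one_lt.ne' hmp
  have : NeZero m := ⟨hm0⟩
  obtain ⟨L, _, _, _, _, ι, y, hfdL, hgalL, hNIL, hy, hgen⟩ :=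
    kum_ext p K hNI m hmp ζ hζ η hη hloc
  obtain ⟨ρ, ν, hρ, hρs, hν, hνa, hνc, hνm⟩ := kum_hom p K L ι m ζ hζ η hη y hy hgen
  have hsurj := kum_surj p K L ι m hmp ζ hζ η hη y hy ρ hρ ν hν hνa γ hγζ hco
    (fun e z hz => hind e z (by rw [finprod_eq_prod_of_fintype]; exact hz))
    A P φ w π hst hexp hcl (by rw [hπγ]; exact hw) (hχ K _)
  have hν1 : ∀ h : Gl p K, ν 1 h = 0 := by
    intro h
    have h1 := hνa 1 1 h
    rw [mul_one] at h1
    exact left_eq_add.mp h1
  let Ψ : ρ.ker →* A :=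
    { toFun := fun τ => ∏ h : Gl p K, (φ (π h) w) ^ (ν τ h).val
      map_one' := by
        refine Finset.prod_eq_one fun h _ => ?_
        rw [hν1, ZMod.val_zero, pow_zero]
      map_mul' := by
        intro τ τ'
        rw [← Finset.prod_mul_distrib]
        refine Finset.prod_congr rfl fun h _ => ?_
        rw [hνa, pow_val_add m _ (hexp _)] }
  have hΨ : Function.Surjective Ψ := fun n => hsurj n
  have hπs : Function.Surjective π := fun g => by
    obtain ⟨σ, hσ, -⟩ := hst g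
    exact ⟨σ, hσ⟩
  have hcard : (Nat.card ρ.ker).Coprime (Nat.card (Gl p K)) :=
    card_coprime_of_pow ρ.ker m _ hνm hco
  obtain ⟨Φ, hΦ⟩ := glue (Gl p L) (Gl p K) A P φ ρ hρs hcard Ψ hΨ π hπs (by
    intro s τ τ' hττ
    show ∏ h : Gl p K, (φ (π h) w) ^ (ν τ' h).val =
      φ (π (ρ s)) (∏ h : Gl p K, (φ (π h) w) ^ (ν τ h).val)
    rw [map_prod]
    symm
    refine Fintype.prod_equiv (Equiv.mulLeft (ρ s)) _ _ fun h => ?_
    rw [Equiv.coe_mulLeft, hνc s τ τ' h hττ, map_pow, map_mul, map_mul]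
    rfl)
  exact realG_of_surj p L hNIL _ Φ hΦ

/-- groups generated by elements of `p`-power order which are extensions of a `p`-group by an
abelian group of order prime to `p`, generated by the conjugates of one element `v` with
`g v g⁻¹ = v ^ p` for some `g`, are Galois groups over the affine line over `F_p` -/
theorem main (p : ℕ) [Fact p.Prime] (E : Type) [Group E] [Finite E]
    (hE : Subgroup.closure {g : E | ∃ n : ℕ, g ^ (p ^ n) = 1} = ⊤) (N : Subgroup E)
    [N.Normal] (hab : ∀ a ∈ N, ∀ b ∈ N, a * b = b * a) (hcop : (Nat.card N).Coprime p)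
    (hEN : IsPGroup p (E ⧸ N)) (v : E) (hv : Subgroup.normalClosure {v} = N) (g : E)
    (hg : g * v * g⁻¹ = v ^ p) : RealG p E := by
  obtain ⟨A, P, _, _, _, _, φ, w, g0, m, ⟨eqv⟩, hP, hmp, hexp, hw, hcl, hk, hχ⟩ :=
    split_data p E hE N hab hcop hEN v hv g hg
  have h1 : RealG p (A ⋊[φ] P) := realG_of_kd p A P φ w g0 m hmp hexp hw hcl hχ
    (kd_of_pc p m hmp P hP hk g0 (pc_all p m hmp P hP g0))
  obtain ⟨L, _, _, _, _, hfd, hgal, het, ⟨e⟩⟩ := h1
  exact ⟨L, inferInstance, inferInstance, inferInstance, inferInstance, hfd, hgal, het,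
    ⟨eqv.symm.trans e⟩⟩

end Pool.Agent.AB
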