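import Pool.Agent.Lib.MP_5de024_nt.Et

/-!
# Quotients of the Galois group (piece Quo)
-/

set_option autoImplicit false
set_option linter.unusedSectionVars false

namespace Pool.Agent.AB

variable (p : ℕ) [Fact p.Prime] (L : Type) [Field L] [Algebra (Fx p) L] [Algebra (Rx p) L]
  [IsScalarTower (Rx p) (Fx p) L]

/-- an integer of trace one for a subgroup -/
theorem trace_one_sub [FiniteDimensional (Fx p) L] [IsGalois (Fx p) L] (h : NI p L)
    (H : Subgroup (Gl p L)) [Fintype H] :
    ∃ c : Oc p L, ∑ τ : H, act p L (τ : Gl p L) c = 1 := by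
  classical
  obtain ⟨θ, hθ⟩ := trace_one p L h
  obtain ⟨S, hS, -⟩ := Subgroup.exists_isComplement_right H 1
  let e : H × S ≃ Gl p L := Equiv.ofBijective (fun x => (x.1 : Gl p L) * (x.2 : Gl p L)) hS
  have hSfin : Finite S := Subtype.finite
  have : Fintype S := Fintype.ofFinite S
  refine ⟨∑ r : S, act p L (r : Gl p L) θ, ?_⟩
  rw [← hθ, ← e.sum_comp, Fintype.sum_prod_type]
  refine Finset.sum_congr rfl (fun τ _ => ?_)
  rw [map_sum]
  refine Finset.sum_congr rfl (fun r _ => ?_)
  exact (act_mul p L _ _ θ).symm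

/-- absence of inertia passes to the fixed field of a normal subgroup -/
theorem ni_fixed [FiniteDimensional (Fx p) L] [IsGalois (Fx p) L] (h : NI p L)
    (H : Subgroup (Gl p L)) [H.Normal] (M : Type) [Field M] [Algebra (Fx p) M]
    [Algebra (Rx p) M] [IsScalarTower (Rx p) (Fx p) M] (ι : M →ₐ[Fx p] L)
    (hι : ∀ z : L, (∀ τ ∈ H, τ z = z) ↔ ∃ w : M, z = ι w) : NI p M := by
  classical
  obtain ⟨n, a, b, h1, h2⟩ := gs_of_ni p L h
  have hHfin : Fintype H := Fintype.ofFinite H
  obtain ⟨c, hc⟩ := trace_one_sub p L h H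
  -- elements of the ring of integers fixed by `H`
  have hdesc : ∀ z : Oc p L, (∀ τ : H, act p L (τ : Gl p L) z = z) →
      ∃ w : Oc p M, omap p M L ι w = z := by
    intro z hz
    obtain ⟨w, hw⟩ := (hι (z : L)).1 (fun τ hτ =>
      congrArg (fun y : Oc p L => (y : L)) (hz ⟨τ, hτ⟩))
    have hwint : IsIntegral (Rx p) w := by
      have h3 : IsIntegral (Rx p) ((ι.restrictScalars (Rx p)) w) := by
        have : (ι.restrictScalars (Rx p)) w = (z : L) := hw.symm
        rw [this]
        exact z.2
      exact (isIntegral_algHom_iff (ι.restrictScalars (Rx p)) ι.toRingHom.injective).1 h3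
    exact ⟨⟨w, hwint⟩, Subtype.ext hw.symm⟩
  have htr : ∀ z : Oc p L, ∃ w : Oc p M,
      omap p M L ι w = ∑ τ : H, act p L (τ : Gl p L) z := by
    intro z
    apply hdesc
    intro σ
    rw [map_sum]
    exact Equiv.sum_comp (Equiv.mulLeft σ) (fun τ : H => act p L (τ : Gl p L) z)
  choose A hA using fun i => htr (c * a i)
  choose B hB using fun i => htr (b i)
  have hinj : Function.Injective (omap p M L ι) := by
    intro x y hxy
    exact Subtype.ext (ι.toRingHom.injective (congrArg (fun z : Oc p L => (z : L)) hxy))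
  -- the key computation
  have hkey : ∀ s : Gl p L, ∑ i, (∑ t : H, act p L (t : Gl p L) (c * a i)) *
      act p L s (∑ u : H, act p L (u : Gl p L) (b i)) =
      ∑ t : H, ∑ u : H, act p L (t : Gl p L) c * (if (t : Gl p L) = s * u then 1 else 0) := by
    intro s
    have e1 : ∀ t u : H, ∑ i, act p L (t : Gl p L) (a i) * act p L (s * u) (b i) =
        if (t : Gl p L) = s * u then 1 else 0 := by
      intro t u
      have e2 : ∀ i, act p L (t : Gl p L) (a i) * act p L (s * u) (b i) =
          act p L (t : Gl p L) (a i * act p L ((t : Gl p L)⁻¹ * (s * u)) (b i)) := by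
        intro i
        rw [map_mul, ← act_mul, mul_inv_cancel_left]
      simp only [e2]
      rw [← map_sum]
      by_cases htu : (t : Gl p L) = s * u
      · rw [if_pos htu, ← htu, inv_mul_cancel]
        simp only [act_one]
        rw [h1, map_one]
      · rw [if_neg htu, h2 _ (fun h => htu (inv_mul_eq_one.1 h)), map_zero]
    have e3 : ∀ i, (∑ t : H, act p L (t : Gl p L) (c * a i)) *
        act p L s (∑ u : H, act p L (u : Gl p L) (b i)) =
        ∑ t : H, ∑ u : H, act p L (t : Gl p L) c *
          (act p L (t : Gl p L) (a i) * act p L (s * u) (b i)) := by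
      intro i
      rw [map_sum, Finset.sum_mul_sum]
      refine Finset.sum_congr rfl (fun t _ => Finset.sum_congr rfl (fun u _ => ?_))
      rw [map_mul, act_mul, mul_assoc]
    simp only [e3]
    rw [Finset.sum_comm]
    refine Finset.sum_congr rfl (fun t _ => ?_)
    rw [Finset.sum_comm]
    refine Finset.sum_congr rfl (fun u _ => ?_)
    rw [← Finset.mul_sum, e1]
  have hone : ∑ i, A i * B i = 1 := by
    apply hinj
    rw [map_sum, map_one]
    have e1 := hkey 1
    simp only [act_one, one_mul] at e1
    have e2 : ∀ i, omap p M L ι (A i * B i) = (∑ t : H, act p L (t : Gl p L) (c * a i)) *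
        (∑ u : H, act p L (u : Gl p L) (b i)) := fun i => by rw [map_mul, hA, hB]
    rw [Finset.sum_congr rfl (fun i _ => e2 i), e1]
    refine Eq.trans ?_ hc
    refine Finset.sum_congr rfl (fun t _ => ?_)
    rw [Finset.sum_eq_single t]
    · rw [if_pos rfl, mul_one]
    · intro u _ hu
      rw [if_neg (fun h => hu (Subtype.ext h).symm), mul_zero]
    · intro ht
      exact absurd (Finset.mem_univ _) ht
  intro σ' hσ' P hP
  -- lift the automorphism
  let _ : Algebra M L := ι.toRingHom.toAlgebra
  have : IsScalarTower (Fx p) M L := .of_algebraMap_eq (fun x => (ι.commutes x).symm)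
  let s : Gl p L := σ'.liftNormal L
  have hs : ∀ w : M, s (ι w) = ι (σ' w) := fun w => σ'.liftNormal_commutes L w
  have hsH : s ∉ H := by
    intro hsH
    apply hσ'
    ext w
    have h3 := (hι (ι w)).2 ⟨w, rfl⟩ s hsH
    rw [hs] at h3
    exact ι.toRingHom.injective h3
  have hact : ∀ w : Oc p M, act p L s (omap p M L ι w) = omap p M L ι (act p M σ' w) := by
    intro w
    exact Subtype.ext (hs (w : M))
  have hzero : ∑ i, A i * act p M σ' (B i) = 0 := by
    apply hinj
    rw [map_sum, map_zero]
    have e2 : ∀ i, omap p M L ι (A i * act p M σ' (B i)) =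
        (∑ t : H, act p L (t : Gl p L) (c * a i)) *
        act p L s (∑ u : H, act p L (u : Gl p L) (b i)) := fun i => by
      rw [map_mul, ← hact, hA, hB]
    rw [Finset.sum_congr rfl (fun i _ => e2 i), hkey]
    refine Finset.sum_eq_zero (fun t _ => Finset.sum_eq_zero (fun u _ => ?_))
    rw [if_neg, mul_zero]
    intro h3
    apply hsH
    have h4 : s = t * (u : Gl p L)⁻¹ := by rw [h3, mul_inv_cancel_right]
    rw [h4]
    exact H.mul_mem t.2 (H.inv_mem u.2)
  by_contra hcon
  push Not at hcon
  apply hP.ne_top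
  rw [Ideal.eq_top_iff_one, ← hone, ← sub_zero (∑ i, A i * B i), ← hzero,
    ← Finset.sum_sub_distrib]
  refine Ideal.sum_mem _ (fun i _ => ?_)
  have h3 : A i * B i - A i * act p M σ' (B i) = -A i * (act p M σ' (B i) - B i) := by ring
  rw [h3]
  exact Ideal.mul_mem_left _ _ (hcon (B i))

/-- every quotient of the group of an extension without inertia is realised -/
theorem realG_of_surj [FiniteDimensional (Fx p) L] [IsGalois (Fx p) L] (h : NI p L)
    (E : Type) [Group E] (Φ : Gl p L →* E) (hΦ : Function.Surjective Φ) : RealG p E := by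
  classical
  let H := Φ.ker
  let M := IntermediateField.fixedField H
  have hNI : NI p M := by
    refine ni_fixed p L h H M M.val ?_
    intro z
    constructor
    · intro hz
      exact ⟨⟨z, (IntermediateField.mem_fixedField_iff H z).2 hz⟩, rfl⟩
    · rintro ⟨w, rfl⟩ τ hτ
      exact (IntermediateField.mem_fixedField_iff H _).1 w.2 τ hτ
  have hgal : IsGalois (Fx p) M := IsGalois.of_fixedField_normal_subgroup H
  have het : Algebra.Etale (Rx p) (Oc p M) := et_of_ni p M hNI
  exact ⟨M, inferInstance, inferInstance, inferInstance, inferInstance, inferInstance, hgal, het,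
    ⟨(QuotientGroup.quotientKerEquivOfSurjective Φ hΦ).symm.trans
      (IsGalois.normalAutEquivQuotient H)⟩⟩

end Pool.Agent.AB
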